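import Pool.Agent.Work.MP_7ec17a_gt_S2.Outer

/-! The low corners. -/

namespace Pool.Agent.Star77b

open Real

noncomputable section

theorem Dat.lin {h A : ℝ → ℝ} {T : ℝ} (hA : Dat h A T) (α : ℝ) {ε : ℝ} (hε : 0 < ε) :
    ∃ r > 0, ∀ z : ℝ, |z| ≤ r → |A (α + z) - A α - h α * z| ≤ ε * |z| := by
  have h1 := hasDerivAt_iff_isLittleO_nhds_zero.1 (hA.der α)
  have h2 := h1.def hε
  rw [Metric.eventually_nhds_iff] at h2
  obtain ⟨r, hr, h3⟩ := h2
  refine ⟨r / 2, by positivity, fun z hz => ?_⟩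
  have h4 := h3 (y := z) (by rw [dist_zero_right, norm_eq_abs]; linarith)
  rw [norm_eq_abs, norm_eq_abs, smul_eq_mul] at h4
  have e1 : A (α + z) - A α - h α * z = A (α + z) - A α - z * h α := by ring
  rw [e1]; exact h4

theorem polar {a b : ℝ} (ha : 0 < a) (hb : 0 < b) :
    ∃ φ, 0 < φ ∧ φ < π / 2 ∧ a = √(a ^ 2 + b ^ 2) * cos φ ∧ b = √(a ^ 2 + b ^ 2) * sin φ := by
  refine ⟨arctan (b / a), ?_, arctan_lt_pi_div_two _, ?_, ?_⟩
  · rw [← arctan_zero]; exact arctan_strictMono (by positivity)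
  · rw [cos_arctan]
    have e1 : √(a ^ 2 + b ^ 2) = a * √(1 + (b / a) ^ 2) := by
      have : a ^ 2 + b ^ 2 = a ^ 2 * (1 + (b / a) ^ 2) := by field_simp
      rw [this, sqrt_mul (by positivity), sqrt_sq ha.le]
    rw [e1]
    have : 0 < √(1 + (b / a) ^ 2) := by positivity
    field_simp
  · rw [sin_arctan]
    have e1 : √(a ^ 2 + b ^ 2) = a * √(1 + (b / a) ^ 2) := by
      have : a ^ 2 + b ^ 2 = a ^ 2 * (1 + (b / a) ^ 2) := by field_simp
      rw [this, sqrt_mul (by positivity), sqrt_sq ha.le]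
    rw [e1]
    have : 0 < √(1 + (b / a) ^ 2) := by positivity
    field_simp

theorem u_low (θ a b : ℝ) : u θ (-(π / 2) + a) (-(π / 2) + b) =
    cos θ * (sin a * sin b) + cos a * cos b := by
  unfold u
  have e1 : cos (-(π / 2) + a) = sin a := by
    rw [cos_add]; simp
  have e2 : cos (-(π / 2) + b) = sin b := by
    rw [cos_add]; simp
  have e3 : sin (-(π / 2) + a) = -cos a := by
    rw [sin_add]; simp
  have e4 : sin (-(π / 2) + b) = -cos b := by
    rw [sin_add]; simp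
  rw [e1, e2, e3, e4]; ring

theorem u_high (θ a b : ℝ) : u θ (π / 2 - a) (π / 2 - b) =
    cos θ * (sin a * sin b) + cos a * cos b := by
  unfold u
  rw [cos_pi_div_two_sub, cos_pi_div_two_sub, sin_pi_div_two_sub, sin_pi_div_two_sub]

/-- lower bound for the spherical distance -/
theorem Pi_ge {θ ψ a b : ℝ} (ha : a ∈ Set.Icc 0 (π / 2))
    (hb : b ∈ Set.Icc 0 (π / 2)) :
    sin a * cos ψ - sin b * cos (θ - ψ) ≤ Pi θ (-(π / 2) + a) (-(π / 2) + b) := by
  have hsa : 0 ≤ sin a := sin_nonneg_of_nonneg_of_le_pi ha.1 (by linarith [ha.2, pi_pos])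
  have hsb : 0 ≤ sin b := sin_nonneg_of_nonneg_of_le_pi hb.1 (by linarith [hb.2, pi_pos])
  unfold Pi
  rw [u_low]
  set v := cos θ * (sin a * sin b) + cos a * cos b with hv
  have hv0 : -1 ≤ v := by
    have h1 := neg_one_le_cos (a + b)
    rw [cos_add] at h1
    have h2 := mul_nonneg hsa hsb
    have h3 := mul_nonneg (show 0 ≤ cos θ + 1 by linarith [neg_one_le_cos θ]) h2
    rw [hv]; linarith
  have key : (sin a * cos ψ - sin b * cos (θ - ψ)) ^ 2 ≤ 2 - 2 * v := by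
    have i1 := sin_sq_add_cos_sq a
    have i2 := sin_sq_add_cos_sq b
    have i3 := sin_sq_add_cos_sq ψ
    have i4 := sin_sq_add_cos_sq (θ - ψ)
    have i5 : cos θ = cos (θ - ψ) * cos ψ - sin (θ - ψ) * sin ψ := by
      rw [← cos_add]; ring_nf
    have i6 : 2 - 2 * v - (sin a * cos ψ - sin b * cos (θ - ψ)) ^ 2 =
        (cos a - cos b) ^ 2 + (sin a * sin ψ + sin b * sin (θ - ψ)) ^ 2 := by
      rw [hv, i5]
      linear_combination (-1 : ℝ) * i1 - i2 + sin a ^ 2 * (-1 : ℝ) * i3 * (-1) * (-1) -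
        sin b ^ 2 * i4
    nlinarith [sq_nonneg (cos a - cos b), sq_nonneg (sin a * sin ψ + sin b * sin (θ - ψ))]
  have hv1 : v ≤ 1 := by nlinarith [sq_nonneg (sin a * cos ψ - sin b * cos (θ - ψ))]
  have hP0 : 0 ≤ arccos v := arccos_nonneg _
  have hcos : cos (arccos v) = v := cos_arccos hv0 hv1
  have h4 : 2 - 2 * v = (2 * sin (arccos v / 2)) ^ 2 := by
    have := cos_two_mul (arccos v / 2)
    have e3 := sin_sq_add_cos_sq (arccos v / 2)
    have e5 : 2 * (arccos v / 2) = arccos v := by ring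
    rw [e5, hcos] at this
    nlinarith
  rw [h4] at key
  have h5 : sin (arccos v / 2) ≤ arccos v / 2 := sin_le (by positivity)
  have h6 : 0 ≤ sin (arccos v / 2) :=
    sin_nonneg_of_nonneg_of_le_pi (by positivity) (by linarith [arccos_le_pi v, pi_pos])
  have h7 := abs_le_of_sq_le_sq' key (by linarith)
  linarith [h7.2]

/-- upper bound -/
theorem Pi_le {θ a b : ℝ} (ha : a ∈ Set.Icc 0 (π / 2))
    (hb : b ∈ Set.Icc 0 (π / 2)) :
    Pi θ (-(π / 2) + a) (-(π / 2) + b) ≤ a + b := by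
  have hsa : 0 ≤ sin a := sin_nonneg_of_nonneg_of_le_pi ha.1 (by linarith [ha.2, pi_pos])
  have hsb : 0 ≤ sin b := sin_nonneg_of_nonneg_of_le_pi hb.1 (by linarith [hb.2, pi_pos])
  unfold Pi
  rw [u_low]
  have h1 : cos (a + b) ≤ cos θ * (sin a * sin b) + cos a * cos b := by
    rw [cos_add]
    have := mul_nonneg (show 0 ≤ cos θ + 1 by linarith [neg_one_le_cos θ]) (mul_nonneg hsa hsb)
    linarith
  have h2 : arccos (cos (a + b)) = a + b :=
    arccos_cos (by linarith [ha.1, hb.1]) (by linarith [ha.2, hb.2])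
  have := arccos_le_arccos h1
  linarith

theorem abs_sin_sub_le {a r : ℝ} (ha : 0 ≤ a) (hr : a ≤ r) :
    |sin a - a| ≤ a * (r ^ 2 / 4) := by
  rcases ha.eq_or_lt with h | h
  · rw [← h]; simp
  · have h1 := sin_gt_sub_cube h
    have h2 := sin_lt h
    rw [abs_le]
    constructor
    · have h3 : a ^ 3 ≤ a * r ^ 2 := by
        have : a ^ 2 ≤ r ^ 2 := by gcongr
        nlinarith
      have h4 : 0 ≤ a * r ^ 2 := by positivity
      linarith
    · have : 0 ≤ a * (r ^ 2 / 4) := by positivity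
      linarith

/-- the direct rectangle -/
theorem corner_rect {ρ : ℝ → ℝ} (hρ : ∀ x, 0 < ρ x) {θ t0 R φ φ' : ℝ}
    (h1 : ρ (t0 / 2 + π / 4) = R * cos φ) (h2 : ρ (t0 / 2 - π / 4) = R * sin φ)
    (h3 : ρ (t0 / 2 + θ / 2 + π / 4) = R * cos φ')
    (h4 : ρ (t0 / 2 + θ / 2 - π / 4) = R * sin φ') (hφ : φ' - φ = θ / 2) : IsRect ρ θ := by
  have hφ' : φ' = φ + θ / 2 := by linarith
  subst hφ'
  have hI : Complex.exp ((π / 2 : ℝ) * Complex.I) = Complex.I := by
    push_cast; exact Complex.exp_pi_div_two_mul_I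
  have e1 : Complex.exp ((t0 / 2 + π / 4 : ℝ) * Complex.I) =
      Complex.exp ((t0 / 2 - π / 4 : ℝ) * Complex.I) * Complex.I := by
    rw [← hI, ← Complex.exp_add, hI]; congr 1; push_cast; ring
  have e3 : Complex.exp ((t0 / 2 + θ / 2 + π / 4 : ℝ) * Complex.I) =
      Complex.exp ((t0 / 2 - π / 4 : ℝ) * Complex.I) *
        Complex.exp ((θ / 2 : ℝ) * Complex.I) * Complex.I := by
    rw [← hI, ← Complex.exp_add, ← Complex.exp_add, hI]; congr 1; push_cast; ring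
  have e4 : Complex.exp ((t0 / 2 + θ / 2 - π / 4 : ℝ) * Complex.I) =
      Complex.exp ((t0 / 2 - π / 4 : ℝ) * Complex.I) *
        Complex.exp ((θ / 2 : ℝ) * Complex.I) := by
    rw [← Complex.exp_add]; congr 1; push_cast; ring
  refine ⟨t0 / 2 + π / 4, t0 / 2 - π / 4, t0 / 2 + θ / 2 + π / 4, t0 / 2 + θ / 2 - π / 4,
    ?_, ?_, ?_⟩
  · rw [e1]
    intro hh
    have h5 := Complex.exp_ne_zero ((t0 / 2 - π / 4 : ℝ) * Complex.I)
    have h6 : (ρ (t0 / 2 + π / 4) : ℂ) * Complex.I = ρ (t0 / 2 - π / 4) := by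
      apply mul_left_cancel₀ h5
      linear_combination hh
    have h7 := congrArg Complex.re h6
    simp at h7
    exact (hρ _).ne h7
  · rw [e3, e1, h1, h2, h3, cos_add]
    push_cast
    ring
  · rw [e4, e1, h1, h2, h4, sin_add]
    push_cast
    linear_combination (Complex.exp ((θ / 2 : ℂ) * Complex.I) * Complex.sin (θ / 2) * R *
      Complex.cos φ * Complex.exp ((t0 / 2 - π / 4 : ℂ) * Complex.I)) * Complex.I_sq

/-- the outer direction: too steep -/
theorem corner_out {ρ A : ℝ → ℝ} {T : ℝ}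
    (hA : Dat (fun x => ρ x ^ 2 / 2) A T) {θ : ℝ} (hθ : θ ∈ Set.Ioo 0 π) {t0 D φ φ' : ℝ}
    (hD : 0 < D) (hφ0 : 0 < φ) (_hφ1 : φ < π / 2) (_hφ0' : 0 < φ') (hφ1' : φ' < π / 2)
    (h2 : ρ (t0 / 2 - π / 4) ^ 2 / 2 = D / 4 * (1 - cos (2 * φ)))
    (h3 : ρ (t0 / 2 + θ / 2 + π / 4) ^ 2 / 2 = D / 4 * (1 + cos (2 * φ')))
    (h4 : ρ (t0 / 2 + θ / 2 - π / 4) ^ 2 / 2 = D / 4 * (1 - cos (2 * φ')))
    (hφ : θ / 2 < φ' - φ) :
    ∃ a b : ℝ, a ∈ Set.Icc 0 (π / 2) ∧ b ∈ Set.Icc 0 (π / 2) ∧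
      VH A θ t0 < Vout A θ (t0 + a) (π / 2 - a) (π / 2 - b) := by
  have hpi := pi_pos
  have hpi3 := pi_gt_three
  have hsx : 0 < sin (2 * φ) := sin_pos_of_pos_of_lt_pi (by linarith) (by linarith)
  have hsy : 0 < sin (2 * φ') := sin_pos_of_pos_of_lt_pi (by linarith) (by linarith)
  have hcθ1 : cos θ ≤ 1 := cos_le_one θ
  set M := sin (2 * φ' - 2 * φ) with hM
  have hM0 : 0 < M := sin_pos_of_pos_of_lt_pi (by linarith [hθ.1]) (by linarith)
  have hM1 : M ≤ 1 := sin_le_one _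
  have hMe : M = sin (2 * φ') * cos (2 * φ) - cos (2 * φ') * sin (2 * φ) := by
    rw [hM, sin_sub]
  set N2 := sin (2 * φ') ^ 2 + sin (2 * φ) ^ 2 - 2 * sin (2 * φ') * sin (2 * φ) * cos θ with hN2
  have hcc : cos (2 * φ' - 2 * φ) < cos θ :=
    cos_lt_cos_of_nonneg_of_le_pi hθ.1.le (by linarith) (by linarith)
  have hN2M : N2 < M ^ 2 := by
    have i1 := sin_sq_add_cos_sq (2 * φ)
    have i2 := sin_sq_add_cos_sq (2 * φ')
    have : M ^ 2 - N2 = 2 * (sin (2 * φ') * sin (2 * φ)) * (cos θ - cos (2 * φ' - 2 * φ)) := by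
      rw [hMe, hN2, cos_sub]
      have i3 : cos (2 * φ) ^ 2 = 1 - sin (2 * φ) ^ 2 := by linarith
      have i4 : cos (2 * φ') ^ 2 = 1 - sin (2 * φ') ^ 2 := by linarith
      linear_combination sin (2 * φ') ^ 2 * i3 + sin (2 * φ) ^ 2 * i4
    have h5 : 0 < 2 * (sin (2 * φ') * sin (2 * φ)) * (cos θ - cos (2 * φ' - 2 * φ)) := by
      have : 0 < cos θ - cos (2 * φ' - 2 * φ) := by linarith
      positivity
    linarith
  have hN20 : 0 ≤ N2 := by
    have : N2 = (sin (2 * φ') - sin (2 * φ) * cos θ) ^ 2 + sin (2 * φ) ^ 2 * sin θ ^ 2 := by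
      have i1 := sin_sq_add_cos_sq θ
      rw [hN2]
      linear_combination (-(sin (2 * φ) ^ 2)) * i1
    rw [this]; positivity
  set N := √((N2 + M ^ 2) / 2) with hN
  have hNsq : N ^ 2 = (N2 + M ^ 2) / 2 := by rw [hN, sq_sqrt (by positivity)]
  have hN0 : 0 < N := by rw [hN]; exact sqrt_pos.2 (by positivity)
  have hNM : N < M := by
    apply lt_of_pow_lt_pow_left₀ 2 hM0.le; rw [hNsq]; linarith
  have hN1 : N ≤ 1 := by linarith
  set g := N ^ 2 - N2 with hg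
  have hg0 : 0 < g := by rw [hg, hNsq]; linarith
  have hε : 0 < D / 4 * (M - N) / 8 := by
    have : 0 < M - N := by linarith
    positivity
  set ε := D / 4 * (M - N) / 8 with hεd
  obtain ⟨r2, hr2, l2⟩ := hA.lin (t0 / 2 - π / 4) hε
  obtain ⟨r3, hr3, l3⟩ := hA.lin (t0 / 2 + θ / 2 + π / 4) hε
  obtain ⟨r4, hr4, l4⟩ := hA.lin (t0 / 2 + θ / 2 - π / 4) hε
  obtain ⟨τ, hτ0, hτ1, hτg, hτ2, hτ3, hτ4⟩ : ∃ τ : ℝ, 0 < τ ∧ τ ≤ 1 ∧ τ ^ 2 ≤ g ∧ 2 * τ ≤ r2 ∧
      2 * τ ≤ r3 ∧ 2 * τ ≤ r4 := by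
    refine ⟨min 1 (min (√g) (min (r2 / 2) (min (r3 / 2) (r4 / 2)))), ?_, ?_, ?_, ?_, ?_, ?_⟩
    · have : 0 < √g := sqrt_pos.2 hg0
      positivity
    · exact min_le_left _ _
    · have h5 : min 1 (min (√g) (min (r2 / 2) (min (r3 / 2) (r4 / 2)))) ≤ √g :=
        (min_le_right _ _).trans (min_le_left _ _)
      have h6 : 0 ≤ min 1 (min (√g) (min (r2 / 2) (min (r3 / 2) (r4 / 2)))) := by positivity
      calc _ ≤ √g ^ 2 := by gcongr
        _ = g := sq_sqrt hg0.le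
    · have : min 1 (min (√g) (min (r2 / 2) (min (r3 / 2) (r4 / 2)))) ≤ r2 / 2 :=
        (min_le_right _ _).trans ((min_le_right _ _).trans (min_le_left _ _))
      linarith
    · have : min 1 (min (√g) (min (r2 / 2) (min (r3 / 2) (r4 / 2)))) ≤ r3 / 2 :=
        (min_le_right _ _).trans ((min_le_right _ _).trans
          ((min_le_right _ _).trans (min_le_left _ _)))
      linarith
    · have : min 1 (min (√g) (min (r2 / 2) (min (r3 / 2) (r4 / 2)))) ≤ r4 / 2 :=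
        (min_le_right _ _).trans ((min_le_right _ _).trans
          ((min_le_right _ _).trans (min_le_right _ _)))
      linarith
  set a := τ * sin (2 * φ') with ha
  set b := τ * sin (2 * φ) with hb
  have ha0 : 0 < a := by positivity
  have hb0 : 0 < b := by positivity
  have haτ : a ≤ τ := by
    have := sin_le_one (2 * φ'); rw [ha]; nlinarith
  have hbτ : b ≤ τ := by
    have := sin_le_one (2 * φ); rw [hb]; nlinarith
  have hP : Pi θ (π / 2 - a) (π / 2 - b) ≤ N * τ := by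
    unfold Pi
    rw [u_high]
    have hsa : sin a ≤ a := sin_le ha0.le
    have hsb : sin b ≤ b := sin_le hb0.le
    have hsa0 : 0 ≤ sin a := sin_nonneg_of_nonneg_of_le_pi ha0.le (by linarith)
    have hsb0 : 0 ≤ sin b := sin_nonneg_of_nonneg_of_le_pi hb0.le (by linarith)
    have k1 : 1 - N2 * τ ^ 2 / 2 ≤ cos θ * (sin a * sin b) + cos a * cos b := by
      have k2 := one_sub_sq_div_two_le_cos (x := a - b)
      have k3 : cos θ * (sin a * sin b) + cos a * cos b =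
          cos (a - b) - (1 - cos θ) * (sin a * sin b) := by rw [cos_sub]; ring
      have k4 : sin a * sin b ≤ a * b := mul_le_mul hsa hsb hsb0 ha0.le
      have k5 : (1 - cos θ) * (sin a * sin b) ≤ (1 - cos θ) * (a * b) :=
        mul_le_mul_of_nonneg_left k4 (by linarith)
      have k6 : N2 * τ ^ 2 = a ^ 2 + b ^ 2 - 2 * a * b * cos θ := by
        rw [hN2, ha, hb]; ring
      rw [k3, k6]
      nlinarith
    have k7 : cos (N * τ) ≤ 1 - (N * τ) ^ 2 / 2 + (N * τ) ^ 4 * (5 / 96) := by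
      have hx1 : |N * τ| ≤ 1 := by
        rw [abs_of_pos (by positivity)]
        exact (mul_le_mul hN1 hτ1 hτ0.le zero_le_one).trans (by norm_num)
      have := cos_bound hx1
      have := (abs_le.1 this).2
      rw [abs_of_pos (show 0 < N * τ by positivity)] at this
      linarith
    have k8 : (N * τ) ^ 4 * (5 / 96) ≤ g * τ ^ 2 / 2 := by
      have k9 : (N * τ) ^ 4 ≤ g * τ ^ 2 := by
        have : N ^ 4 ≤ 1 := pow_le_one₀ hN0.le hN1
        calc (N * τ) ^ 4 = N ^ 4 * τ ^ 4 := by ring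
          _ ≤ 1 * τ ^ 4 := by gcongr
          _ = τ ^ 2 * τ ^ 2 := by ring
          _ ≤ g * τ ^ 2 := by gcongr
      have : 0 ≤ g * τ ^ 2 := by positivity
      linarith
    have k10 : cos (N * τ) ≤ cos θ * (sin a * sin b) + cos a * cos b := by
      have : (N * τ) ^ 2 = N2 * τ ^ 2 + g * τ ^ 2 := by rw [hg]; ring
      linarith
    have k11 := arccos_le_arccos k10
    have k12 : N * τ ≤ 1 * 1 := mul_le_mul hN1 hτ1 hτ0.le zero_le_one
    rwa [arccos_cos (by positivity) (by linarith)] at k11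
  have hP0 : 0 ≤ Pi θ (π / 2 - a) (π / 2 - b) := arccos_nonneg _
  refine ⟨a, b, ⟨ha0.le, by linarith⟩, ⟨hb0.le, by linarith⟩, ?_⟩
  set P := Pi θ (π / 2 - a) (π / 2 - b) with hPd
  have hPτ : P ≤ τ := hP.trans (by
    calc N * τ ≤ 1 * τ := by gcongr
      _ = τ := one_mul τ)
  have m2 := l2 a (by rw [abs_of_pos ha0]; linarith)
  have m3 := l3 ((a - P - b) / 2) (by rw [abs_le]; constructor <;> linarith)
  have m4 := l4 ((a - P + b) / 2) (by rw [abs_le]; constructor <;> linarith)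
  simp only [h2, h3, h4] at m2 m3 m4
  have n2 : |a| ≤ τ := by rw [abs_of_pos ha0]; exact haτ
  have n3 : |(a - P - b) / 2| ≤ 3 / 2 * τ := by rw [abs_le]; constructor <;> linarith
  have n4 : |(a - P + b) / 2| ≤ 3 / 2 * τ := by rw [abs_le]; constructor <;> linarith
  have n2' := mul_le_mul_of_nonneg_left n2 hε.le
  have n3' := mul_le_mul_of_nonneg_left n3 hε.le
  have n4' := mul_le_mul_of_nonneg_left n4 hε.le
  have m2' := (abs_le.1 (m2.trans n2')).2
  have m3' := (abs_le.1 (m3.trans n3')).1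
  have m4' := (abs_le.1 (m4.trans n4')).1
  unfold Vout G VH
  rw [← hPd]
  have e1 : (t0 + a + θ - P + (π / 2 - b)) / 2 = t0 / 2 + θ / 2 + π / 4 + (a - P - b) / 2 := by
    ring
  have e2 : (t0 + a + θ - P - (π / 2 - b)) / 2 = t0 / 2 + θ / 2 - π / 4 + (a - P + b) / 2 := by
    ring
  have e3 : (t0 + a + (π / 2 - a)) / 2 = t0 / 2 + π / 4 := by ring
  have e4 : (t0 + a - (π / 2 - a)) / 2 = t0 / 2 - π / 4 + a := by ring
  rw [e1, e2, e3, e4]
  have key : D / 4 * (1 + cos (2 * φ')) * ((a - P - b) / 2) +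
      D / 4 * (1 - cos (2 * φ')) * ((a - P + b) / 2) - D / 4 * (1 - cos (2 * φ)) * a =
      D / 4 * (τ * M - P) := by
    rw [hMe, ha, hb]; ring
  have h9 : D / 4 * (τ * M - P) ≥ 8 * ε * τ := by
    have : 8 * ε * τ = D / 4 * (τ * M - N * τ) := by rw [hεd]; ring
    rw [this]
    gcongr
  have h10 : 0 < ε * τ := by positivity
  linarith

end

end Pool.Agent.Star77b
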