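import Pool.Agent.Work.MP_7ec17a_gt_S2.Corner

/-! The low corners, second part. -/

namespace Pool.Agent.Star77b

open Real

noncomputable section

theorem corner_in {ρ A : ℝ → ℝ} {T : ℝ}
    (hA : Dat (fun x => ρ x ^ 2 / 2) A T) {θ : ℝ} (hθ : θ ∈ Set.Ioo 0 π) {t0 D φ φ' : ℝ}
    (hD : 0 < D) (hφ0 : 0 < φ) (hφ1 : φ < π / 2) (hφ0' : 0 < φ') (hφ1' : φ' < π / 2)
    (h2 : ρ (t0 / 2 - π / 4) ^ 2 / 2 = D / 4 * (1 - cos (2 * φ)))
    (h3 : ρ (t0 / 2 + θ / 2 + π / 4) ^ 2 / 2 = D / 4 * (1 + cos (2 * φ')))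
    (h4 : ρ (t0 / 2 + θ / 2 - π / 4) ^ 2 / 2 = D / 4 * (1 - cos (2 * φ')))
    (hφ : φ' - φ < θ / 2) :
    ∃ r > 0, ∀ a b : ℝ, 0 ≤ a → 0 ≤ b → a ≤ r → b ≤ r → 0 < a + b →
      VH A θ t0 < Vin A θ (t0 - a) (-(π / 2) + a) (-(π / 2) + b) := by
  have hpi := pi_pos
  have hpi3 := pi_gt_three
  obtain ⟨η, he1, he2⟩ : ∃ η, max (2 * φ') (θ - 2 * φ) < η ∧ η < min (2 * φ + θ) π := by
    apply exists_between
    rw [max_lt_iff, lt_min_iff, lt_min_iff]
    exact ⟨⟨by linarith, by linarith⟩, ⟨by linarith, by linarith [hθ.2]⟩⟩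
  rw [max_lt_iff] at he1
  rw [lt_min_iff] at he2
  have hp : cos (2 * φ) < cos (θ - η) := by
    rw [← cos_abs (θ - η)]
    apply cos_lt_cos_of_nonneg_of_le_pi (abs_nonneg _) (by linarith)
    rw [abs_lt]; constructor <;> linarith
  have hq : cos η < cos (2 * φ') :=
    cos_lt_cos_of_nonneg_of_le_pi (by linarith) he2.2.le he1.1
  set p := cos (θ - η) with hpd
  set q := cos η with hqd
  obtain ⟨δ, hδ, hδ1, hδ2⟩ : ∃ δ > 0, 2 * δ ≤ p - cos (2 * φ) ∧ 2 * δ ≤ cos (2 * φ') - q := by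
    refine ⟨min (p - cos (2 * φ)) (cos (2 * φ') - q) / 2, ?_, ?_, ?_⟩
    · have : 0 < min (p - cos (2 * φ)) (cos (2 * φ') - q) :=
        lt_min (by linarith) (by linarith)
      positivity
    · have := min_le_left (p - cos (2 * φ)) (cos (2 * φ') - q); linarith
    · have := min_le_right (p - cos (2 * φ)) (cos (2 * φ') - q); linarith
  have hε : 0 < D / 4 * δ / 6 := by positivity
  set ε := D / 4 * δ / 6 with hεd
  obtain ⟨r2, hr2, l2⟩ := hA.lin (t0 / 2 - π / 4) hε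
  obtain ⟨r3, hr3, l3⟩ := hA.lin (t0 / 2 + θ / 2 + π / 4) hε
  obtain ⟨r4, hr4, l4⟩ := hA.lin (t0 / 2 + θ / 2 - π / 4) hε
  obtain ⟨r, hr0, hr1, hrδ, hrr2, hrr3, hrr4⟩ : ∃ r : ℝ, 0 < r ∧ r ≤ 1 ∧ r ^ 2 / 4 ≤ δ ∧
      2 * r ≤ r2 ∧ 2 * r ≤ r3 ∧ 2 * r ≤ r4 := by
    refine ⟨min 1 (min δ (min (r2 / 2) (min (r3 / 2) (r4 / 2)))), ?_, ?_, ?_, ?_, ?_, ?_⟩
    · positivity
    · exact min_le_left _ _
    · have h5 : min 1 (min δ (min (r2 / 2) (min (r3 / 2) (r4 / 2)))) ≤ δ :=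
        (min_le_right _ _).trans (min_le_left _ _)
      have h5' : min 1 (min δ (min (r2 / 2) (min (r3 / 2) (r4 / 2)))) ≤ 1 := min_le_left _ _
      have h6 : 0 ≤ min 1 (min δ (min (r2 / 2) (min (r3 / 2) (r4 / 2)))) := by positivity
      have h7 : min 1 (min δ (min (r2 / 2) (min (r3 / 2) (r4 / 2)))) ^ 2 ≤ δ * 1 := by
        rw [pow_two]
        exact mul_le_mul h5 h5' h6 hδ.le
      linarith
    · have : min 1 (min δ (min (r2 / 2) (min (r3 / 2) (r4 / 2)))) ≤ r2 / 2 :=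
        (min_le_right _ _).trans ((min_le_right _ _).trans (min_le_left _ _))
      linarith
    · have : min 1 (min δ (min (r2 / 2) (min (r3 / 2) (r4 / 2)))) ≤ r3 / 2 :=
        (min_le_right _ _).trans ((min_le_right _ _).trans
          ((min_le_right _ _).trans (min_le_left _ _)))
      linarith
    · have : min 1 (min δ (min (r2 / 2) (min (r3 / 2) (r4 / 2)))) ≤ r4 / 2 :=
        (min_le_right _ _).trans ((min_le_right _ _).trans
          ((min_le_right _ _).trans (min_le_right _ _)))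
      linarith
  refine ⟨r, hr0, fun a b ha hb har hbr hab => ?_⟩
  have haI : a ∈ Set.Icc 0 (π / 2) := ⟨ha, by linarith⟩
  have hbI : b ∈ Set.Icc 0 (π / 2) := ⟨hb, by linarith⟩
  have hPle := Pi_le (θ := θ) haI hbI
  have hPge := Pi_ge (θ := θ) (ψ := θ - η) haI hbI
  have e0 : θ - (θ - η) = η := by ring
  rw [e0, ← hpd, ← hqd] at hPge
  have hP0 : 0 ≤ Pi θ (-(π / 2) + a) (-(π / 2) + b) := arccos_nonneg _
  set P := Pi θ (-(π / 2) + a) (-(π / 2) + b) with hPd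
  have hPge' : a * cos (2 * φ) - b * cos (2 * φ') + δ * (a + b) ≤ P := by
    have s1 := abs_sin_sub_le ha har
    have s2 := abs_sin_sub_le hb hbr
    have s3 : a * (r ^ 2 / 4) ≤ a * δ := mul_le_mul_of_nonneg_left hrδ ha
    have s4 : b * (r ^ 2 / 4) ≤ b * δ := mul_le_mul_of_nonneg_left hrδ hb
    have s5 : |(sin a - a) * p| ≤ a * δ := by
      rw [abs_mul]
      calc |sin a - a| * |p| ≤ |sin a - a| * 1 := by
            gcongr; rw [hpd]; exact abs_cos_le_one _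
        _ ≤ a * δ := by linarith
    have s6 : |(sin b - b) * q| ≤ b * δ := by
      rw [abs_mul]
      calc |sin b - b| * |q| ≤ |sin b - b| * 1 := by
            gcongr; rw [hqd]; exact abs_cos_le_one _
        _ ≤ b * δ := by linarith
    have s7 := (abs_le.1 s5).1
    have s8 := (abs_le.1 s6).2
    have s9 : a * (2 * δ) ≤ a * (p - cos (2 * φ)) := mul_le_mul_of_nonneg_left hδ1 ha
    have s10 : b * (2 * δ) ≤ b * (cos (2 * φ') - q) := mul_le_mul_of_nonneg_left hδ2 hb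
    linarith
  have m2 := l2 (-a) (by rw [abs_neg, abs_of_nonneg ha]; linarith)
  have m3 := l3 ((P + b - a) / 2) (by rw [abs_le]; constructor <;> linarith)
  have m4 := l4 ((P - a - b) / 2) (by rw [abs_le]; constructor <;> linarith)
  simp only [h2, h3, h4] at m2 m3 m4
  have n2 : |-a| ≤ a + b := by rw [abs_neg, abs_of_nonneg ha]; linarith
  have n3 : |(P + b - a) / 2| ≤ a + b := by rw [abs_le]; constructor <;> linarith
  have n4 : |(P - a - b) / 2| ≤ a + b := by rw [abs_le]; constructor <;> linarith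
  have n2' := mul_le_mul_of_nonneg_left n2 hε.le
  have n3' := mul_le_mul_of_nonneg_left n3 hε.le
  have n4' := mul_le_mul_of_nonneg_left n4 hε.le
  have m2' := (abs_le.1 (m2.trans n2')).2
  have m3' := (abs_le.1 (m3.trans n3')).1
  have m4' := (abs_le.1 (m4.trans n4')).1
  unfold Vin G VH
  rw [← hPd]
  have e1 : (t0 - a + θ - -P + (π + (-(π / 2) + b))) / 2 =
      t0 / 2 + θ / 2 + π / 4 + (P + b - a) / 2 := by ring
  have e2 : (t0 - a + θ - -P - (π + (-(π / 2) + b))) / 2 =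
      t0 / 2 + θ / 2 - π / 4 + (P - a - b) / 2 := by ring
  have e3 : (t0 - a + (π + (-(π / 2) + a))) / 2 = t0 / 2 + π / 4 := by ring
  have e4 : (t0 - a - (π + (-(π / 2) + a))) / 2 = t0 / 2 - π / 4 + -a := by ring
  rw [e1, e2, e3, e4]
  have key : D / 4 * (1 + cos (2 * φ')) * ((P + b - a) / 2) +
      D / 4 * (1 - cos (2 * φ')) * ((P - a - b) / 2) - D / 4 * (1 - cos (2 * φ)) * -a =
      D / 4 * (P - (a * cos (2 * φ) - b * cos (2 * φ'))) := by
    ring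
  have h9 : 6 * (ε * (a + b)) ≤ D / 4 * (P - (a * cos (2 * φ) - b * cos (2 * φ'))) := by
    have : 6 * (ε * (a + b)) = D / 4 * (δ * (a + b)) := by rw [hεd]; ring
    rw [this]
    apply mul_le_mul_of_nonneg_left _ (by positivity)
    linarith
  have h10 : 0 < ε * (a + b) := by positivity
  linarith

theorem der_VH {h A : ℝ → ℝ} {T : ℝ} (hA : Dat h A T) (θ t : ℝ) :
    HasDerivAt (fun t => VH A θ t) ((h (t / 2 + θ / 2 + π / 4) + h (t / 2 + θ / 2 - π / 4) -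
      h (t / 2 + π / 4) - h (t / 2 - π / 4)) / 2) t := by
  have a0 : HasDerivAt (fun t : ℝ => t / 2) (1 / 2) t := (hasDerivAt_id t).div_const 2
  have a3 := (hA.der _).comp t ((a0.add_const (θ / 2)).add_const (π / 4))
  have a4 := (hA.der _).comp t ((a0.add_const (θ / 2)).sub_const (π / 4))
  have a1 := (hA.der _).comp t (a0.add_const (π / 4))
  have a2 := (hA.der _).comp t (a0.sub_const (π / 4))
  have := ((a3.add a4).sub a1).sub a2
  refine this.congr_deriv ?_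
  ring

/-- The low corner: the wedge inside is above. -/
theorem corner {ρ A : ℝ → ℝ} {T : ℝ} (hρ : ∀ x, 0 < ρ x)
    (hA : Dat (fun x => ρ x ^ 2 / 2) A T) {θ : ℝ} (hθ : θ ∈ Set.Ioo 0 π)
    (hno : ¬ IsRect ρ θ) {t0 : ℝ} (ht0 : ∀ t, VH A θ t ≤ VH A θ t0) :
    ∃ r > 0, ∀ a b : ℝ, 0 ≤ a → 0 ≤ b → a ≤ r → b ≤ r → 0 < a + b →
      VH A θ t0 < Vin A θ (t0 - a) (-(π / 2) + a) (-(π / 2) + b) := by
  have hcrit : (ρ (t0 / 2 + θ / 2 + π / 4) ^ 2 / 2 + ρ (t0 / 2 + θ / 2 - π / 4) ^ 2 / 2 -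
      ρ (t0 / 2 + π / 4) ^ 2 / 2 - ρ (t0 / 2 - π / 4) ^ 2 / 2) / 2 = 0 := by
    refine IsLocalMax.hasDerivAt_eq_zero (f := fun t => VH A θ t) ?_ (der_VH hA θ t0)
    exact Filter.Eventually.of_forall ht0
  have hVH0 : 0 < VH A θ t0 := by
    unfold VH
    have g1 := hA.mono (show t0 / 2 + π / 4 < t0 / 2 + θ / 2 + π / 4 by linarith [hθ.1])
    have g2 := hA.mono (show t0 / 2 - π / 4 < t0 / 2 + θ / 2 - π / 4 by linarith [hθ.1])
    linarith
  obtain ⟨φ, p1, p2, p3, p4⟩ := polar (hρ (t0 / 2 + π / 4)) (hρ (t0 / 2 - π / 4))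
  obtain ⟨φ', p1', p2', p3', p4'⟩ := polar (hρ (t0 / 2 + θ / 2 + π / 4))
    (hρ (t0 / 2 + θ / 2 - π / 4))
  have hRR : ρ (t0 / 2 + θ / 2 + π / 4) ^ 2 + ρ (t0 / 2 + θ / 2 - π / 4) ^ 2 =
      ρ (t0 / 2 + π / 4) ^ 2 + ρ (t0 / 2 - π / 4) ^ 2 := by linarith
  rw [hRR] at p3' p4'
  have hD : 0 < ρ (t0 / 2 + π / 4) ^ 2 + ρ (t0 / 2 - π / 4) ^ 2 := by
    have := hρ (t0 / 2 + π / 4)
    positivity
  have hsq := sq_sqrt hD.le
  set D := ρ (t0 / 2 + π / 4) ^ 2 + ρ (t0 / 2 - π / 4) ^ 2 with hDd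
  have h2 : ρ (t0 / 2 - π / 4) ^ 2 / 2 = D / 4 * (1 - cos (2 * φ)) := by
    rw [p4, mul_pow, hsq, cos_two_mul]
    have := sin_sq_add_cos_sq φ
    linear_combination D / 2 * this
  have h3 : ρ (t0 / 2 + θ / 2 + π / 4) ^ 2 / 2 = D / 4 * (1 + cos (2 * φ')) := by
    rw [p3', mul_pow, hsq, cos_two_mul]
    ring
  have h4 : ρ (t0 / 2 + θ / 2 - π / 4) ^ 2 / 2 = D / 4 * (1 - cos (2 * φ')) := by
    rw [p4', mul_pow, hsq, cos_two_mul]
    have := sin_sq_add_cos_sq φ'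
    linear_combination D / 2 * this
  rcases lt_trichotomy (φ' - φ) (θ / 2) with h | h | h
  · exact corner_in hA hθ hD p1 p2 p1' p2' h2 h3 h4 h
  · exact absurd (corner_rect hρ p3 p4 p3' p4' h) hno
  · obtain ⟨a, b, ha, hb, hlt⟩ := corner_out hA hθ hD p1 p2 p1' p2' h2 h3 h4 h
    have := outer_le hρ hA hθ hno ht0 hVH0 (t0 + a) (x := π / 2 - a) (y := π / 2 - b)
      ⟨by linarith [ha.2, pi_pos], by linarith [ha.1]⟩
      ⟨by linarith [hb.2, pi_pos], by linarith [hb.1]⟩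
    linarith

end

end Pool.Agent.Star77b
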