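import Pool.Agent.Work.MP_7ec17a_gt_S2.NearC

/-! The push field on the closed square. -/

namespace Pool.Agent.Star77b

open Real Set Filter Topology

noncomputable section

/-- Abstract mountain pass by iteration, second version. -/
theorem iterate_push2 {E : Type*} [TopologicalSpace E] {Tm : E → E} (hT : Continuous Tm)
    {V g : E → ℝ} (hg : Continuous g) {S Zp Zm : Set E} {m μ δ : ℝ} (hδ : 0 < δ)
    (hS : ∀ p ∈ S, Tm p ∈ S) (hZp : ∀ p ∈ S, p ∈ Zp → Tm p ∈ Zp)
    (hZm : ∀ p ∈ S, p ∈ Zm → Tm p ∈ Zm) (hgp : ∀ p ∈ Zp, 0 < g p) (hgm : ∀ p ∈ Zm, g p < 0)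
    (hM : ∀ p ∈ S, g p = 0 → V p < μ)
    (hup : ∀ p ∈ S, m ≤ V p → p ∉ Zp → p ∉ Zm →
      V p ≤ V (Tm p) ∧ (V p ≤ μ → V p + δ ≤ V (Tm p)))
    {γ : ℝ → E} (hγ : Continuous γ) {a b : ℝ} (hab : a ≤ b) (hγS : ∀ s ∈ Icc a b, γ s ∈ S)
    (hγV : ∀ s ∈ Icc a b, m ≤ V (γ s)) (ha : γ a ∈ Zm) (hb : γ b ∈ Zp) : False := by
  have hSn : ∀ n : ℕ, ∀ p ∈ S, Tm^[n] p ∈ S := by
    intro n
    induction n with
    | zero => intro p hp; simpa using hp
    | succ n ih => intro p hp; rw [Function.iterate_succ_apply']; exact hS _ (ih p hp)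
  have hZpn : ∀ n : ℕ, ∀ p ∈ S, p ∈ Zp → Tm^[n] p ∈ Zp := by
    intro n
    induction n with
    | zero => intro p hp hz; simpa using hz
    | succ n ih =>
      intro p hp hz
      rw [Function.iterate_succ_apply']
      exact hZp _ (hSn n p hp) (ih p hp hz)
  have hZmn : ∀ n : ℕ, ∀ p ∈ S, p ∈ Zm → Tm^[n] p ∈ Zm := by
    intro n
    induction n with
    | zero => intro p hp hz; simpa using hz
    | succ n ih =>
      intro p hp hz
      rw [Function.iterate_succ_apply']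
      exact hZm _ (hSn n p hp) (ih p hp hz)
  obtain ⟨n, hn⟩ := exists_nat_gt ((μ - m) / δ)
  have hn' : μ < m + n * δ := by
    rw [div_lt_iff₀ hδ] at hn; linarith
  have hc : Continuous fun s => g (Tm^[n] (γ s)) := hg.comp ((hT.iterate n).comp hγ)
  have h0 : (0 : ℝ) ∈ Icc (g (Tm^[n] (γ a))) (g (Tm^[n] (γ b))) :=
    ⟨(hgm _ (hZmn n _ (hγS a ⟨le_rfl, hab⟩) ha)).le,
      (hgp _ (hZpn n _ (hγS b ⟨hab, le_rfl⟩) hb)).le⟩
  obtain ⟨s, hs, hs0⟩ := intermediate_value_Icc hab hc.continuousOn h0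
  simp only at hs0
  have key : ∀ k : ℕ, k ≤ n → m ≤ V (Tm^[k] (γ s)) ∧
      (m + k * δ ≤ V (Tm^[k] (γ s)) ∨ μ ≤ V (Tm^[k] (γ s))) := by
    intro k
    induction k with
    | zero => intro _; exact ⟨hγV s hs, Or.inl (by simpa using hγV s hs)⟩
    | succ k ih =>
      intro hk
      obtain ⟨i1, i2⟩ := ih (by omega)
      have h2 : Tm^[n] (γ s) = Tm^[n - k] (Tm^[k] (γ s)) := by
        rw [← Function.iterate_add_apply]; congr 2; omega
      have h3 : Tm^[k] (γ s) ∉ Zp := by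
        intro hz
        have := hgp _ (hZpn (n - k) _ (hSn k _ (hγS s hs)) hz)
        rw [← h2] at this
        linarith
      have h4 : Tm^[k] (γ s) ∉ Zm := by
        intro hz
        have := hgm _ (hZmn (n - k) _ (hSn k _ (hγS s hs)) hz)
        rw [← h2] at this
        linarith
      obtain ⟨h6, h7⟩ := hup _ (hSn k _ (hγS s hs)) i1 h3 h4
      rw [Function.iterate_succ_apply']
      refine ⟨i1.trans h6, ?_⟩
      rcases le_or_gt (V (Tm^[k] (γ s))) μ with h | h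
      · rcases i2 with i2 | i2
        · left
          have := h7 h
          push_cast
          linarith
        · right; linarith
      · right; linarith
  obtain ⟨-, h7⟩ := key n le_rfl
  have h8 := hM _ (hSn n _ (hγS s hs)) hs0
  rcases h7 with h7 | h7 <;> linarith

/-- cut-off functions at the corners -/
def om (n d : ℝ) : ℝ := max 0 (min 1 (2 - 2 * d / n))
def wp (n x y : ℝ) : ℝ := om n (max (π / 2 - x) (y + π / 2))
def wm (n x y : ℝ) : ℝ := om n (max (x + π / 2) (π / 2 - y))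
def wl (n x y : ℝ) : ℝ := om n (max (x + π / 2) (y + π / 2))
def wh (n x y : ℝ) : ℝ := om n (max (π / 2 - x) (π / 2 - y))
def ch (n x y : ℝ) : ℝ := (1 - wp n x y) * (1 - wm n x y) * ((1 - wl n x y) * (1 - wh n x y))

theorem om_mem (n d : ℝ) : 0 ≤ om n d ∧ om n d ≤ 1 := by
  unfold om
  exact ⟨le_max_left _ _, max_le zero_le_one (min_le_left _ _)⟩

theorem om_one {n d : ℝ} (hn : 0 < n) (hd : d ≤ n / 2) : om n d = 1 := by
  unfold om
  have : 1 ≤ 2 - 2 * d / n := by
    have : 2 * d / n ≤ 1 := by rw [div_le_one hn]; linarith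
    linarith
  rw [min_eq_left this, max_eq_right zero_le_one]

theorem om_zero {n d : ℝ} (hn : 0 < n) (hd : n ≤ d) : om n d = 0 := by
  unfold om
  have : 2 - 2 * d / n ≤ 0 := by
    have : 2 ≤ 2 * d / n := by rw [le_div_iff₀ hn]; linarith
    linarith
  rw [min_eq_right (by linarith), max_eq_left this]

theorem lt_of_om_pos {n d : ℝ} (hn : 0 < n) (h : 0 < om n d) : d < n := by
  by_contra hh
  push Not at hh
  rw [om_zero hn hh] at h
  exact lt_irrefl _ h

theorem ch_mem (n x y : ℝ) : 0 ≤ ch n x y ∧ ch n x y ≤ 1 := by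
  unfold ch wp wm wl wh
  obtain ⟨a1, a2⟩ := om_mem n (max (π / 2 - x) (y + π / 2))
  obtain ⟨b1, b2⟩ := om_mem n (max (x + π / 2) (π / 2 - y))
  obtain ⟨c1, c2⟩ := om_mem n (max (x + π / 2) (y + π / 2))
  obtain ⟨d1, d2⟩ := om_mem n (max (π / 2 - x) (π / 2 - y))
  constructor
  · apply mul_nonneg (mul_nonneg _ _) (mul_nonneg _ _) <;> linarith
  · apply mul_le_one₀ _ (mul_nonneg _ _) _
    · apply mul_le_one₀ <;> linarith
    · linarith
    · linarith
    · apply mul_le_one₀ <;> linarith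

/-- the four rates -/
def P1 (h : ℝ → ℝ) (θ n t x y : ℝ) : ℝ := ch n x y * max (F1 h θ t x y) 0 + wp n x y
def P2 (h : ℝ → ℝ) (θ n t x y : ℝ) : ℝ := ch n x y * max (-(F1 h θ t x y)) 0 + wm n x y
def P3 (h : ℝ → ℝ) (θ n t x y : ℝ) : ℝ := ch n x y * max (F2 h θ t x y) 0 + wm n x y
def P4 (h : ℝ → ℝ) (θ n t x y : ℝ) : ℝ := ch n x y * max (-(F2 h θ t x y)) 0 + wp n x y

def fb (h : ℝ → ℝ) (θ n t x y : ℝ) : ℝ :=
  (π / 2 - x) * P1 h θ n t x y - (π / 2 + x) * P2 h θ n t x y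
def fc (h : ℝ → ℝ) (θ n t x y : ℝ) : ℝ :=
  (π / 2 - y) * P3 h θ n t x y - (π / 2 + y) * P4 h θ n t x y
def fa (h : ℝ → ℝ) (θ n t x y : ℝ) : ℝ := F0 h θ t x y - X θ x y * fb h θ n t x y

theorem DV_f (h : ℝ → ℝ) (θ n t x y : ℝ) :
    DV h θ t x y (fa h θ n t x y) (fb h θ n t x y) (fc h θ n t x y) =
      F0 h θ t x y ^ 2 + F1 h θ t x y * fb h θ n t x y + F2 h θ t x y * fc h θ n t x y := by
  unfold DV fa; ring

variable {W : Type*} [TopologicalSpace W]

theorem cA_w {n : ℝ} {x y : W → ℝ} {w : W} (hx : ContinuousAt x w) (hy : ContinuousAt y w) :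
    ContinuousAt (fun w => wp n (x w) (y w)) w ∧ ContinuousAt (fun w => wm n (x w) (y w)) w ∧
    ContinuousAt (fun w => ch n (x w) (y w)) w := by
  unfold ch wp wm wl wh om
  refine ⟨by fun_prop, by fun_prop, by fun_prop⟩

theorem cA_f_reg {h : ℝ → ℝ} (hh : Continuous h) {θ n : ℝ} {t x y : W → ℝ} {w : W}
    (ht : ContinuousAt t w) (hx : ContinuousAt x w) (hy : ContinuousAt y w)
    (hu : 0 < √(1 - u θ (x w) (y w) ^ 2)) :
    ContinuousAt (fun w => fa h θ n (t w) (x w) (y w)) w ∧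
    ContinuousAt (fun w => fb h θ n (t w) (x w) (y w)) w ∧
    ContinuousAt (fun w => fc h θ n (t w) (x w) (y w)) w := by
  obtain ⟨f0, f1, f2⟩ := cA_F hh ht hx hy hu
  have hX := cA_X hx hy hu
  obtain ⟨w1, w2, w3⟩ := cA_w (n := n) hx hy
  unfold fa fb fc P1 P2 P3 P4
  refine ⟨by fun_prop, by fun_prop, by fun_prop⟩

/-- near a corner the field is simple -/
theorem cA_f_corner {h : ℝ → ℝ} (hh : Continuous h) {θ n : ℝ} (hn : 0 < n) (hn1 : n ≤ 1)
    {t x y : W → ℝ} {w : W}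
    (ht : ContinuousAt t w) (hx : ContinuousAt x w) (hy : ContinuousAt y w)
    (hxc : |x w| = π / 2) (hyc : |y w| = π / 2) :
    ContinuousAt (fun w => fa h θ n (t w) (x w) (y w)) w ∧
    ContinuousAt (fun w => fb h θ n (t w) (x w) (y w)) w ∧
    ContinuousAt (fun w => fc h θ n (t w) (x w) (y w)) w := by
  have hpi := pi_gt_three
  obtain ⟨w1, w2, w3⟩ := cA_w (n := n) hx hy
  have hx' := (abs_eq (by positivity)).1 hxc
  have hy' := (abs_eq (by positivity)).1 hyc
  -- `ch = 0` near the corner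
  have hch : ∀ᶠ z in 𝓝 w, ch n (x z) (y z) = 0 := by
    have ev : ∀ {a b : ℝ}, |x w - a| = 0 → |y w - b| = 0 →
        ∀ᶠ z in 𝓝 w, |x z - a| < n / 2 ∧ |y z - b| < n / 2 := by
      intro a b ha hb
      have k1 : ContinuousAt (fun z => |x z - a|) w := by fun_prop
      have k2 : ContinuousAt (fun z => |y z - b|) w := by fun_prop
      exact (k1.eventually_lt_const (by simp only [ha]; positivity)).and
        (k2.eventually_lt_const (by simp only [hb]; positivity))
    rcases hx' with hx' | hx' <;> rcases hy' with hy' | hy'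
    · filter_upwards [ev (a := π / 2) (b := π / 2) (by rw [hx']; simp) (by rw [hy']; simp)]
        with z hz
      have e1 := abs_lt.1 hz.1
      have e2 := abs_lt.1 hz.2
      have : wh n (x z) (y z) = 1 := om_one hn (max_le (by linarith) (by linarith))
      unfold ch; rw [this]; ring
    · filter_upwards [ev (a := π / 2) (b := -(π / 2)) (by rw [hx']; simp) (by rw [hy']; simp)]
        with z hz
      have e1 := abs_lt.1 hz.1
      have e2 := abs_lt.1 hz.2
      have : wp n (x z) (y z) = 1 := om_one hn (max_le (by linarith) (by linarith))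
      unfold ch; rw [this]; ring
    · filter_upwards [ev (a := -(π / 2)) (b := π / 2) (by rw [hx']; simp) (by rw [hy']; simp)]
        with z hz
      have e1 := abs_lt.1 hz.1
      have e2 := abs_lt.1 hz.2
      have : wm n (x z) (y z) = 1 := om_one hn (max_le (by linarith) (by linarith))
      unfold ch; rw [this]; ring
    · filter_upwards [ev (a := -(π / 2)) (b := -(π / 2)) (by rw [hx']; simp) (by rw [hy']; simp)]
        with z hz
      have e1 := abs_lt.1 hz.1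
      have e2 := abs_lt.1 hz.2
      have : wl n (x z) (y z) = 1 := om_one hn (max_le (by linarith) (by linarith))
      unfold ch; rw [this]; ring
  have hfb : (fun z => fb h θ n (t z) (x z) (y z)) =ᶠ[𝓝 w] fun z =>
      (π / 2 - x z) * wp n (x z) (y z) - (π / 2 + x z) * wm n (x z) (y z) := by
    filter_upwards [hch] with z hz
    unfold fb P1 P2; rw [hz]; ring
  have hfc : (fun z => fc h θ n (t z) (x z) (y z)) =ᶠ[𝓝 w] fun z =>
      (π / 2 - y z) * wm n (x z) (y z) - (π / 2 + y z) * wp n (x z) (y z) := by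
    filter_upwards [hch] with z hz
    unfold fc P3 P4; rw [hz]; ring
  have cb : ContinuousAt (fun w => fb h θ n (t w) (x w) (y w)) w :=
    ContinuousAt.congr (by fun_prop) hfb.symm
  have cc : ContinuousAt (fun w => fc h θ n (t w) (x w) (y w)) w :=
    ContinuousAt.congr (by fun_prop) hfc.symm
  have hb0 : fb h θ n (t w) (x w) (y w) = 0 := by
    rw [hfb.eq_of_nhds]
    rcases hx' with hx' | hx'
    · have : wm n (x w) (y w) = 0 :=
        om_zero hn ((show n ≤ x w + π / 2 by linarith).trans (le_max_left _ _))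
      rw [this, hx']; ring
    · have : wp n (x w) (y w) = 0 :=
        om_zero hn ((show n ≤ π / 2 - x w by linarith).trans (le_max_left _ _))
      rw [this, hx']; ring
  refine ⟨?_, cb, cc⟩
  have c0 : ContinuousAt (fun w => F0 h θ (t w) (x w) (y w)) w := by
    obtain ⟨a1, a2, a3, a4⟩ := cA_H (θ := θ) hh ht hx hy
    unfold F0; fun_prop
  have cXb : ContinuousAt (fun w => X θ (x w) (y w) * fb h θ n (t w) (x w) (y w)) w := by
    unfold ContinuousAt
    simp only [hb0, mul_zero]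
    apply squeeze_zero_norm' (a := fun w => |fb h θ n (t w) (x w) (y w)|)
    · filter_upwards with z
      rw [norm_eq_abs, abs_mul]
      calc |X θ (x z) (y z)| * |fb h θ n (t z) (x z) (y z)| ≤ 1 * |fb h θ n (t z) (x z) (y z)| := by
            gcongr; exact abs_X_le' _ _ _
        _ = _ := one_mul _
    · have := cb.abs
      unfold ContinuousAt at this
      simp only [hb0, abs_zero] at this
      exact this
  unfold fa
  exact c0.sub cXb

theorem cA_f {h : ℝ → ℝ} (hh : Continuous h) {θ n : ℝ} (hθ : θ ∈ Ioo 0 π) (hn : 0 < n)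
    (hn1 : n ≤ 1) {t x y : W → ℝ} {w : W}
    (ht : ContinuousAt t w) (hx : ContinuousAt x w) (hy : ContinuousAt y w)
    (hxc : x w ∈ Icc (-(π / 2)) (π / 2)) (hyc : y w ∈ Icc (-(π / 2)) (π / 2)) :
    ContinuousAt (fun w => fa h θ n (t w) (x w) (y w)) w ∧
    ContinuousAt (fun w => fb h θ n (t w) (x w) (y w)) w ∧
    ContinuousAt (fun w => fc h θ n (t w) (x w) (y w)) w := by
  by_cases hc : |x w| = π / 2 ∧ |y w| = π / 2
  · exact cA_f_corner hh hn hn1 ht hx hy hc.1 hc.2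
  · exact cA_f_reg hh ht hx hy (sqrt_pos_closed hθ hxc hyc hc)

/-- cut-off in the values -/
def gv (μ v z : ℝ) : ℝ := max 0 (min 1 ((v - z) / (v - μ)))

theorem gv_mem (μ v z : ℝ) : 0 ≤ gv μ v z ∧ gv μ v z ≤ 1 := by
  unfold gv
  exact ⟨le_max_left _ _, max_le zero_le_one (min_le_left _ _)⟩

theorem gv_one {μ v z : ℝ} (h : μ < v) (hz : z ≤ μ) : gv μ v z = 1 := by
  unfold gv
  have : 1 ≤ (v - z) / (v - μ) := by
    rw [le_div_iff₀ (by linarith)]; linarith
  rw [min_eq_left this, max_eq_right zero_le_one]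

theorem gv_zero {μ v z : ℝ} (h : μ < v) (hz : v ≤ z) : gv μ v z = 0 := by
  unfold gv
  have : (v - z) / (v - μ) ≤ 0 := div_nonpos_of_nonpos_of_nonneg (by linarith) (by linarith)
  rw [min_eq_right (by linarith), max_eq_left this]

def Tn (h A : ℝ → ℝ) (θ n τ μ v : ℝ) (p : ℝ × ℝ × ℝ) : ℝ × ℝ × ℝ :=
  (p.1 + τ * gv μ v (Vin A θ p.1 (clp (π / 2) p.2.1) (clp (π / 2) p.2.2)) *
      fa h θ n p.1 (clp (π / 2) p.2.1) (clp (π / 2) p.2.2),
    clp (π / 2) p.2.1 + τ * gv μ v (Vin A θ p.1 (clp (π / 2) p.2.1) (clp (π / 2) p.2.2)) *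
      fb h θ n p.1 (clp (π / 2) p.2.1) (clp (π / 2) p.2.2),
    clp (π / 2) p.2.2 + τ * gv μ v (Vin A θ p.1 (clp (π / 2) p.2.1) (clp (π / 2) p.2.2)) *
      fc h θ n p.1 (clp (π / 2) p.2.1) (clp (π / 2) p.2.2))

theorem continuous_Tn {h A : ℝ → ℝ} {T : ℝ} (hA : Dat h A T) {θ n : ℝ} (hθ : θ ∈ Ioo 0 π)
    (hn : 0 < n) (hn1 : n ≤ 1) (τ μ v : ℝ) : Continuous (Tn h A θ n τ μ v) := by
  have hpi : 0 < π / 2 := by positivity
  rw [continuous_iff_continuousAt]
  intro p
  have hc := continuous_clp (π / 2)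
  have b1 : Continuous fun p : ℝ × ℝ × ℝ => clp (π / 2) p.2.1 := by fun_prop
  have b2 : Continuous fun p : ℝ × ℝ × ℝ => clp (π / 2) p.2.2 := by fun_prop
  obtain ⟨a1, a2, a3⟩ := cA_f (n := n) hA.cont hθ hn hn1 (t := fun p : ℝ × ℝ × ℝ => p.1)
    (x := fun p : ℝ × ℝ × ℝ => clp (π / 2) p.2.1) (y := fun p : ℝ × ℝ × ℝ => clp (π / 2) p.2.2)
    (w := p) (by fun_prop) b1.continuousAt b2.continuousAt (clp_mem hpi _) (clp_mem hpi _)
  have b3 : Continuous fun p : ℝ × ℝ × ℝ =>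
      gv μ v (Vin A θ p.1 (clp (π / 2) p.2.1) (clp (π / 2) p.2.2)) := by
    have h1 : Continuous fun p : ℝ × ℝ × ℝ =>
        Vin A θ p.1 (clp (π / 2) p.2.1) (clp (π / 2) p.2.2) :=
      (continuous_Vin hA.continuous θ).comp
        (f := fun p : ℝ × ℝ × ℝ => ((p.1, clp (π / 2) p.2.1, clp (π / 2) p.2.2) : ℝ × ℝ × ℝ))
        (by fun_prop)
    have h2 : Continuous (gv μ v) := by unfold gv; fun_prop
    exact h2.comp h1
  unfold Tn
  exact ((continuousAt_fst).add ((continuousAt_const.mul b3.continuousAt).mul a1)).prodMk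
    ((b1.continuousAt.add ((continuousAt_const.mul b3.continuousAt).mul a2)).prodMk
      (b2.continuousAt.add ((continuousAt_const.mul b3.continuousAt).mul a3)))

theorem f_per {h A : ℝ → ℝ} {T : ℝ} (hA : Dat h A T) (θ n t x y : ℝ) :
    fa h θ n (t + 4 * π) x y = fa h θ n t x y ∧ fb h θ n (t + 4 * π) x y = fb h θ n t x y ∧
      fc h θ n (t + 4 * π) x y = fc h θ n t x y := by
  obtain ⟨h0, h1, h2⟩ := F_per hA θ t x y
  unfold fa fb fc P1 P2 P3 P4
  simp only [h0, h1, h2, and_self]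

theorem Tn_per {h A : ℝ → ℝ} {T : ℝ} (hA : Dat h A T) (θ n τ μ v t x y : ℝ) :
    Tn h A θ n τ μ v (t + 4 * π, x, y) =
      ((Tn h A θ n τ μ v (t, x, y)).1 + 4 * π, (Tn h A θ n τ μ v (t, x, y)).2.1,
        (Tn h A θ n τ μ v (t, x, y)).2.2) := by
  obtain ⟨h0, h1, h2⟩ := f_per hA θ n t (clp (π / 2) x) (clp (π / 2) y)
  unfold Tn
  simp only [h0, h1, h2, Vin_per hA]
  congr 1; ring

theorem push_mem2 {e x Q1 Q2 s : ℝ} (hx : x ∈ Icc (-e) e) (h1 : 0 ≤ s * Q1) (h1' : s * Q1 ≤ 1)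
    (h2 : 0 ≤ s * Q2) (h2' : s * Q2 ≤ 1) :
    x + s * ((e - x) * Q1 - (e + x) * Q2) ∈ Icc (-e) e := by
  have a1 : 0 ≤ e - x := by linarith [hx.2]
  have a2 : 0 ≤ e + x := by linarith [hx.1]
  have b1 := mul_nonneg a1 h1
  have b2 := mul_nonneg a2 h2
  have b3 := mul_le_mul_of_nonneg_left h1' a1
  have b4 := mul_le_mul_of_nonneg_left h2' a2
  constructor <;> linarith

end

end Pool.Agent.Star77b
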