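import Pool.Agent.Work.MP_7ec17a_gt_S2.Rect

/-! The area functional on directions of rectangles, its derivatives and its critical points. -/

namespace Pool.Agent.Star77b

open Real

noncomputable section

/-- A primitive `A` of a positive continuous periodic function `h`. -/
structure Dat (h A : ℝ → ℝ) (T : ℝ) : Prop where
  cont : Continuous h
  pos : ∀ x, 0 < h x
  per : ∀ x, h (x + 2 * π) = h x
  der : ∀ x, HasDerivAt A (h x) x
  Aper : ∀ x, A (x + 2 * π) = A x + T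

def G (A : ℝ → ℝ) (θ t e e' P : ℝ) : ℝ :=
  A ((t + θ - P + e') / 2) + A ((t + θ - P - e') / 2) - A ((t + e) / 2) - A ((t - e) / 2)

def u (θ x y : ℝ) : ℝ := cos θ * (cos x * cos y) + sin x * sin y

def Pi (θ x y : ℝ) : ℝ := arccos (u θ x y)

def Vout (A : ℝ → ℝ) (θ t x y : ℝ) : ℝ := G A θ t x y (Pi θ x y)

def Vin (A : ℝ → ℝ) (θ t x y : ℝ) : ℝ := G A θ t (π + x) (π + y) (-(Pi θ x y))

/-- `∂Π/∂x` and `-∂Π/∂y`. -/
def X (θ x y : ℝ) : ℝ := (cos θ * (sin x * cos y) - cos x * sin y) / √(1 - u θ x y ^ 2)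

def Y (θ x y : ℝ) : ℝ := (sin x * cos y - cos θ * (cos x * sin y)) / √(1 - u θ x y ^ 2)

theorem der_G {h A : ℝ → ℝ} {T : ℝ} (hA : Dat h A T) (θ : ℝ) {t e e' P : ℝ → ℝ}
    {s t1 e1 e2 P1 : ℝ}
    (ht : HasDerivAt t t1 s) (he : HasDerivAt e e1 s) (he' : HasDerivAt e' e2 s)
    (hP : HasDerivAt P P1 s) :
    HasDerivAt (fun s => G A θ (t s) (e s) (e' s) (P s))
      (h ((t s + θ - P s + e' s) / 2) * ((t1 - P1 + e2) / 2) +
        h ((t s + θ - P s - e' s) / 2) * ((t1 - P1 - e2) / 2) -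
        h ((t s + e s) / 2) * ((t1 + e1) / 2) - h ((t s - e s) / 2) * ((t1 - e1) / 2)) s := by
  have a3 : HasDerivAt (fun s => (t s + θ - P s + e' s) / 2) ((t1 - P1 + e2) / 2) s :=
    (((ht.add_const θ).sub hP).add he').div_const 2
  have a4 : HasDerivAt (fun s => (t s + θ - P s - e' s) / 2) ((t1 - P1 - e2) / 2) s :=
    (((ht.add_const θ).sub hP).sub he').div_const 2
  have a1 : HasDerivAt (fun s => (t s + e s) / 2) ((t1 + e1) / 2) s :=
    (ht.add he).div_const 2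
  have a2 : HasDerivAt (fun s => (t s - e s) / 2) ((t1 - e1) / 2) s :=
    (ht.sub he).div_const 2
  exact ((((hA.der _).comp s a3).add ((hA.der _).comp s a4)).sub ((hA.der _).comp s a1)).sub
    ((hA.der _).comp s a2)

theorem der_Pi (θ : ℝ) {x y : ℝ → ℝ} {b c s : ℝ} (hx : HasDerivAt x b s)
    (hy : HasDerivAt y c s) (h1 : u θ (x s) (y s) ≠ -1) (h2 : u θ (x s) (y s) ≠ 1) :
    HasDerivAt (fun s => Pi θ (x s) (y s))
      (b * X θ (x s) (y s) - c * Y θ (x s) (y s)) s := by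
  have hu : HasDerivAt (fun s => u θ (x s) (y s))
      (cos θ * ((-sin (x s) * b) * cos (y s) + cos (x s) * (-sin (y s) * c)) +
        ((cos (x s) * b) * sin (y s) + sin (x s) * (cos (y s) * c))) s :=
    ((hx.cos.mul hy.cos).const_mul (cos θ)).add (hx.sin.mul hy.sin)
  have := (Real.hasDerivAt_arccos h1 h2).comp s hu
  refine this.congr_deriv ?_
  unfold X Y
  ring

/-- bounds for `u` -/
theorem u_lt {θ x y : ℝ} (hθ : cos θ < 1) (hx : 0 < cos x) (hy : 0 < cos y) :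
    u θ x y < cos (x - y) := by
  rw [cos_sub]; unfold u
  have : 0 < cos x * cos y := mul_pos hx hy
  nlinarith

theorem lt_u {θ x y : ℝ} (hθ : -1 < cos θ) (hx : 0 < cos x) (hy : 0 < cos y) :
    -cos (x + y) < u θ x y := by
  rw [cos_add]; unfold u
  have : 0 < cos x * cos y := mul_pos hx hy
  nlinarith

theorem u_lt_one {θ x y : ℝ} (hθ : cos θ < 1) (hx : 0 < cos x) (hy : 0 < cos y) :
    u θ x y < 1 := (u_lt hθ hx hy).trans_le (cos_le_one _)

theorem neg_one_lt_u {θ x y : ℝ} (hθ : -1 < cos θ) (hx : 0 < cos x) (hy : 0 < cos y) :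
    -1 < u θ x y := by
  have := lt_u hθ hx hy
  have := cos_le_one (x + y)
  linarith

theorem cos_Pi {θ x y : ℝ} (h1 : -1 ≤ u θ x y) (h2 : u θ x y ≤ 1) :
    cos (Pi θ x y) = u θ x y := cos_arccos h1 h2

theorem sin_Pi {θ x y : ℝ} : sin (Pi θ x y) = √(1 - u θ x y ^ 2) := sin_arccos _

theorem Pi_gt {θ x y : ℝ} (hθ : cos θ < 1) (hθ' : -1 < cos θ) (hx : x ∈ Set.Ioo (-(π / 2)) (π / 2))
    (hy : y ∈ Set.Ioo (-(π / 2)) (π / 2)) : |x - y| < Pi θ x y := by
  have hcx := cos_pos_of_mem_Ioo hx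
  have hcy := cos_pos_of_mem_Ioo hy
  have h1 := u_lt hθ hcx hcy
  have h2 := neg_one_lt_u hθ' hcx hcy
  have h3 : |x - y| ≤ π := by
    rw [abs_le]; constructor <;> linarith [hx.1, hx.2, hy.1, hy.2]
  have h4 : arccos (cos |x - y|) < arccos (u θ x y) := by
    rw [cos_abs]
    exact arccos_lt_arccos h2.le h1 (cos_le_one _)
  rwa [arccos_cos (abs_nonneg _) h3] at h4

theorem Pi_lt {θ x y : ℝ} (hθ : cos θ < 1) (hθ' : -1 < cos θ) (hx : x ∈ Set.Ioo (-(π / 2)) (π / 2))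
    (hy : y ∈ Set.Ioo (-(π / 2)) (π / 2)) : Pi θ x y < π - |x + y| := by
  have hcx := cos_pos_of_mem_Ioo hx
  have hcy := cos_pos_of_mem_Ioo hy
  have h1 := lt_u hθ' hcx hcy
  have h2 := u_lt_one hθ hcx hcy
  have h3 : |x + y| ≤ π := by
    rw [abs_le]; constructor <;> linarith [hx.1, hx.2, hy.1, hy.2]
  have h4 : arccos (u θ x y) < arccos (cos (π - |x + y|)) := by
    rw [cos_pi_sub, cos_abs]
    refine arccos_lt_arccos ?_ h1 h2.le
    have := cos_le_one (x + y)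
    linarith
  rwa [arccos_cos (by linarith) (by linarith [abs_nonneg (x + y)])] at h4

/-- The rectangle given by four directions and four positive numbers. -/
def IsRect (ρ : ℝ → ℝ) (θ : ℝ) : Prop :=
  ∃ α1 α2 α3 α4 : ℝ, (ρ α1 : ℂ) * Complex.exp (α1 * Complex.I) ≠ ρ α2 * Complex.exp (α2 * Complex.I) ∧
    (ρ α3 : ℂ) * Complex.exp (α3 * Complex.I) = Complex.exp ((θ / 2 : ℝ) * Complex.I) *
        ((cos (θ / 2) : ℝ) * (ρ α1 * Complex.exp (α1 * Complex.I)) -
          Complex.I * (sin (θ / 2) : ℝ) * (ρ α2 * Complex.exp (α2 * Complex.I))) ∧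
    (ρ α4 : ℂ) * Complex.exp (α4 * Complex.I) = Complex.exp ((θ / 2 : ℝ) * Complex.I) *
        ((cos (θ / 2) : ℝ) * (ρ α2 * Complex.exp (α2 * Complex.I)) -
          Complex.I * (sin (θ / 2) : ℝ) * (ρ α1 * Complex.exp (α1 * Complex.I)))

/-- Both vertices. -/
theorem isRect_of {ρ : ℝ → ℝ} {θ t e e' P : ℝ} (hρ : ∀ x, 0 < ρ x)
    (hc : 0 < cos (θ / 2)) (hs : 0 < sin (θ / 2))
    (hP : cos P = cos θ * (cos e * cos e') + sin e * sin e')
    (hS1 : 0 < sin ((P - e + e') / 2) * sin P) (hS2 : 0 < sin ((P + e - e') / 2) * sin P)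
    (hC1 : 0 < cos ((P - e - e') / 2) * sin P) (hC2 : 0 < cos ((P + e + e') / 2) * sin P)
    (hce : 0 < cos e * sin P) (hce' : 0 < cos e' * sin P)
    (hne : (ρ ((t + e) / 2) : ℂ) * Complex.exp (((t + e) / 2 : ℝ) * Complex.I) ≠
      ρ ((t - e) / 2) * Complex.exp (((t - e) / 2 : ℝ) * Complex.I))
    (hH : ρ ((t + e) / 2) ^ 2 + ρ ((t - e) / 2) ^ 2 =
      ρ ((t + θ - P + e') / 2) ^ 2 + ρ ((t + θ - P - e') / 2) ^ 2)
    (h12 : ρ ((t + e) / 2) ^ 2 * (sin P + (cos θ * (sin e * cos e') - cos e * sin e')) =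
      ρ ((t - e) / 2) ^ 2 * (sin P - (cos θ * (sin e * cos e') - cos e * sin e')))
    (h34 : ρ ((t + θ - P + e') / 2) ^ 2 *
        (sin P - (cos θ * (cos e * sin e') - sin e * cos e')) =
      ρ ((t + θ - P - e') / 2) ^ 2 *
        (sin P + (cos θ * (cos e * sin e') - sin e * cos e'))) :
    IsRect ρ θ := by
  refine ⟨(t + e) / 2, (t - e) / 2, (t + θ - P + e') / 2, (t + θ - P - e') / 2, hne, ?_, ?_⟩
  · exact vertex hc hs hP (hρ _) (hρ _) (hρ _) (hρ _) hS1 hS2 hC1 hC2 hce hce' hH h12 h34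
  · have := vertex (θ := θ) (t := t) (e := -e) (e' := -e') (P := P) (r1 := ρ ((t - e) / 2))
      (r2 := ρ ((t + e) / 2)) (r3 := ρ ((t + θ - P - e') / 2))
      (r4 := ρ ((t + θ - P + e') / 2)) hc hs (by rw [cos_neg, cos_neg, sin_neg, sin_neg, hP]; ring)
      (hρ _) (hρ _) (hρ _) (hρ _)
      (by have : (P - -e + -e') / 2 = (P + e - e') / 2 := by ring
          rw [this]; exact hS2)
      (by have : (P + -e - -e') / 2 = (P - e + e') / 2 := by ring
          rw [this]; exact hS1)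
      (by have : (P - -e - -e') / 2 = (P + e + e') / 2 := by ring
          rw [this]; exact hC2)
      (by have : (P + -e + -e') / 2 = (P - e - e') / 2 := by ring
          rw [this]; exact hC1)
      (by rw [cos_neg]; exact hce) (by rw [cos_neg]; exact hce') (by linarith)
      (by rw [sin_neg, cos_neg, cos_neg, sin_neg]; linear_combination (-1 : ℝ) * h12)
      (by rw [sin_neg, cos_neg, cos_neg, sin_neg]; linear_combination (-1 : ℝ) * h34)
    have e1 : (t + θ - P + -e') / 2 = (t + θ - P - e') / 2 := by ring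
    have e2 : (t + -e) / 2 = (t - e) / 2 := by ring
    have e3 : (t - -e) / 2 = (t + e) / 2 := by ring
    rw [e1, e2, e3] at this
    exact this

def H1 (h : ℝ → ℝ) (t x : ℝ) : ℝ := h ((t + (π + x)) / 2)
def H2 (h : ℝ → ℝ) (t x : ℝ) : ℝ := h ((t - (π + x)) / 2)
def H3 (h : ℝ → ℝ) (θ t x y : ℝ) : ℝ := h ((t + θ - -(Pi θ x y) + (π + y)) / 2)
def H4 (h : ℝ → ℝ) (θ t x y : ℝ) : ℝ := h ((t + θ - -(Pi θ x y) - (π + y)) / 2)

def F0 (h : ℝ → ℝ) (θ t x y : ℝ) : ℝ := (H3 h θ t x y + H4 h θ t x y - H1 h t x - H2 h t x) / 2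
def F1 (h : ℝ → ℝ) (θ t x y : ℝ) : ℝ :=
  (H2 h t x * (1 + X θ x y) - H1 h t x * (1 - X θ x y)) / 2
def F2 (h : ℝ → ℝ) (θ t x y : ℝ) : ℝ :=
  (H3 h θ t x y * (1 - Y θ x y) - H4 h θ t x y * (1 + Y θ x y)) / 2

def DV (h : ℝ → ℝ) (θ t x y a b c : ℝ) : ℝ :=
  F0 h θ t x y * a + (F1 h θ t x y + X θ x y * F0 h θ t x y) * b + F2 h θ t x y * c

theorem der_Vin {h A : ℝ → ℝ} {T : ℝ} (hA : Dat h A T) (θ t x y a b c s : ℝ)
    (h1 : u θ (x + s * b) (y + s * c) ≠ -1) (h2 : u θ (x + s * b) (y + s * c) ≠ 1) :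
    HasDerivAt (fun s => Vin A θ (t + s * a) (x + s * b) (y + s * c))
      (DV h θ (t + s * a) (x + s * b) (y + s * c) a b c) s := by
  have lin : ∀ z w : ℝ, HasDerivAt (fun s : ℝ => z + s * w) w s := by
    intro z w
    simpa using ((hasDerivAt_id s).mul_const w).const_add z
  have hP := (der_Pi θ (lin x b) (lin y c) h1 h2).neg
  have := der_G hA θ (lin t a) ((lin x b).const_add π) ((lin y c).const_add π) hP
  refine this.congr_deriv ?_
  unfold DV F0 F1 F2 H1 H2 H3 H4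
  simp only [Pi.neg_apply]
  ring

theorem crit_in {ρ : ℝ → ℝ} (hρ : ∀ x, 0 < ρ x) {θ t x y : ℝ} (hθ : θ ∈ Set.Ioo 0 π)
    (hx : x ∈ Set.Ioo (-(π / 2)) (π / 2)) (hy : y ∈ Set.Ioo (-(π / 2)) (π / 2))
    (h0 : F0 (fun x => ρ x ^ 2 / 2) θ t x y = 0) (h1 : F1 (fun x => ρ x ^ 2 / 2) θ t x y = 0)
    (h2 : F2 (fun x => ρ x ^ 2 / 2) θ t x y = 0) : IsRect ρ θ := by
  have hpi := pi_pos
  have hcx := cos_pos_of_mem_Ioo hx
  have hcy := cos_pos_of_mem_Ioo hy
  have hθ1 : cos θ < 1 := by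
    rw [← cos_zero]
    exact cos_lt_cos_of_nonneg_of_le_pi le_rfl hθ.2.le hθ.1
  have hθ2 : -1 < cos θ := by
    rw [← cos_pi]
    exact cos_lt_cos_of_nonneg_of_le_pi hθ.1.le le_rfl hθ.2
  have u1 := u_lt_one hθ1 hcx hcy
  have u2 := neg_one_lt_u hθ2 hcx hcy
  have b1 := Pi_gt hθ1 hθ2 hx hy
  have b2 := Pi_lt hθ1 hθ2 hx hy
  have b1a := (abs_lt.1 b1).1
  have b1b := (abs_lt.1 b1).2
  have b2a : x + y < π - Pi θ x y := by linarith [le_abs_self (x + y)]
  have b2b : -(x + y) < π - Pi θ x y := by linarith [neg_abs_le (x + y)]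
  have hsq : 0 < √(1 - u θ x y ^ 2) := by
    apply sqrt_pos.2; nlinarith
  have hPp : 0 < Pi θ x y := lt_of_le_of_lt (abs_nonneg _) b1
  have hPs : sin (-(Pi θ x y)) = -√(1 - u θ x y ^ 2) := by rw [sin_neg, sin_Pi]
  set P := Pi θ x y with hPdef
  set q := √(1 - u θ x y ^ 2) with hq
  have X1 : X θ x y * q = cos θ * (sin x * cos y) - cos x * sin y := by
    unfold X; rw [div_mul_cancel₀]; exact hsq.ne'
  have Y1 : Y θ x y * q = sin x * cos y - cos θ * (cos x * sin y) := by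
    unfold Y; rw [div_mul_cancel₀]; exact hsq.ne'
  have sx : sin (π + x) = -sin x := by rw [add_comm, sin_add_pi]
  have cx : cos (π + x) = -cos x := by rw [add_comm, cos_add_pi]
  have sy : sin (π + y) = -sin y := by rw [add_comm, sin_add_pi]
  have cy : cos (π + y) = -cos y := by rw [add_comm, cos_add_pi]
  have pos4 : ∀ z : ℝ, 0 < z → z < π → 0 < sin z := fun z h1 h2 => sin_pos_of_pos_of_lt_pi h1 h2
  refine isRect_of (t := t) (e := π + x) (e' := π + y) (P := -P) hρ ?_ ?_ ?_ ?_ ?_ ?_ ?_ ?_ ?_ ?_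
    ?_ ?_ ?_
  · exact cos_pos_of_mem_Ioo ⟨by linarith [hθ.1], by linarith [hθ.2]⟩
  · exact pos4 _ (by linarith [hθ.1]) (by linarith [hθ.2])
  · rw [cos_neg, cx, cy, sx, sy, hPdef, cos_Pi u2.le u1.le]; unfold u; ring
  · have : (-P - (π + x) + (π + y)) / 2 = -((P + x - y) / 2) := by ring
    rw [this, sin_neg, hPs, neg_mul_neg]
    exact mul_pos (pos4 _ (by linarith) (by linarith)) hsq
  · have : (-P + (π + x) - (π + y)) / 2 = -((P - x + y) / 2) := by ring
    rw [this, sin_neg, hPs, neg_mul_neg]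
    exact mul_pos (pos4 _ (by linarith) (by linarith)) hsq
  · have : (-P - (π + x) - (π + y)) / 2 = -((P + x + y) / 2 + π) := by ring
    rw [this, cos_neg, cos_add_pi, hPs, neg_mul_neg]
    exact mul_pos (cos_pos_of_mem_Ioo ⟨by linarith, by linarith⟩) hsq
  · have : (-P + (π + x) + (π + y)) / 2 = -((P - x - y) / 2) + π := by ring
    rw [this, cos_add_pi, cos_neg, hPs, neg_mul_neg]
    exact mul_pos (cos_pos_of_mem_Ioo ⟨by linarith, by linarith⟩) hsq
  · rw [cx, hPs, neg_mul_neg]; exact mul_pos hcx hsq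
  · rw [cy, hPs, neg_mul_neg]; exact mul_pos hcy hsq
  · intro hh
    have h3 : Complex.exp (((t + (π + x)) / 2 : ℝ) * Complex.I) =
        Complex.exp (((t - (π + x)) / 2 : ℝ) * Complex.I) *
          ((cos (π + x) : ℝ) + (sin (π + x) : ℝ) * Complex.I) := by
      rw [Complex.ofReal_cos, Complex.ofReal_sin, ← Complex.exp_mul_I, ← Complex.exp_add]
      congr 1; push_cast; ring
    rw [h3] at hh
    have h4 : (ρ ((t + (π + x)) / 2) : ℂ) * ((cos (π + x) : ℝ) + (sin (π + x) : ℝ) * Complex.I) =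
        ρ ((t - (π + x)) / 2) := by
      have h5 := Complex.exp_ne_zero (((t - (π + x)) / 2 : ℝ) * Complex.I)
      apply mul_left_cancel₀ h5
      linear_combination hh
    have h6 := congrArg Complex.re h4
    rw [Complex.re_ofReal_mul] at h6
    simp only [Complex.add_re, Complex.ofReal_re, Complex.mul_re, Complex.I_re, mul_zero,
      Complex.ofReal_im, Complex.I_im, mul_one, sub_self, add_zero] at h6
    rw [cx] at h6
    have h7 := hρ ((t - (π + x)) / 2)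
    have h8 := mul_pos (hρ ((t + (π + x)) / 2)) hcx
    linarith
  · unfold F0 H1 H2 H3 H4 at h0
    simp only [← hPdef] at h0
    linarith
  · rw [hPs, sx, cx, sy, cy]
    unfold F1 H1 H2 at h1
    linear_combination (4 * q) * h1 - (ρ ((t + (π + x)) / 2) ^ 2 + ρ ((t - (π + x)) / 2) ^ 2) * X1
  · rw [hPs, sx, cx, sy, cy]
    unfold F2 H3 H4 at h2
    simp only [← hPdef] at h2
    linear_combination (-(4 * q)) * h2 - (ρ ((t + θ - -P + (π + y)) / 2) ^ 2 +
      ρ ((t + θ - -P - (π + y)) / 2) ^ 2) * Y1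

end

end Pool.Agent.Star77b
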