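import Pool.Agent.Work.MP_7ec17a_gt_S2.Main

/-! Star-shaped Jordan curves. -/

namespace Pool.Agent.Star77b

open Real Set Filter Topology

noncomputable section

def AA (ρ : ℝ → ℝ) (x : ℝ) : ℝ := ∫ s in (0 : ℝ)..x, ρ s ^ 2 / 2

theorem dat_AA {ρ : ℝ → ℝ} (hc : Continuous ρ) (hpos : ∀ x, 0 < ρ x)
    (hper : ∀ x, ρ (x + 2 * π) = ρ x) :
    Dat (fun x => ρ x ^ 2 / 2) (AA ρ) (∫ s in (0 : ℝ)..(2 * π), ρ s ^ 2 / 2) where
  cont := by fun_prop
  pos := fun x => by have := hpos x; positivity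
  per := fun x => by simp only [hper]
  der := fun x => by
    have hcc : Continuous fun s => ρ s ^ 2 / 2 := by fun_prop
    exact (hcc.integral_hasStrictDerivAt 0 x).hasDerivAt
  Aper := fun x => by
    have hcc : Continuous fun s => ρ s ^ 2 / 2 := by fun_prop
    have hp : Function.Periodic (fun s => ρ s ^ 2 / 2) (2 * π) := fun s => by simp only [hper]
    have h1 := hp.intervalIntegral_add_eq 0 x
    rw [zero_add] at h1
    unfold AA
    rw [h1, intervalIntegral.integral_add_adjacent_intervals (hcc.intervalIntegrable _ _)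
      (hcc.intervalIntegrable _ _)]

theorem int_AA {ρ : ℝ → ℝ} (hc : Continuous ρ) (a b : ℝ) :
    ∫ s in a..b, ρ s ^ 2 = 2 * (AA ρ b - AA ρ a) := by
  have hcc : Continuous fun s => ρ s ^ 2 / 2 := by fun_prop
  unfold AA
  rw [intervalIntegral.integral_interval_sub_left (hcc.intervalIntegrable _ _)
    (hcc.intervalIntegrable _ _), ← intervalIntegral.integral_const_mul]
  congr 1
  funext s
  ring

theorem isRect_of_hyp {ρ : ℝ → ℝ} (hc : Continuous ρ) (hpos : ∀ x, 0 < ρ x)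
    (hper : ∀ x, ρ (x + 2 * π) = ρ x) {θ : ℝ} (hθ : θ ∈ Ioo 0 π)
    (H : ∀ x, ρ x ^ 2 + ρ (x + π / 2) ^ 2 = ρ (x + θ / 2) ^ 2 + ρ (x + θ / 2 - π / 2) ^ 2 →
      tan (θ / 2) * (ρ x * ρ (x + θ / 2)) ≤ ρ (x + π / 2) * ρ (x + θ / 2) +
        ρ x * ρ (x + θ / 2 - π / 2) + tan (θ / 2) * (ρ (x + π / 2) * ρ (x + θ / 2 - π / 2)) ∨
      ∀ y, (∫ s in (x + θ / 2 - π / 2)..x, ρ s ^ 2) + (∫ s in (x + θ / 2)..(x + π / 2), ρ s ^ 2) +
        2 * (∫ s in y..(y + θ), ρ s ^ 2) < ∫ s in (0 : ℝ)..(2 * π), ρ s ^ 2) :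
    IsRect ρ θ := by
  by_contra hno
  have hpi := pi_pos
  have hA := dat_AA hc hpos hper
  set T := ∫ s in (0 : ℝ)..(2 * π), ρ s ^ 2 / 2 with hT
  have hA0 : AA ρ 0 = 0 := by unfold AA; simp
  have hA2 : AA ρ (2 * π) = T := by unfold AA; rfl
  -- the largest sector
  obtain ⟨y0, hy0⟩ : ∃ y0, ∀ y, AA ρ (y + θ) - AA ρ y ≤ AA ρ (y0 + θ) - AA ρ y0 := by
    have hcont : Continuous fun y => AA ρ (y + θ) - AA ρ y := by
      have := hA.continuous
      fun_prop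
    have hper' : Function.Periodic (fun y => AA ρ (y + θ) - AA ρ y) (2 * π) := by
      intro y
      simp only
      have e : y + 2 * π + θ = (y + θ) + 2 * π := by ring
      rw [e, hA.Aper, hA.Aper]; ring
    obtain ⟨y0, -, hmax⟩ := (isCompact_Icc (a := (0 : ℝ)) (b := 2 * π)).exists_isMaxOn
      ⟨0, le_rfl, by positivity⟩ hcont.continuousOn
    refine ⟨y0, fun y => ?_⟩
    obtain ⟨y', hy', he⟩ := hper'.exists_mem_Ico₀ (by positivity) y
    rw [he]
    exact isMaxOn_iff.1 hmax y' ⟨hy'.1, hy'.2.le⟩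
  set μ := 2 * (AA ρ (y0 + θ) - AA ρ y0) with hμ
  -- the diagonal
  have hdiag : ∀ t x, x ∈ Icc (-(π / 2)) (π / 2) → Vin (AA ρ) θ t x x ≤ μ := by
    intro t x _
    have hPle : Pi θ x x ≤ θ := by
      unfold Pi
      have h1 : cos θ ≤ u θ x x := by
        unfold u
        have i1 := sin_sq_add_cos_sq x
        have : cos θ * (cos x * cos x) + sin x * sin x - cos θ = (1 - cos θ) * sin x ^ 2 := by
          linear_combination cos θ * i1
        have h2 : 0 ≤ (1 - cos θ) * sin x ^ 2 :=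
          mul_nonneg (by linarith [cos_le_one θ]) (sq_nonneg _)
        linarith
      have h3 := arccos_le_arccos h1
      rwa [arccos_cos hθ.1.le hθ.2.le] at h3
    unfold Vin G
    have m1 := hA.mono.monotone (show (t + θ - -Pi θ x x + (π + x)) / 2 ≤
      (t + (π + x)) / 2 + θ by linarith)
    have m2 := hA.mono.monotone (show (t + θ - -Pi θ x x - (π + x)) / 2 ≤
      (t - (π + x)) / 2 + θ by linarith)
    have s1 := hy0 ((t + (π + x)) / 2)
    have s2 := hy0 ((t - (π + x)) / 2)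
    linarith
  -- identification at the high corner
  have hPi : Pi θ (π / 2) (-(π / 2)) = π := by
    rw [Pi_right ⟨le_rfl, by linarith⟩]; ring
  have hx1 : ∀ t : ℝ, (t + (π + π / 2)) / 2 = t / 2 + 3 * π / 4 := fun t => by ring
  have hx2 : ∀ t : ℝ, (t - (π + π / 2)) / 2 + 2 * π = t / 2 + 3 * π / 4 + π / 2 := fun t => by ring
  have hx3 : ∀ t : ℝ, (t + θ - -π + (π + -(π / 2))) / 2 = t / 2 + 3 * π / 4 + θ / 2 :=
    fun t => by ring
  have hx4 : ∀ t : ℝ, (t + θ - -π - (π + -(π / 2))) / 2 = t / 2 + 3 * π / 4 + θ / 2 - π / 2 :=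
    fun t => by ring
  have hH1 : ∀ t, H1 (fun x => ρ x ^ 2 / 2) t (π / 2) = ρ (t / 2 + 3 * π / 4) ^ 2 / 2 := by
    intro t; unfold H1; rw [hx1]
  have hH2 : ∀ t, H2 (fun x => ρ x ^ 2 / 2) t (π / 2) = ρ (t / 2 + 3 * π / 4 + π / 2) ^ 2 / 2 := by
    intro t; unfold H2; rw [← hx2, hper]
  have hH3 : ∀ t, H3 (fun x => ρ x ^ 2 / 2) θ t (π / 2) (-(π / 2)) =
      ρ (t / 2 + 3 * π / 4 + θ / 2) ^ 2 / 2 := by
    intro t; unfold H3; rw [hPi, hx3]
  have hH4 : ∀ t, H4 (fun x => ρ x ^ 2 / 2) θ t (π / 2) (-(π / 2)) =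
      ρ (t / 2 + 3 * π / 4 + θ / 2 - π / 2) ^ 2 / 2 := by
    intro t; unfold H4; rw [hPi, hx4]
  have hVG : ∀ t, Vin (AA ρ) θ t (π / 2) (-(π / 2)) = T -
      (AA ρ (t / 2 + 3 * π / 4) - AA ρ (t / 2 + 3 * π / 4 + θ / 2 - π / 2)) -
      (AA ρ (t / 2 + 3 * π / 4 + π / 2) - AA ρ (t / 2 + 3 * π / 4 + θ / 2)) := by
    intro t
    unfold Vin G
    rw [hPi, hx1, hx3, hx4]
    have := hA.Aper ((t - (π + π / 2)) / 2)
    rw [hx2] at this
    linarith
  -- the wedge expression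
  set Wx : ℝ → ℝ := fun t => ρ (t / 2 + 3 * π / 4 + π / 2) * ρ (t / 2 + 3 * π / 4 + θ / 2) +
    ρ (t / 2 + 3 * π / 4) * ρ (t / 2 + 3 * π / 4 + θ / 2 - π / 2) +
    tan (θ / 2) * (ρ (t / 2 + 3 * π / 4 + π / 2) * ρ (t / 2 + 3 * π / 4 + θ / 2 - π / 2)) -
    tan (θ / 2) * (ρ (t / 2 + 3 * π / 4) * ρ (t / 2 + 3 * π / 4 + θ / 2)) with hWx
  have hWc : Continuous Wx := by rw [hWx]; fun_prop
  have hbal' : ∀ t, F0 (fun x => ρ x ^ 2 / 2) θ t (π / 2) (-(π / 2)) = 0 →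
      ρ (t / 2 + 3 * π / 4) ^ 2 + ρ (t / 2 + 3 * π / 4 + π / 2) ^ 2 =
        ρ (t / 2 + 3 * π / 4 + θ / 2) ^ 2 + ρ (t / 2 + 3 * π / 4 + θ / 2 - π / 2) ^ 2 := by
    intro t ht
    unfold F0 at ht
    rw [hH1, hH2, hH3, hH4] at ht
    linarith
  -- bad times have high values
  have hbad : ∀ t, F0 (fun x => ρ x ^ 2 / 2) θ t (π / 2) (-(π / 2)) = 0 → Wx t ≤ 0 →
      μ < Vin (AA ρ) θ t (π / 2) (-(π / 2)) := by
    intro t ht hW
    rcases H _ (hbal' t ht) with h | h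
    · exfalso
      refine hno (wedge_rect hpos hθ (hbal' t ht) ?_)
      simp only [hWx] at hW
      linarith
    · have := h y0
      rw [int_AA hc, int_AA hc, int_AA hc, int_AA hc, hA0, hA2] at this
      rw [hVG, hμ]
      linarith
  -- the level
  obtain ⟨v, hμv, hv⟩ : ∃ v, μ < v ∧ ∀ t,
      F0 (fun x => ρ x ^ 2 / 2) θ t (π / 2) (-(π / 2)) = 0 →
      Vin (AA ρ) θ t (π / 2) (-(π / 2)) ≤ v → 0 < Wx t := by
    have cF : Continuous fun t => F0 (fun x => ρ x ^ 2 / 2) θ t (π / 2) (-(π / 2)) := by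
      unfold F0 H1 H2 H3 H4; fun_prop
    have cV : Continuous fun t => Vin (AA ρ) θ t (π / 2) (-(π / 2)) :=
      (continuous_Vin hA.continuous θ).comp
        (f := fun t : ℝ => ((t, π / 2, -(π / 2)) : ℝ × ℝ × ℝ)) (by fun_prop)
    set Bd : Set ℝ := Icc 0 (4 * π) ∩ ({t | F0 (fun x => ρ x ^ 2 / 2) θ t (π / 2) (-(π / 2)) = 0} ∩
      {t | Wx t ≤ 0}) with hBd
    have hBc : IsCompact Bd := isCompact_Icc.inter_right
      ((isClosed_eq cF continuous_const).inter (isClosed_le hWc continuous_const))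
    have hred : ∀ t, F0 (fun x => ρ x ^ 2 / 2) θ t (π / 2) (-(π / 2)) = 0 → Wx t ≤ 0 →
        ∃ t' ∈ Bd, Vin (AA ρ) θ t' (π / 2) (-(π / 2)) = Vin (AA ρ) θ t (π / 2) (-(π / 2)) := by
      intro t h1 h2
      have hp : Function.Periodic (fun t => ((F0 (fun x => ρ x ^ 2 / 2) θ t (π / 2) (-(π / 2)),
          Wx t, Vin (AA ρ) θ t (π / 2) (-(π / 2))) : ℝ × ℝ × ℝ)) (4 * π) := by
        intro t
        have e0 := (F_per hA θ t (π / 2) (-(π / 2))).1
        have e1 : (t + 4 * π) / 2 + 3 * π / 4 = (t / 2 + 3 * π / 4) + 2 * π := by ring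
        have e2 : t / 2 + 3 * π / 4 + 2 * π + π / 2 = (t / 2 + 3 * π / 4 + π / 2) + 2 * π := by ring
        have e3 : t / 2 + 3 * π / 4 + 2 * π + θ / 2 = (t / 2 + 3 * π / 4 + θ / 2) + 2 * π := by ring
        have e4 : t / 2 + 3 * π / 4 + θ / 2 + 2 * π - π / 2 =
          (t / 2 + 3 * π / 4 + θ / 2 - π / 2) + 2 * π := by ring
        simp only [hWx, e0, Vin_per hA, e1, e2, e3, e4, hper]
      obtain ⟨t', ht', he⟩ := hp.exists_mem_Ico₀ (by positivity) t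
      simp only [Prod.mk.injEq] at he
      obtain ⟨g1, g2, g3⟩ := he
      exact ⟨t', ⟨⟨ht'.1, ht'.2.le⟩, by rw [mem_ofPred_eq, ← g1]; exact h1,
        by rw [mem_ofPred_eq, ← g2]; exact h2⟩, g3.symm⟩
    rcases Bd.eq_empty_or_nonempty with hem | hne
    · refine ⟨μ + 1, by linarith, fun t h1 _ => ?_⟩
      by_contra hle
      push Not at hle
      obtain ⟨t', ht', -⟩ := hred t h1 hle
      rw [hem] at ht'
      exact absurd ht' (notMem_empty _)
    · obtain ⟨t1, ht1, hmin⟩ := hBc.exists_isMinOn hne cV.continuousOn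
      have hm := hbad t1 ht1.2.1 ht1.2.2
      refine ⟨(μ + Vin (AA ρ) θ t1 (π / 2) (-(π / 2))) / 2, by linarith, fun t h1 h2 => ?_⟩
      by_contra hle
      push Not at hle
      obtain ⟨t', ht', he⟩ := hred t h1 hle
      have := isMinOn_iff.1 hmin t' ht'
      rw [he] at this
      linarith
  refine hno (star_core2 hpos hA hθ hμv hdiag ?_)
  intro t ht hV φ hφ
  have hW := hv t ht hV
  rw [hH1, hH2, hH3, hH4]
  refine wedge_alg hθ (hpos _) (hpos _) (hpos _) (hpos _) (hbal' t ht) ?_ φ hφ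
  simp only [hWx] at hW
  linarith

end

end Pool.Agent.Star77b
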