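import Pool.Agent.Work.MP_7ec17a_gt_S2.NearC

/-! The wedge inequality at the high corners. -/

namespace Pool.Agent.Star77b

open Real Set Filter Topology

noncomputable section

/-- the wedge inequality in polar form -/
theorem wedge_iff {r1 r2 r3 r4 β R φ1 φ3 : ℝ} (_hR : 0 < R) (hβ : 0 < cos β)
    (h1 : r1 = R * cos φ1) (h2 : r2 = R * sin φ1) (h3 : r3 = R * cos φ3) (h4 : r4 = R * sin φ3) :
    cos β * (r2 * r3 + r1 * r4 + tan β * (r2 * r4) - tan β * (r1 * r3)) =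
      R ^ 2 * sin (φ1 + φ3 - β) := by
  have ht : cos β * tan β = sin β := by rw [tan_eq_sin_div_cos]; field_simp
  rw [h1, h2, h3, h4, sin_sub, sin_add, cos_add]
  linear_combination (R * sin φ1 * (R * sin φ3) - R * cos φ1 * (R * cos φ3)) * ht

theorem wedge_alg {r1 r2 r3 r4 θ : ℝ} (hθ : θ ∈ Ioo 0 π) (h1 : 0 < r1) (h2 : 0 < r2)
    (h3 : 0 < r3) (h4 : 0 < r4) (hb : r1 ^ 2 + r2 ^ 2 = r3 ^ 2 + r4 ^ 2)
    (hw : tan (θ / 2) * (r1 * r3) < r2 * r3 + r1 * r4 + tan (θ / 2) * (r2 * r4)) :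
    ∀ φ ∈ Icc 0 (π / 2), 0 < (r2 ^ 2 / 2 - r1 ^ 2 / 2) * cos φ +
      (r4 ^ 2 / 2 - r3 ^ 2 / 2) * sin φ +
      (r1 ^ 2 / 2 + r2 ^ 2 / 2) * √(1 + 2 * cos θ * (cos φ * sin φ)) := by
  intro φ hφ
  have hpi := pi_pos
  obtain ⟨φ1, p1, p2, p3, p4⟩ := polar h1 h2
  obtain ⟨φ3, q1, q2, q3, q4⟩ := polar h3 h4
  rw [← hb] at q3 q4
  have hD : 0 < r1 ^ 2 + r2 ^ 2 := by positivity
  have hR : 0 < √(r1 ^ 2 + r2 ^ 2) := sqrt_pos.2 hD
  have hRR := sq_sqrt hD.le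
  have hcβ : 0 < cos (θ / 2) := cos_pos_of_mem_Ioo ⟨by linarith [hθ.1], by linarith [hθ.2]⟩
  have hsum : θ / 2 < φ1 + φ3 := by
    have e := wedge_iff hR hcβ p3 p4 q3 q4
    have e2 : 0 < cos (θ / 2) * (r2 * r3 + r1 * r4 + tan (θ / 2) * (r2 * r4) -
        tan (θ / 2) * (r1 * r3)) := mul_pos hcβ (by linarith)
    rw [e] at e2
    have e3 : 0 < sin (φ1 + φ3 - θ / 2) := (mul_pos_iff_of_pos_left (by positivity)).1 e2
    by_contra hle
    push Not at hle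
    have : sin (φ1 + φ3 - θ / 2) ≤ 0 :=
      sin_nonpos_of_nonpos_of_neg_pi_le (by linarith) (by linarith [hθ.2])
    linarith
  obtain ⟨ψ, g1, g2⟩ : ∃ ψ, max 0 (θ - 2 * φ3) < ψ ∧ ψ < min θ (2 * φ1) := by
    apply exists_between
    rw [max_lt_iff, lt_min_iff, lt_min_iff]
    exact ⟨⟨hθ.1, by linarith⟩, ⟨by linarith, by linarith⟩⟩
  rw [max_lt_iff] at g1
  rw [lt_min_iff] at g2
  have c1 : cos (2 * φ1) < cos ψ := cos_lt_cos_of_nonneg_of_le_pi g1.1.le (by linarith) g2.2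
  have c2 : cos (2 * φ3) < cos (θ - ψ) :=
    cos_lt_cos_of_nonneg_of_le_pi (by linarith) (by linarith) (by linarith)
  have hc : 0 ≤ cos φ := cos_nonneg_of_mem_Icc ⟨by linarith [hφ.1], hφ.2⟩
  have hs : 0 ≤ sin φ := sin_nonneg_of_nonneg_of_le_pi hφ.1 (by linarith [hφ.2])
  have hcs := sin_sq_add_cos_sq φ
  have key : cos φ * cos ψ + sin φ * cos (θ - ψ) ≤ √(1 + 2 * cos θ * (cos φ * sin φ)) := by
    refine (le_abs_self _).trans (abs_le_sqrt ?_)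
    have i3 := sin_sq_add_cos_sq ψ
    have i4 := sin_sq_add_cos_sq (θ - ψ)
    have i5 : cos θ = cos (θ - ψ) * cos ψ - sin (θ - ψ) * sin ψ := by
      rw [← cos_add]; ring_nf
    have : 1 + 2 * cos θ * (cos φ * sin φ) - (cos φ * cos ψ + sin φ * cos (θ - ψ)) ^ 2 =
        (cos φ * sin ψ - sin φ * sin (θ - ψ)) ^ 2 := by
      rw [i5]
      have j3 : sin ψ ^ 2 = 1 - cos ψ ^ 2 := by linarith
      have j4 : sin (θ - ψ) ^ 2 = 1 - cos (θ - ψ) ^ 2 := by linarith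
      linear_combination (-1 : ℝ) * hcs - cos φ ^ 2 * j3 - sin φ ^ 2 * j4
    nlinarith [sq_nonneg (cos φ * sin ψ - sin φ * sin (θ - ψ))]
  have e1 : r2 ^ 2 / 2 - r1 ^ 2 / 2 = -((r1 ^ 2 + r2 ^ 2) / 2 * cos (2 * φ1)) := by
    have a1 : r1 ^ 2 = (r1 ^ 2 + r2 ^ 2) * cos φ1 ^ 2 := by
      conv_lhs => rw [p3]
      rw [mul_pow, hRR]
    have a2 : r2 ^ 2 = (r1 ^ 2 + r2 ^ 2) * sin φ1 ^ 2 := by
      conv_lhs => rw [p4]
      rw [mul_pow, hRR]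
    have i1 := sin_sq_add_cos_sq φ1
    rw [cos_two_mul]
    linear_combination (1 / 2 : ℝ) * a2 - (1 / 2 : ℝ) * a1 + (r1 ^ 2 + r2 ^ 2) / 2 * i1
  have e2 : r4 ^ 2 / 2 - r3 ^ 2 / 2 = -((r1 ^ 2 + r2 ^ 2) / 2 * cos (2 * φ3)) := by
    have a1 : r3 ^ 2 = (r1 ^ 2 + r2 ^ 2) * cos φ3 ^ 2 := by
      conv_lhs => rw [q3]
      rw [mul_pow, hRR]
    have a2 : r4 ^ 2 = (r1 ^ 2 + r2 ^ 2) * sin φ3 ^ 2 := by
      conv_lhs => rw [q4]
      rw [mul_pow, hRR]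
    have i1 := sin_sq_add_cos_sq φ3
    rw [cos_two_mul]
    linear_combination (1 / 2 : ℝ) * a2 - (1 / 2 : ℝ) * a1 + (r1 ^ 2 + r2 ^ 2) / 2 * i1
  rw [e1, e2]
  have e3 : -((r1 ^ 2 + r2 ^ 2) / 2 * cos (2 * φ1)) * cos φ +
      -((r1 ^ 2 + r2 ^ 2) / 2 * cos (2 * φ3)) * sin φ +
      (r1 ^ 2 / 2 + r2 ^ 2 / 2) * √(1 + 2 * cos θ * (cos φ * sin φ)) =
      (r1 ^ 2 + r2 ^ 2) / 2 * (√(1 + 2 * cos θ * (cos φ * sin φ)) -
        (cos φ * cos (2 * φ1) + sin φ * cos (2 * φ3))) := by ring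
  rw [e3]
  apply mul_pos (by positivity)
  have : cos φ * cos (2 * φ1) + sin φ * cos (2 * φ3) < cos φ * cos ψ + sin φ * cos (θ - ψ) := by
    have k1 : 0 ≤ cos φ * (cos ψ - cos (2 * φ1)) := mul_nonneg hc (by linarith)
    have k2 : 0 ≤ sin φ * (cos (θ - ψ) - cos (2 * φ3)) := mul_nonneg hs (by linarith)
    rcases hc.eq_or_lt with h | h
    · have : 0 < sin φ := by
        rcases hs.eq_or_lt with h' | h'
        · rw [← h, ← h'] at hcs; norm_num at hcs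
        · exact h'
      have : 0 < sin φ * (cos (θ - ψ) - cos (2 * φ3)) := mul_pos this (by linarith)
      linarith
    · have : 0 < cos φ * (cos ψ - cos (2 * φ1)) := mul_pos h (by linarith)
      linarith
  linarith

/-- equality in the wedge inequality -/
theorem wedge_rect {ρ : ℝ → ℝ} (hρ : ∀ x, 0 < ρ x) {θ x : ℝ} (hθ : θ ∈ Ioo 0 π)
    (hb : ρ x ^ 2 + ρ (x + π / 2) ^ 2 = ρ (x + θ / 2) ^ 2 + ρ (x + θ / 2 - π / 2) ^ 2)
    (hw : tan (θ / 2) * (ρ x * ρ (x + θ / 2)) = ρ (x + π / 2) * ρ (x + θ / 2) +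
      ρ x * ρ (x + θ / 2 - π / 2) + tan (θ / 2) * (ρ (x + π / 2) * ρ (x + θ / 2 - π / 2))) :
    IsRect ρ θ := by
  have hpi := pi_pos
  obtain ⟨φ1, p1, p2, p3, p4⟩ := polar (hρ x) (hρ (x + π / 2))
  obtain ⟨φ3, q1, q2, q3, q4⟩ := polar (hρ (x + θ / 2)) (hρ (x + θ / 2 - π / 2))
  rw [← hb] at q3 q4
  have hD : 0 < ρ x ^ 2 + ρ (x + π / 2) ^ 2 := by have := hρ x; positivity
  have hR : 0 < √(ρ x ^ 2 + ρ (x + π / 2) ^ 2) := sqrt_pos.2 hD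
  have hcβ : 0 < cos (θ / 2) := cos_pos_of_mem_Ioo ⟨by linarith [hθ.1], by linarith [hθ.2]⟩
  have hsum : φ1 = θ / 2 - φ3 := by
    have e := wedge_iff hR hcβ p3 p4 q3 q4
    rw [← hw] at e
    have e3 : sin (φ1 + φ3 - θ / 2) = 0 := by
      have : √(ρ x ^ 2 + ρ (x + π / 2) ^ 2) ^ 2 * sin (φ1 + φ3 - θ / 2) = 0 := by
        rw [← e]; ring
      exact (mul_eq_zero.1 this).resolve_left (by positivity)
    have := (sin_eq_zero_iff_of_lt_of_lt (by linarith [hθ.2]) (by linarith [hθ.1])).1 e3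
    linarith
  set R := √(ρ x ^ 2 + ρ (x + π / 2) ^ 2) with hRd
  subst hsum
  have hI : Complex.exp ((π / 2 : ℝ) * Complex.I) = Complex.I := by
    push_cast; exact Complex.exp_pi_div_two_mul_I
  have e1 : Complex.exp ((x + π / 2 : ℝ) * Complex.I) =
      Complex.exp ((x : ℝ) * Complex.I) * Complex.I := by
    rw [← hI, ← Complex.exp_add, hI]; congr 1; push_cast; ring
  have e3 : Complex.exp ((x + θ / 2 : ℝ) * Complex.I) =
      Complex.exp ((x : ℝ) * Complex.I) * Complex.exp ((θ / 2 : ℝ) * Complex.I) := by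
    rw [← Complex.exp_add]; congr 1; push_cast; ring
  have e4 : Complex.exp ((x + θ / 2 - π / 2 : ℝ) * Complex.I) * Complex.I =
      Complex.exp ((x : ℝ) * Complex.I) * Complex.exp ((θ / 2 : ℝ) * Complex.I) := by
    rw [← hI, ← Complex.exp_add, ← Complex.exp_add, hI]; congr 1; push_cast; ring
  have s1 : sin (θ / 2 - φ3) = sin (θ / 2) * cos φ3 - cos (θ / 2) * sin φ3 := sin_sub _ _
  have s2 : cos (θ / 2 - φ3) = cos (θ / 2) * cos φ3 + sin (θ / 2) * sin φ3 := cos_sub _ _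
  have i1 : (sin (θ / 2) : ℂ) ^ 2 + (cos (θ / 2) : ℂ) ^ 2 = 1 := by
    exact_mod_cast sin_sq_add_cos_sq (θ / 2)
  refine ⟨x, x + π / 2, x + θ / 2, x + θ / 2 - π / 2, ?_, ?_, ?_⟩
  · rw [e1]
    intro hh
    have h5 := Complex.exp_ne_zero ((x : ℝ) * Complex.I)
    have h6 : (ρ x : ℂ) = ρ (x + π / 2) * Complex.I := by
      apply mul_left_cancel₀ h5
      linear_combination hh
    have h7 := congrArg Complex.re h6
    simp at h7
    exact (hρ _).ne' h7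
  · rw [e1, e3]
    have g1 : (ρ x : ℂ) = R * ((cos (θ / 2) : ℝ) * (cos φ3 : ℝ) + (sin (θ / 2) : ℝ) * (sin φ3 : ℝ)) := by
      rw [p3, s2]; push_cast; ring
    have g2 : (ρ (x + π / 2) : ℂ) = R * ((sin (θ / 2) : ℝ) * (cos φ3 : ℝ) -
        (cos (θ / 2) : ℝ) * (sin φ3 : ℝ)) := by
      rw [p4, s1]; push_cast; ring
    have g3 : (ρ (x + θ / 2) : ℂ) = R * (cos φ3 : ℝ) := by rw [q3]; push_cast; ring
    rw [g1, g2, g3]
    linear_combination (-(R * (cos φ3 : ℝ) * Complex.exp ((x : ℝ) * Complex.I) *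
      Complex.exp ((θ / 2 : ℝ) * Complex.I)) : ℂ) * i1 +
      (Complex.exp ((θ / 2 : ℝ) * Complex.I) * Complex.exp ((x : ℝ) * Complex.I) *
        (sin (θ / 2) : ℝ) * R * ((sin (θ / 2) : ℝ) * (cos φ3 : ℝ) -
        (cos (θ / 2) : ℝ) * (sin φ3 : ℝ))) * Complex.I_sq
  · rw [e1]
    have g1 : (ρ x : ℂ) = R * ((cos (θ / 2) : ℝ) * (cos φ3 : ℝ) + (sin (θ / 2) : ℝ) * (sin φ3 : ℝ)) := by
      rw [p3, s2]; push_cast; ring
    have g2 : (ρ (x + π / 2) : ℂ) = R * ((sin (θ / 2) : ℝ) * (cos φ3 : ℝ) -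
        (cos (θ / 2) : ℝ) * (sin φ3 : ℝ)) := by
      rw [p4, s1]; push_cast; ring
    have g3 : (ρ (x + θ / 2 - π / 2) : ℂ) = R * (sin φ3 : ℝ) := by rw [q4]; push_cast; ring
    rw [g1, g2, g3]
    have e5 : Complex.exp ((x + θ / 2 - π / 2 : ℝ) * Complex.I) =
        -(Complex.exp ((x : ℝ) * Complex.I) * Complex.exp ((θ / 2 : ℝ) * Complex.I) * Complex.I) := by
      linear_combination (-Complex.I) * e4 + Complex.exp ((x + θ / 2 - π / 2 : ℝ) * Complex.I) *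
        Complex.I_sq
    rw [e5]
    linear_combination (R * (sin φ3 : ℝ) * Complex.exp ((x : ℝ) * Complex.I) *
      Complex.exp ((θ / 2 : ℝ) * Complex.I) * Complex.I : ℂ) * i1

end

end Pool.Agent.Star77b
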