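import Pool.Agent.Work.MP_7ec17a_gt_S2.Field
import Pool.Agent.Work.MP_7ec17a_gt_S2.Wedge

/-! The mountain pass. -/

namespace Pool.Agent.Star77b

open Real Set Filter Topology

noncomputable section

theorem Dat.bdd {h A : ℝ → ℝ} {T : ℝ} (hA : Dat h A T) : ∃ B > 0, ∀ x, h x ≤ B := by
  obtain ⟨x0, -, hmax⟩ := (isCompact_Icc (a := (0 : ℝ)) (b := 2 * π)).exists_isMaxOn
    ⟨0, le_rfl, by positivity⟩ hA.cont.continuousOn
  refine ⟨h x0, hA.pos x0, fun x => ?_⟩
  have hp : Function.Periodic h (2 * π) := hA.per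
  obtain ⟨y, hy, he⟩ := hp.exists_mem_Ico₀ (by positivity) x
  rw [he]
  exact isMaxOn_iff.1 hmax y ⟨hy.1, hy.2.le⟩

theorem F_bound {h : ℝ → ℝ} (hpos : ∀ x, 0 < h x) {B : ℝ} (hB : ∀ x, h x ≤ B) {θ t x y : ℝ}
    (hu : 0 < √(1 - u θ x y ^ 2)) : |F1 h θ t x y| ≤ B ∧ |F2 h θ t x y| ≤ B := by
  have hX := abs_le.1 (abs_X_le hu)
  have hY := abs_le.1 (abs_Y_le hu)
  have key : ∀ a b Z : ℝ, 0 < a → 0 < b → a ≤ B → b ≤ B → -1 ≤ Z → Z ≤ 1 →
      |(a * (1 + Z) - b * (1 - Z)) / 2| ≤ B := by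
    intro a b Z ha hb haB hbB h1 h2
    have e1 : a * (1 + Z) ≤ B * (1 + Z) := mul_le_mul_of_nonneg_right haB (by linarith)
    have e2 : b * (1 - Z) ≤ B * (1 - Z) := mul_le_mul_of_nonneg_right hbB (by linarith)
    have e3 : 0 ≤ a * (1 + Z) := mul_nonneg ha.le (by linarith)
    have e4 : 0 ≤ b * (1 - Z) := mul_nonneg hb.le (by linarith)
    have e5 : 0 ≤ B * (1 - Z) := mul_nonneg (ha.le.trans haB) (by linarith)
    have e6 : 0 ≤ B * (1 + Z) := mul_nonneg (ha.le.trans haB) (by linarith)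
    rw [abs_le]; constructor <;> linarith
  constructor
  · exact key _ _ _ (hpos _) (hpos _) (hB _) (hB _) hX.1 hX.2
  · have := key (H3 h θ t x y) (H4 h θ t x y) (-(Y θ x y)) (hpos _) (hpos _) (hB _) (hB _)
      (by linarith [hY.2]) (by linarith [hY.1])
    unfold F2
    have e1 : H3 h θ t x y * (1 - Y θ x y) - H4 h θ t x y * (1 + Y θ x y) =
      H3 h θ t x y * (1 + -(Y θ x y)) - H4 h θ t x y * (1 - -(Y θ x y)) := by ring
    rw [e1]; exact this

/-- bounds for the rates -/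
theorem P_bound {h : ℝ → ℝ} {B : ℝ} {θ n t x y : ℝ}
    (h1 : |F1 h θ t x y| ≤ B) (h2 : |F2 h θ t x y| ≤ B) :
    (0 ≤ P1 h θ n t x y ∧ P1 h θ n t x y ≤ B + 1) ∧ (0 ≤ P2 h θ n t x y ∧ P2 h θ n t x y ≤ B + 1) ∧
    (0 ≤ P3 h θ n t x y ∧ P3 h θ n t x y ≤ B + 1) ∧ (0 ≤ P4 h θ n t x y ∧ P4 h θ n t x y ≤ B + 1) := by
  obtain ⟨c1, c2⟩ := ch_mem n x y
  have w1 : 0 ≤ wp n x y ∧ wp n x y ≤ 1 := om_mem _ _
  have w2 : 0 ≤ wm n x y ∧ wm n x y ≤ 1 := om_mem _ _
  have key : ∀ F w : ℝ, |F| ≤ B → 0 ≤ w → w ≤ 1 → 0 ≤ ch n x y * max F 0 + w ∧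
      ch n x y * max F 0 + w ≤ B + 1 := by
    intro F w hF hw0 hw1
    have m1 : 0 ≤ max F 0 := le_max_right _ _
    have m2 : max F 0 ≤ B := max_le ((le_abs_self F).trans hF) ((abs_nonneg F).trans hF)
    have m3 : ch n x y * max F 0 ≤ 1 * B := mul_le_mul c2 m2 m1 zero_le_one
    constructor
    · positivity
    · linarith
  refine ⟨key _ _ h1 w1.1 w1.2, key _ _ (by rwa [abs_neg]) w2.1 w2.2, key _ _ h2 w2.1 w2.2,
    key _ _ (by rwa [abs_neg]) w1.1 w1.2⟩

/-- the sides -/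
theorem side_facts {h : ℝ → ℝ} (hpos : ∀ x, 0 < h x) (θ t : ℝ) {z : ℝ} (hz : z ∈ Ioo (-(π / 2)) (π / 2)) :
    F2 h θ t (π / 2) z < 0 ∧ 0 < F2 h θ t (-(π / 2)) z ∧
    F1 h θ t z (π / 2) < 0 ∧ 0 < F1 h θ t z (-(π / 2)) := by
  have hc := cos_pos_of_mem_Ioo hz
  have hs := sin_sq_add_cos_sq z
  have e1 : √(1 - sin z ^ 2) = cos z := by
    have : 1 - sin z ^ 2 = cos z ^ 2 := by linarith
    rw [this, sqrt_sq hc.le]
  have e2 : √(1 - (-sin z) ^ 2) = cos z := by rw [neg_sq, e1]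
  have y1 : Y θ (π / 2) z = 1 := by
    unfold Y u
    simp only [sin_pi_div_two, cos_pi_div_two, one_mul, zero_mul, mul_zero, sub_zero, zero_add]
    rw [e1, div_self hc.ne']
  have y2 : Y θ (-(π / 2)) z = -1 := by
    unfold Y u
    simp only [sin_neg, cos_neg, sin_pi_div_two, cos_pi_div_two, neg_mul, one_mul, zero_mul,
      mul_zero, sub_zero, zero_add]
    rw [e2, neg_div, div_self hc.ne']
  have x1 : X θ z (π / 2) = -1 := by
    unfold X u
    simp only [sin_pi_div_two, cos_pi_div_two, mul_one, mul_zero, zero_sub, zero_add]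
    rw [e1, neg_div, div_self hc.ne']
  have x2 : X θ z (-(π / 2)) = 1 := by
    unfold X u
    simp only [sin_neg, cos_neg, sin_pi_div_two, cos_pi_div_two, mul_neg, mul_one, mul_zero,
      zero_sub, zero_add, neg_neg]
    rw [e2, div_self hc.ne']
  refine ⟨?_, ?_, ?_, ?_⟩
  · have := hpos ((t + θ - -(Pi θ (π / 2) z) - (π + z)) / 2)
    unfold F2; rw [y1]
    have e : H4 h θ t (π / 2) z = h ((t + θ - -(Pi θ (π / 2) z) - (π + z)) / 2) := rfl
    rw [← e] at this; linarith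
  · have := hpos ((t + θ - -(Pi θ (-(π / 2)) z) + (π + z)) / 2)
    unfold F2; rw [y2]
    have e : H3 h θ t (-(π / 2)) z = h ((t + θ - -(Pi θ (-(π / 2)) z) + (π + z)) / 2) := rfl
    rw [← e] at this; linarith
  · have := hpos ((t + (π + z)) / 2)
    unfold F1; rw [x1]
    have e : H1 h t z = h ((t + (π + z)) / 2) := rfl
    rw [← e] at this; linarith
  · have := hpos ((t - (π + z)) / 2)
    unfold F1; rw [x2]
    have e : H2 h t z = h ((t - (π + z)) / 2) := rfl
    rw [← e] at this; linarith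

theorem mem_Ioo_of {z : ℝ} (hz : z ∈ Icc (-(π / 2)) (π / 2)) (h1 : z ≠ π / 2) (h2 : z ≠ -(π / 2)) :
    z ∈ Ioo (-(π / 2)) (π / 2) := ⟨lt_of_le_of_ne hz.1 (Ne.symm h2), lt_of_le_of_ne hz.2 h1⟩

theorem star_core2 {ρ A : ℝ → ℝ} {T : ℝ} (hρ : ∀ x, 0 < ρ x)
    (hA : Dat (fun x => ρ x ^ 2 / 2) A T) {θ : ℝ} (hθ : θ ∈ Ioo 0 π) {μ v : ℝ} (hμv : μ < v)
    (hdiag : ∀ t x, x ∈ Icc (-(π / 2)) (π / 2) → Vin A θ t x x ≤ μ)
    (hbal : ∀ t, F0 (fun x => ρ x ^ 2 / 2) θ t (π / 2) (-(π / 2)) = 0 →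
      Vin A θ t (π / 2) (-(π / 2)) ≤ v →
      ∀ φ ∈ Icc 0 (π / 2), 0 < (H2 (fun x => ρ x ^ 2 / 2) t (π / 2) -
        H1 (fun x => ρ x ^ 2 / 2) t (π / 2)) * cos φ +
      (H4 (fun x => ρ x ^ 2 / 2) θ t (π / 2) (-(π / 2)) -
        H3 (fun x => ρ x ^ 2 / 2) θ t (π / 2) (-(π / 2))) * sin φ +
      (H1 (fun x => ρ x ^ 2 / 2) t (π / 2) + H2 (fun x => ρ x ^ 2 / 2) t (π / 2)) *
        √(1 + 2 * cos θ * (cos φ * sin φ))) : IsRect ρ θ := by
  by_contra hno
  have hpi := pi_pos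
  have hpi3 := pi_gt_three
  set h : ℝ → ℝ := fun x => ρ x ^ 2 / 2 with hh
  have hpos : ∀ x, 0 < h x := hA.pos
  -- the best low corner
  obtain ⟨t0, ht0⟩ : ∃ t0, ∀ t, VH A θ t ≤ VH A θ t0 := by
    have hcont : Continuous fun t => VH A θ t := by
      have := hA.continuous
      unfold VH; fun_prop
    have hper : ∀ t, VH A θ (t + 4 * π) = VH A θ t := by
      intro t
      rw [← Vin_low, ← Vin_low, Vin_per hA]
    obtain ⟨t0, -, hmax⟩ := (isCompact_Icc (a := (0 : ℝ)) (b := 4 * π)).exists_isMaxOn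
      ⟨0, le_rfl, by positivity⟩ hcont.continuousOn
    refine ⟨t0, fun t => ?_⟩
    obtain ⟨t', ht', he⟩ := exists_period hper t
    rw [← he]
    exact isMaxOn_iff.1 hmax t' ht'
  obtain ⟨r', hr', hcor'⟩ := corner hρ hA hθ hno ht0
  obtain ⟨r, hr, hr1, hrr⟩ : ∃ r : ℝ, 0 < r ∧ r ≤ 1 ∧ r ≤ r' :=
    ⟨min r' 1, by positivity, min_le_right _ _, min_le_left _ _⟩
  obtain ⟨m, hm, hpath⟩ := path_low hA hr hr1 (fun a b ha hb har hbr hab =>
    hcor' a b ha hb (har.trans hrr) (hbr.trans hrr) hab)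
  have hdp := hpath.self_of_nhds
  obtain ⟨δ1, hδ1, hl1⟩ := low_near hA (θ := θ) (m := m) (c := -(π / 2))
    (fun t => by rw [Vin_low]; linarith [ht0 t])
  obtain ⟨δ2, hδ2, hl2⟩ := low_near hA (θ := θ) (m := m) (c := π / 2)
    (fun t => by rw [Vin_low' hA]; linarith [ht0 (t + 2 * π)])
  obtain ⟨η, hη, hnear⟩ := near_corner hA hθ hbal
  obtain ⟨n, hn, hn1, hnη, hnδ1, hnδ2⟩ : ∃ n : ℝ, 0 < n ∧ n ≤ 1 ∧ n ≤ η ∧ n ≤ δ1 ∧ n ≤ δ2 :=
    ⟨min (min 1 η) (min δ1 δ2), by positivity, (min_le_left _ _).trans (min_le_left _ _),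
      (min_le_left _ _).trans (min_le_right _ _), (min_le_right _ _).trans (min_le_left _ _),
      (min_le_right _ _).trans (min_le_right _ _)⟩
  -- points of high value are not near the low corners
  have hfar : ∀ {t x y : ℝ}, x ∈ Icc (-(π / 2)) (π / 2) → y ∈ Icc (-(π / 2)) (π / 2) →
      m ≤ Vin A θ t x y → n < max (x + π / 2) (y + π / 2) ∧ n < max (π / 2 - x) (π / 2 - y) := by
    intro t x y hx hy hVm
    constructor
    · by_contra hle
      push Not at hle
      have h1 := (le_max_left _ _).trans hle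
      have h2 := (le_max_right _ _).trans hle
      have := hl1 t x y (by rw [abs_le]; constructor <;> linarith [hx.1])
        (by rw [abs_le]; constructor <;> linarith [hy.1])
      linarith
    · by_contra hle
      push Not at hle
      have h1 := (le_max_left _ _).trans hle
      have h2 := (le_max_right _ _).trans hle
      have := hl2 t x y (by rw [abs_le]; constructor <;> linarith [hx.2])
        (by rw [abs_le]; constructor <;> linarith [hy.2])
      linarith
  -- not a corner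
  have hncor : ∀ {t x y : ℝ}, x ∈ Icc (-(π / 2)) (π / 2) → y ∈ Icc (-(π / 2)) (π / 2) →
      m ≤ Vin A θ t x y → ¬ (π / 2 - x < n / 2 ∧ y + π / 2 < n / 2) →
      ¬ (x + π / 2 < n / 2 ∧ π / 2 - y < n / 2) → ¬ (|x| = π / 2 ∧ |y| = π / 2) := by
    rintro t x y hx hy hVm hzp hzm ⟨h1, h2⟩
    obtain ⟨g1, g2⟩ := hfar hx hy hVm
    rcases (abs_eq (by positivity)).1 h1 with h1 | h1 <;>
      rcases (abs_eq (by positivity)).1 h2 with h2 | h2
    · rw [h1, h2] at g2; simp at g2; linarith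
    · exact hzp ⟨by rw [h1]; linarith, by rw [h2]; linarith⟩
    · exact hzm ⟨by rw [h1]; linarith, by rw [h2]; linarith⟩
    · rw [h1, h2] at g1; simp at g1; linarith
  -- positivity
  have hposDV : ∀ t x y : ℝ, x ∈ Icc (-(π / 2)) (π / 2) → y ∈ Icc (-(π / 2)) (π / 2) →
      m ≤ Vin A θ t x y → Vin A θ t x y ≤ v → ¬ (π / 2 - x < n / 2 ∧ y + π / 2 < n / 2) →
      ¬ (x + π / 2 < n / 2 ∧ π / 2 - y < n / 2) →
      0 < DV h θ t x y (fa h θ n t x y) (fb h θ n t x y) (fc h θ n t x y) := by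
    intro t x y hx hy hVm hVv hzp hzm
    rw [DV_f]
    obtain ⟨g1, g2⟩ := hfar hx hy hVm
    have hw1 : wl n x y = 0 := om_zero hn g1.le
    have hw2 : wh n x y = 0 := om_zero hn g2.le
    obtain ⟨c1, c2⟩ := ch_mem n x y
    have w1 : 0 ≤ wp n x y ∧ wp n x y ≤ 1 := om_mem _ _
    have w2 : 0 ≤ wm n x y ∧ wm n x y ≤ 1 := om_mem _ _
    obtain ⟨a1, a2⟩ := mul_push (F := F1 h θ t x y) (show 0 < π / 2 by positivity) hx
    obtain ⟨b1, b2⟩ := mul_push (F := F2 h θ t x y) (show 0 < π / 2 by positivity) hy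
    set S1 := F1 h θ t x y * ((π / 2 - x) * max (F1 h θ t x y) 0 -
      (π / 2 + x) * max (-(F1 h θ t x y)) 0) with hS1
    set S2 := F2 h θ t x y * ((π / 2 - y) * max (F2 h θ t x y) 0 -
      (π / 2 + y) * max (-(F2 h θ t x y)) 0) with hS2
    have hdec : F0 h θ t x y ^ 2 + F1 h θ t x y * fb h θ n t x y + F2 h θ t x y * fc h θ n t x y =
        F0 h θ t x y ^ 2 + ch n x y * (S1 + S2) +
        wp n x y * (F1 h θ t x y * (π / 2 - x) - F2 h θ t x y * (y + π / 2)) +
        wm n x y * (F2 h θ t x y * (π / 2 - y) - F1 h θ t x y * (x + π / 2)) := by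
      unfold fb fc P1 P2 P3 P4
      rw [hS1, hS2]; ring
    rw [hdec]
    have hchS : 0 ≤ ch n x y * (S1 + S2) := mul_nonneg c1 (by linarith)
    have hF0 : 0 ≤ F0 h θ t x y ^ 2 := sq_nonneg _
    rcases w1.1.eq_or_lt with hwp | hwp
    · rcases w2.1.eq_or_lt with hwm | hwm
      · -- the main region
        rw [← hwp, ← hwm, zero_mul, zero_mul, add_zero, add_zero]
        have hch : ch n x y = 1 := by
          unfold ch; rw [← hwp, ← hwm, hw1, hw2]; ring
        rw [hch, one_mul]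
        by_contra hle
        push Not at hle
        have z0 : F0 h θ t x y = 0 := by
          have : F0 h θ t x y ^ 2 = 0 := by linarith
          exact pow_eq_zero_iff (two_ne_zero) |>.1 this
        have z1 : S1 = 0 := by linarith
        have z2 : S2 = 0 := by linarith
        have hnc := hncor hx hy hVm hzp hzm
        by_cases hx1 : x = π / 2
        · have hy1 : y ∈ Ioo (-(π / 2)) (π / 2) := by
            apply mem_Ioo_of hy
            · intro hh; exact hnc ⟨by rw [hx1, abs_of_pos (by positivity)],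
                by rw [hh, abs_of_pos (by positivity)]⟩
            · intro hh; exact hnc ⟨by rw [hx1, abs_of_pos (by positivity)],
                by rw [hh, abs_neg, abs_of_pos (by positivity)]⟩
          have f := (side_facts hpos θ t hy1).1
          rw [← hx1] at f
          rcases b2 z2 with g | ⟨g, hye⟩ | ⟨g, hye⟩
          · linarith
          · linarith
          · exact absurd hye hy1.1.ne'
        by_cases hx2 : x = -(π / 2)
        · have hy1 : y ∈ Ioo (-(π / 2)) (π / 2) := by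
            apply mem_Ioo_of hy
            · intro hh; exact hnc ⟨by rw [hx2, abs_neg, abs_of_pos (by positivity)],
                by rw [hh, abs_of_pos (by positivity)]⟩
            · intro hh; exact hnc ⟨by rw [hx2, abs_neg, abs_of_pos (by positivity)],
                by rw [hh, abs_neg, abs_of_pos (by positivity)]⟩
          have f := (side_facts hpos θ t hy1).2.1
          rw [← hx2] at f
          rcases b2 z2 with g | ⟨g, hye⟩ | ⟨g, hye⟩
          · linarith
          · exact absurd hye hy1.2.ne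
          · linarith
        have hxI := mem_Ioo_of hx hx1 hx2
        have f1 : F1 h θ t x y = 0 := by
          rcases a2 z1 with g | ⟨g, hxe⟩ | ⟨g, hxe⟩
          · exact g
          · exact absurd hxe hx1
          · exact absurd hxe hx2
        by_cases hy1 : y = π / 2
        · have f := (side_facts hpos θ t hxI).2.2.1
          rw [← hy1] at f
          linarith
        by_cases hy2 : y = -(π / 2)
        · have f := (side_facts hpos θ t hxI).2.2.2
          rw [← hy2] at f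
          linarith
        have f2 : F2 h θ t x y = 0 := by
          rcases b2 z2 with g | ⟨g, hxe⟩ | ⟨g, hxe⟩
          · exact g
          · exact absurd hxe hy1
          · exact absurd hxe hy2
        exact hno (crit_in hρ hθ hxI (mem_Ioo_of hy hy1 hy2) z0 f1 f2)
      · -- near the corner (-π/2, π/2)
        rw [← hwp, zero_mul, add_zero]
        have hd := lt_of_om_pos hn hwm
        have hd1 := (le_max_left _ _).trans_lt hd
        have hd2 := (le_max_right _ _).trans_lt hd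
        obtain ⟨i0, i1, i2, i3⟩ := invol hA θ t x y
        have ex : -x = π / 2 - (x + π / 2) := by ring
        have ey : -y = -(π / 2) + (π / 2 - y) := by ring
        have hq := hnear (t + 2 * π) (x + π / 2) (π / 2 - y) (by linarith [hx.1])
          (by linarith [hy.2]) (by linarith) (by linarith) (by
            by_contra hle
            push Not at hle
            exact hzm ⟨by linarith [hx.1, hy.2], by linarith [hx.1, hy.2]⟩)
          (by rw [← ex, ← ey, i3]; exact hVv)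
        rw [← ex, ← ey, i0, i1, i2] at hq
        rcases le_or_gt (F2 h θ t x y * (π / 2 - y) - F1 h θ t x y * (x + π / 2)) 0 with hs | hs
        · have : 1 * (F2 h θ t x y * (π / 2 - y) - F1 h θ t x y * (x + π / 2)) ≤
              wm n x y * (F2 h θ t x y * (π / 2 - y) - F1 h θ t x y * (x + π / 2)) :=
            mul_le_mul_of_nonpos_right w2.2 hs
          linarith
        · have : 0 < wm n x y * (F2 h θ t x y * (π / 2 - y) - F1 h θ t x y * (x + π / 2)) :=
            mul_pos hwm hs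
          linarith
    · -- near the corner (π/2, -π/2)
      have hd := lt_of_om_pos hn hwp
      have hd1 := (le_max_left _ _).trans_lt hd
      have hd2 := (le_max_right _ _).trans_lt hd
      have hwm : wm n x y = 0 :=
        om_zero hn ((show n ≤ x + π / 2 by linarith).trans (le_max_left _ _))
      rw [hwm, zero_mul, add_zero]
      have ex : x = π / 2 - (π / 2 - x) := by ring
      have ey : y = -(π / 2) + (y + π / 2) := by ring
      have hq := hnear t (π / 2 - x) (y + π / 2) (by linarith [hx.2])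
        (by linarith [hy.1]) (by linarith) (by linarith) (by
          by_contra hle
          push Not at hle
          exact hzp ⟨by linarith [hx.2, hy.1], by linarith [hx.2, hy.1]⟩)
        (by rw [← ex, ← ey]; exact hVv)
      rw [← ex, ← ey] at hq
      rcases le_or_gt (F1 h θ t x y * (π / 2 - x) - F2 h θ t x y * (y + π / 2)) 0 with hs | hs
      · have : 1 * (F1 h θ t x y * (π / 2 - x) - F2 h θ t x y * (y + π / 2)) ≤
            wp n x y * (F1 h θ t x y * (π / 2 - x) - F2 h θ t x y * (y + π / 2)) :=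
          mul_le_mul_of_nonpos_right w1.2 hs
        linarith
      · have : 0 < wp n x y * (F1 h θ t x y * (π / 2 - x) - F2 h θ t x y * (y + π / 2)) :=
          mul_pos hwp hs
        linarith
  obtain ⟨B, hB0, hhB⟩ := hA.bdd
  set V : ℝ × ℝ × ℝ → ℝ := fun p => Vin A θ p.1 p.2.1 p.2.2 with hV
  have hVc : Continuous V := continuous_Vin hA.continuous θ
  set e : ℝ := π / 2 with hedef
  -- the compact set
  set Q : Set (ℝ × ℝ × ℝ) := (Icc (0 : ℝ) (4 * π) ×ˢ (Icc (-e) e ×ˢ Icc (-e) e)) ∩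
    ({p | m ≤ V p} ∩ ({p | V p ≤ v} ∩ ({p | ¬ (e - p.2.1 < n / 2 ∧ p.2.2 + e < n / 2)} ∩
      {p | ¬ (p.2.1 + e < n / 2 ∧ e - p.2.2 < n / 2)}))) with hQ
  have hQc : IsCompact Q := by
    refine (isCompact_Icc.prod (isCompact_Icc.prod isCompact_Icc)).inter_right ?_
    refine (isClosed_le continuous_const hVc).inter ((isClosed_le hVc continuous_const).inter
      (IsClosed.inter ?_ ?_))
    · have : {p : ℝ × ℝ × ℝ | ¬ (e - p.2.1 < n / 2 ∧ p.2.2 + e < n / 2)} =
          ({p : ℝ × ℝ × ℝ | e - p.2.1 < n / 2} ∩ {p : ℝ × ℝ × ℝ | p.2.2 + e < n / 2})ᶜ := by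
        ext p; simp
      rw [this]
      exact ((isOpen_lt (by fun_prop) continuous_const).inter
        (isOpen_lt (by fun_prop) continuous_const)).isClosed_compl
    · have : {p : ℝ × ℝ × ℝ | ¬ (p.2.1 + e < n / 2 ∧ e - p.2.2 < n / 2)} =
          ({p : ℝ × ℝ × ℝ | p.2.1 + e < n / 2} ∩ {p : ℝ × ℝ × ℝ | e - p.2.2 < n / 2})ᶜ := by
        ext p; simp
      rw [this]
      exact ((isOpen_lt (by fun_prop) continuous_const).inter
        (isOpen_lt (by fun_prop) continuous_const)).isClosed_compl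
  -- the time step
  obtain ⟨τ, hτ, hτB, hτΦ⟩ : ∃ τ : ℝ, 0 < τ ∧ τ * (π * (B + 1)) < n / 2 ∧
      ∀ s ∈ Icc 0 τ, ∀ p ∈ Q,
      0 < DV h θ (p.1 + s * fa h θ n p.1 p.2.1 p.2.2) (p.2.1 + s * fb h θ n p.1 p.2.1 p.2.2)
        (p.2.2 + s * fc h θ n p.1 p.2.1 p.2.2) (fa h θ n p.1 p.2.1 p.2.2)
        (fb h θ n p.1 p.2.1 p.2.2) (fc h θ n p.1 p.2.1 p.2.2) := by
    have hev : ∀ p ∈ Q, ∀ᶠ z : ℝ × (ℝ × ℝ × ℝ) in 𝓝 ((0 : ℝ), p),
        0 < DV h θ (z.2.1 + z.1 * fa h θ n z.2.1 z.2.2.1 z.2.2.2)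
          (z.2.2.1 + z.1 * fb h θ n z.2.1 z.2.2.1 z.2.2.2)
          (z.2.2.2 + z.1 * fc h θ n z.2.1 z.2.2.1 z.2.2.2)
          (fa h θ n z.2.1 z.2.2.1 z.2.2.2)
          (fb h θ n z.2.1 z.2.2.1 z.2.2.2) (fc h θ n z.2.1 z.2.2.1 z.2.2.2) := by
      rintro ⟨t, x, y⟩ ⟨⟨-, hx, hy⟩, hVm, hVv, hzp, hzm⟩
      simp only at hx hy
      have h0 := hposDV t x y hx hy hVm hVv hzp hzm
      have hsq := sqrt_pos_closed hθ hx hy (hncor hx hy hVm hzp hzm)
      obtain ⟨v1, v2, v3⟩ := cA_f_reg hA.cont (θ := θ) (n := n)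
        (t := fun z : ℝ × (ℝ × ℝ × ℝ) => z.2.1) (x := fun z : ℝ × (ℝ × ℝ × ℝ) => z.2.2.1)
        (y := fun z : ℝ × (ℝ × ℝ × ℝ) => z.2.2.2) (w := ((0 : ℝ), (t, x, y)))
        (by fun_prop) (by fun_prop) (by fun_prop) hsq
      have hc := cA_DV hA.cont (θ := θ)
        (t := fun z : ℝ × (ℝ × ℝ × ℝ) => z.2.1 + z.1 * fa h θ n z.2.1 z.2.2.1 z.2.2.2)
        (x := fun z : ℝ × (ℝ × ℝ × ℝ) => z.2.2.1 + z.1 * fb h θ n z.2.1 z.2.2.1 z.2.2.2)
        (y := fun z : ℝ × (ℝ × ℝ × ℝ) => z.2.2.2 + z.1 * fc h θ n z.2.1 z.2.2.1 z.2.2.2)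
        (a := fun z : ℝ × (ℝ × ℝ × ℝ) => fa h θ n z.2.1 z.2.2.1 z.2.2.2)
        (b := fun z : ℝ × (ℝ × ℝ × ℝ) => fb h θ n z.2.1 z.2.2.1 z.2.2.2)
        (c := fun z : ℝ × (ℝ × ℝ × ℝ) => fc h θ n z.2.1 z.2.2.1 z.2.2.2)
        (w := ((0 : ℝ), (t, x, y))) (by fun_prop) (by fun_prop) (by fun_prop) v1 v2 v3
        (by simpa using hsq)
      refine hc.eventually_const_lt ?_
      simpa using h0
    have hev2 := hQc.eventually_forall_of_forall_eventually
      (P := fun (s : ℝ) (p : ℝ × ℝ × ℝ) =>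
        0 < DV h θ (p.1 + s * fa h θ n p.1 p.2.1 p.2.2) (p.2.1 + s * fb h θ n p.1 p.2.1 p.2.2)
        (p.2.2 + s * fc h θ n p.1 p.2.1 p.2.2) (fa h θ n p.1 p.2.1 p.2.2)
        (fb h θ n p.1 p.2.1 p.2.2) (fc h θ n p.1 p.2.1 p.2.2)) hev
    rw [Metric.eventually_nhds_iff] at hev2
    obtain ⟨ε, hε, h3⟩ := hev2
    have hBB : 0 < π * (B + 1) := by positivity
    refine ⟨min (ε / 2) (n / 4 / (π * (B + 1))), by positivity, ?_,
      fun s hs p hp => h3 ?_ p hp⟩
    · calc min (ε / 2) (n / 4 / (π * (B + 1))) * (π * (B + 1))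
          ≤ n / 4 / (π * (B + 1)) * (π * (B + 1)) := by gcongr; exact min_le_right _ _
        _ = n / 4 := by field_simp
        _ < n / 2 := by linarith
    · rw [Real.dist_eq, sub_zero, abs_of_nonneg hs.1]
      have := hs.2.trans (min_le_left _ _)
      linarith
  have hτB1 : τ * (B + 1) ≤ 1 := by
    have : τ * (B + 1) * 3 ≤ τ * (B + 1) * π := by gcongr
    nlinarith
  -- bounds along the field
  have hPb : ∀ t x y s : ℝ, x ∈ Icc (-e) e → y ∈ Icc (-e) e → ¬ (|x| = π / 2 ∧ |y| = π / 2) →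
      s ∈ Icc 0 τ → (x + s * fb h θ n t x y ∈ Icc (-e) e ∧ y + s * fc h θ n t x y ∈ Icc (-e) e) ∧
      |s * fb h θ n t x y| < n / 2 ∧ |s * fc h θ n t x y| < n / 2 := by
    intro t x y s hx hy hc hs
    obtain ⟨hF1, hF2⟩ := F_bound (t := t) hpos hhB (sqrt_pos_closed hθ hx hy hc)
    obtain ⟨⟨p1, p1'⟩, ⟨p2, p2'⟩, ⟨p3, p3'⟩, ⟨p4, p4'⟩⟩ := P_bound (n := n) hF1 hF2
    have key : ∀ P, 0 ≤ P → P ≤ B + 1 → 0 ≤ s * P ∧ s * P ≤ 1 := by
      intro P h1 h2
      exact ⟨mul_nonneg hs.1 h1, (mul_le_mul hs.2 h2 h1 hτ.le).trans hτB1⟩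
    have key2 : ∀ z P P' : ℝ, z ∈ Icc (-e) e → 0 ≤ P → P ≤ B + 1 → 0 ≤ P' → P' ≤ B + 1 →
        |s * ((e - z) * P - (e + z) * P')| < n / 2 := by
      intro z P P' hz h1 h2 h3 h4
      have a1 : 0 ≤ e - z := by linarith [hz.2]
      have a2 : 0 ≤ e + z := by linarith [hz.1]
      have b1 : (e - z) * P ≤ π * (B + 1) :=
        mul_le_mul (by linarith [hz.1]) h2 h1 (by positivity)
      have b2 : (e + z) * P' ≤ π * (B + 1) :=
        mul_le_mul (by linarith [hz.2]) h4 h3 (by positivity)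
      have b3 := mul_nonneg a1 h1
      have b4 := mul_nonneg a2 h3
      rw [abs_mul, abs_of_nonneg hs.1]
      have b5 : |(e - z) * P - (e + z) * P'| ≤ π * (B + 1) := by
        rw [abs_le]; constructor <;> linarith
      calc s * |(e - z) * P - (e + z) * P'| ≤ τ * (π * (B + 1)) :=
            mul_le_mul hs.2 b5 (abs_nonneg _) hτ.le
        _ < n / 2 := hτB
    refine ⟨⟨push_mem2 hx (key _ p1 p1').1 (key _ p1 p1').2 (key _ p2 p2').1 (key _ p2 p2').2,
      push_mem2 hy (key _ p3 p3').1 (key _ p3 p3').2 (key _ p4 p4').1 (key _ p4 p4').2⟩,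
      key2 x _ _ hx p1 p1' p2 p2', key2 y _ _ hy p3 p3' p4 p4'⟩
  -- increase on `Q`
  have hinc : ∀ p ∈ Q, ∀ σ ∈ Icc 0 τ, V p ≤ Vin A θ (p.1 + σ * fa h θ n p.1 p.2.1 p.2.2)
      (p.2.1 + σ * fb h θ n p.1 p.2.1 p.2.2) (p.2.2 + σ * fc h θ n p.1 p.2.1 p.2.2) ∧
      (0 < σ → V p < Vin A θ (p.1 + σ * fa h θ n p.1 p.2.1 p.2.2)
      (p.2.1 + σ * fb h θ n p.1 p.2.1 p.2.2) (p.2.2 + σ * fc h θ n p.1 p.2.1 p.2.2)) := by
    rintro ⟨t, x, y⟩ hp σ hσ
    have hp' := hp
    obtain ⟨⟨-, hx, hy⟩, hVm, hVv, hzp, hzm⟩ := hp'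
    simp only at hx hy
    have hnc := hncor hx hy hVm hzp hzm
    obtain ⟨g1, g2⟩ := hfar hx hy hVm
    have hder : ∀ s ∈ Icc 0 τ, HasDerivAt
        (fun s => Vin A θ (t + s * fa h θ n t x y) (x + s * fb h θ n t x y)
          (y + s * fc h θ n t x y))
        (DV h θ (t + s * fa h θ n t x y) (x + s * fb h θ n t x y)
          (y + s * fc h θ n t x y) (fa h θ n t x y) (fb h θ n t x y) (fc h θ n t x y)) s := by
      intro s hs
      obtain ⟨⟨k1, k2⟩, k3, k4⟩ := hPb t x y s hx hy hnc hs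
      have k3' := abs_lt.1 k3
      have k4' := abs_lt.1 k4
      have hnc2 : ¬ (|x + s * fb h θ n t x y| = π / 2 ∧ |y + s * fc h θ n t x y| = π / 2) := by
        rintro ⟨q1, q2⟩
        rcases (abs_eq (by positivity)).1 q1 with q1 | q1 <;>
          rcases (abs_eq (by positivity)).1 q2 with q2 | q2
        · rcases lt_max_iff.1 g2 with g | g <;> linarith
        · exact hzp ⟨by linarith, by linarith⟩
        · exact hzm ⟨by linarith, by linarith⟩
        · rcases lt_max_iff.1 g1 with g | g <;> linarith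
      have k5 := sqrt_pos.1 (sqrt_pos_closed hθ k1 k2 hnc2)
      apply der_Vin hA
      · intro hu; rw [hu] at k5; norm_num at k5
      · intro hu; rw [hu] at k5; norm_num at k5
    have h5 : V (t, x, y) = Vin A θ (t + 0 * fa h θ n t x y)
        (x + 0 * fb h θ n t x y) (y + 0 * fc h θ n t x y) := by
      simp only [hV, zero_mul, add_zero]
    have hstrict : 0 < σ → V (t, x, y) < Vin A θ (t + σ * fa h θ n t x y)
        (x + σ * fb h θ n t x y) (y + σ * fc h θ n t x y) := by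
      intro hσ0
      obtain ⟨s, hs, hs2⟩ := exists_hasDerivAt_eq_slope
        (fun s => Vin A θ (t + s * fa h θ n t x y) (x + s * fb h θ n t x y)
            (y + s * fc h θ n t x y))
        (fun s => DV h θ (t + s * fa h θ n t x y) (x + s * fb h θ n t x y)
            (y + s * fc h θ n t x y) (fa h θ n t x y) (fb h θ n t x y) (fc h θ n t x y)) hσ0
        (fun s hs => (hder s ⟨hs.1, hs.2.trans hσ.2⟩).continuousAt.continuousWithinAt)
        (fun s hs => hder s ⟨hs.1.le, hs.2.le.trans hσ.2⟩)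
      have h3 := hτΦ s ⟨hs.1.le, hs.2.le.trans hσ.2⟩ (t, x, y) hp
      simp only at h3 hs2
      rw [hs2] at h3
      rw [h5]
      have h6 : (0 : ℝ) < σ - 0 := by linarith
      have h7 := (div_pos_iff_of_pos_right h6).1 h3
      linarith
    refine ⟨?_, hstrict⟩
    rcases hσ.1.eq_or_lt with hσ0 | hσ0
    · rw [← hσ0]; exact h5.le
    · exact (hstrict hσ0).le
  obtain ⟨μ1, hμ1, hμ1v⟩ : ∃ μ1, μ < μ1 ∧ μ1 < v := exists_between hμv
  have hTc : Continuous (Tn h A θ n τ μ1 v) := continuous_Tn hA hθ hn hn1 τ μ1 v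
  -- the map on points of the square
  have hTn : ∀ t x y : ℝ, x ∈ Icc (-e) e → y ∈ Icc (-e) e → Tn h A θ n τ μ1 v (t, x, y) =
      (t + τ * gv μ1 v (Vin A θ t x y) * fa h θ n t x y,
        x + τ * gv μ1 v (Vin A θ t x y) * fb h θ n t x y,
        y + τ * gv μ1 v (Vin A θ t x y) * fc h θ n t x y) := by
    intro t x y hx hy
    unfold Tn
    rw [← hedef]
    simp only [clp_of_mem hx, clp_of_mem hy]
  have hστ : ∀ z, τ * gv μ1 v z ∈ Icc 0 τ := by
    intro z
    obtain ⟨g1, g2⟩ := gv_mem μ1 v z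
    exact ⟨mul_nonneg hτ.le g1, by
      calc τ * gv μ1 v z ≤ τ * 1 := by gcongr
        _ = τ := mul_one τ⟩
  obtain ⟨ε, hε, hεQ⟩ : ∃ ε > 0, ∀ p ∈ Q, V p ≤ μ1 → V p + ε ≤ V (Tn h A θ n τ μ1 v p) := by
    have hQ1c : IsCompact (Q ∩ {p | V p ≤ μ1}) :=
      hQc.inter_right (isClosed_le hVc continuous_const)
    rcases (Q ∩ {p | V p ≤ μ1}).eq_empty_or_nonempty with hem | hne
    · refine ⟨1, one_pos, fun p hp hp2 => ?_⟩
      have : p ∈ Q ∩ {p | V p ≤ μ1} := ⟨hp, hp2⟩
      rw [hem] at this; exact absurd this (notMem_empty p)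
    · have hc : Continuous fun p => V (Tn h A θ n τ μ1 v p) - V p := (hVc.comp hTc).sub hVc
      obtain ⟨p0, hp0, hmin⟩ := hQ1c.exists_isMinOn hne hc.continuousOn
      have hpos0 : V p0 < V (Tn h A θ n τ μ1 v p0) := by
        obtain ⟨t, x, y⟩ := p0
        obtain ⟨hq, hq2⟩ := hp0
        have hx : x ∈ Icc (-e) e := hq.1.2.1
        have hy : y ∈ Icc (-e) e := hq.1.2.2
        rw [hTn t x y hx hy]
        have hg : gv μ1 v (Vin A θ t x y) = 1 := gv_one hμ1v hq2
        rw [hg, mul_one]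
        exact (hinc (t, x, y) hq τ ⟨hτ.le, le_rfl⟩).2 hτ
      refine ⟨V (Tn h A θ n τ μ1 v p0) - V p0, by linarith, fun p hp hp2 => ?_⟩
      have := isMinOn_iff.1 hmin p ⟨hp, hp2⟩
      linarith
  -- conclusion
  refine iterate_push2 (E := ℝ × ℝ × ℝ) hTc (V := V) (g := fun p => p.2.1 - p.2.2) (by fun_prop)
    (S := {p | p.2.1 ∈ Icc (-e) e ∧ p.2.2 ∈ Icc (-e) e})
    (Zp := {p | e - p.2.1 < n / 2 ∧ p.2.2 + e < n / 2})
    (Zm := {p | p.2.1 + e < n / 2 ∧ e - p.2.2 < n / 2})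
    (m := m) (μ := μ1) (δ := ε) hε ?_ ?_ ?_ ?_ ?_ ?_ ?_
    (γ := fun s => (t0 - cl 0 (r / 2 + s), -e + cl 0 (r / 2 + s),
      -e + cl 0 (r / 2 - s))) ?_ (a := -π) (b := π) (by linarith) ?_ ?_ ?_ ?_
  · rintro ⟨t, x, y⟩ ⟨hx, hy⟩
    simp only at hx hy
    rw [hTn t x y hx hy]
    simp only [mem_ofPred_eq]
    by_cases hc : |x| = π / 2 ∧ |y| = π / 2
    · -- at a corner the field vanishes
      have hx' := (abs_eq (by positivity)).1 hc.1
      have hy' := (abs_eq (by positivity)).1 hc.2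
      have hfb0 : fb h θ n t x y = 0 ∧ fc h θ n t x y = 0 := by
        rcases hx' with hx' | hx' <;> rcases hy' with hy' | hy'
        · have w0 : wh n x y = 1 := om_one hn (max_le (by linarith) (by linarith))
          have w1 : wp n x y = 0 :=
            om_zero hn ((show n ≤ y + π / 2 by linarith).trans (le_max_right _ _))
          have w2 : wm n x y = 0 :=
            om_zero hn ((show n ≤ x + π / 2 by linarith).trans (le_max_left _ _))
          unfold fb fc P1 P2 P3 P4 ch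
          rw [w0, w1, w2]; constructor <;> ring
        · have w1 : wp n x y = 1 := om_one hn (max_le (by linarith) (by linarith))
          have w2 : wm n x y = 0 :=
            om_zero hn ((show n ≤ x + π / 2 by linarith).trans (le_max_left _ _))
          unfold fb fc P1 P2 P3 P4 ch
          rw [w1, w2, hx', hy']; constructor <;> ring
        · have w1 : wm n x y = 1 := om_one hn (max_le (by linarith) (by linarith))
          have w2 : wp n x y = 0 :=
            om_zero hn ((show n ≤ π / 2 - x by linarith).trans (le_max_left _ _))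
          unfold fb fc P1 P2 P3 P4 ch
          rw [w1, w2, hx', hy']; constructor <;> ring
        · have w0 : wl n x y = 1 := om_one hn (max_le (by linarith) (by linarith))
          have w1 : wp n x y = 0 :=
            om_zero hn ((show n ≤ π / 2 - x by linarith).trans (le_max_left _ _))
          have w2 : wm n x y = 0 :=
            om_zero hn ((show n ≤ π / 2 - y by linarith).trans (le_max_right _ _))
          unfold fb fc P1 P2 P3 P4 ch
          rw [w0, w1, w2]; constructor <;> ring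
      rw [hfb0.1, hfb0.2, mul_zero, add_zero, add_zero]
      exact ⟨hx, hy⟩
    · exact (hPb t x y _ hx hy hc (hστ _)).1
  · rintro ⟨t, x, y⟩ ⟨hx, hy⟩ ⟨hz1, hz2⟩
    simp only at hx hy hz1 hz2
    rw [hTn t x y hx hy]
    simp only [mem_ofPred_eq]
    have w1 : wp n x y = 1 := om_one hn (max_le (by linarith) (by linarith))
    have w2 : wm n x y = 0 :=
      om_zero hn ((show n ≤ x + π / 2 by linarith).trans (le_max_left _ _))
    have e1 : fb h θ n t x y = π / 2 - x := by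
      unfold fb P1 P2 ch; rw [w1, w2]; ring
    have e2 : fc h θ n t x y = -(π / 2 + y) := by
      unfold fc P3 P4 ch; rw [w1, w2]; ring
    rw [e1, e2]
    have k1 := (hστ (Vin A θ t x y)).1
    have k2 : 0 ≤ τ * gv μ1 v (Vin A θ t x y) * (π / 2 - x) := mul_nonneg k1 (by linarith [hx.2])
    have k3 : 0 ≤ τ * gv μ1 v (Vin A θ t x y) * (π / 2 + y) := mul_nonneg k1 (by linarith [hy.1])
    constructor <;> linarith
  · rintro ⟨t, x, y⟩ ⟨hx, hy⟩ ⟨hz1, hz2⟩
    simp only at hx hy hz1 hz2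
    rw [hTn t x y hx hy]
    simp only [mem_ofPred_eq]
    have w1 : wm n x y = 1 := om_one hn (max_le (by linarith) (by linarith))
    have w2 : wp n x y = 0 :=
      om_zero hn ((show n ≤ π / 2 - x by linarith).trans (le_max_left _ _))
    have e1 : fb h θ n t x y = -(π / 2 + x) := by
      unfold fb P1 P2 ch; rw [w1, w2]; ring
    have e2 : fc h θ n t x y = π / 2 - y := by
      unfold fc P3 P4 ch; rw [w1, w2]; ring
    rw [e1, e2]
    have k1 := (hστ (Vin A θ t x y)).1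
    have k2 : 0 ≤ τ * gv μ1 v (Vin A θ t x y) * (π / 2 + x) := mul_nonneg k1 (by linarith [hx.1])
    have k3 : 0 ≤ τ * gv μ1 v (Vin A θ t x y) * (π / 2 - y) := mul_nonneg k1 (by linarith [hy.2])
    constructor <;> linarith
  · rintro ⟨t, x, y⟩ ⟨hz1, hz2⟩
    simp only at hz1 hz2 ⊢
    linarith
  · rintro ⟨t, x, y⟩ ⟨hz1, hz2⟩
    simp only at hz1 hz2 ⊢
    linarith
  · rintro ⟨t, x, y⟩ ⟨hx, hy⟩ hg
    simp only at hx hy hg
    have hxy : x = y := by linarith
    subst hxy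
    have := hdiag t x hx
    simp only [hV]
    linarith
  · rintro ⟨t, x, y⟩ ⟨hx, hy⟩ hmV hzp hzm
    simp only at hx hy
    -- reduce to one period
    have hp : Function.Periodic (fun t => ((Vin A θ t x y, V (Tn h A θ n τ μ1 v (t, x, y))) :
        ℝ × ℝ)) (4 * π) := by
      intro t
      simp only [Vin_per hA, Tn_per hA, hV]
    obtain ⟨t', ht', he'⟩ := hp.exists_mem_Ico₀ (by positivity) t
    simp only [Prod.mk.injEq] at he'
    have e3 : V (t, x, y) = V (t', x, y) := he'.1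
    rw [e3, he'.2]
    rw [e3] at hmV
    rcases le_or_gt (V (t', x, y)) v with hvv | hvv
    · have hpQ : ((t', x, y) : ℝ × ℝ × ℝ) ∈ Q :=
        ⟨⟨⟨ht'.1, ht'.2.le⟩, hx, hy⟩, hmV, hvv, hzp, hzm⟩
      refine ⟨?_, fun hle => hεQ _ hpQ hle⟩
      rw [hTn t' x y hx hy]
      exact (hinc _ hpQ _ (hστ _)).1
    · have hg : gv μ1 v (Vin A θ t' x y) = 0 := gv_zero hμ1v (le_of_lt hvv)
      rw [hTn t' x y hx hy, hg]
      simp only [mul_zero, zero_mul, add_zero]
      exact ⟨le_rfl, fun hle => by linarith⟩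
  · unfold cl; fun_prop
  · intro s _
    simp only [mem_ofPred_eq]
    have g1 : ∀ z, cl 0 z ∈ Icc 0 π := fun z =>
      ⟨le_max_left _ _, max_le hpi.le ((min_le_right _ _).trans (by linarith))⟩
    have g2 := g1 (r / 2 + s)
    have g3 := g1 (r / 2 - s)
    exact ⟨⟨by linarith [g2.1], by linarith [g2.2]⟩, ⟨by linarith [g3.1], by linarith [g3.2]⟩⟩
  · intro s hs
    exact hdp s hs
  · have g1 : cl 0 (r / 2 + -π) = 0 := by
      unfold cl
      rw [min_eq_left (by linarith), max_eq_left (by linarith)]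
    have g2 : cl 0 (r / 2 - -π) = π := by
      unfold cl
      rw [min_eq_right (by linarith), max_eq_right (by linarith), sub_zero]
    simp only [mem_ofPred_eq, g1, g2]
    constructor <;> linarith
  · have g1 : cl 0 (r / 2 + π) = π := by
      unfold cl
      rw [min_eq_right (by linarith), max_eq_right (by linarith), sub_zero]
    have g2 : cl 0 (r / 2 - π) = 0 := by
      unfold cl
      rw [min_eq_left (by linarith), max_eq_left (by linarith)]
    simp only [mem_ofPred_eq, g1, g2]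
    constructor <;> linarith

end

end Pool.Agent.Star77b
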