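import Pool.Agent.Work.MP_7ec17a_gt_S2.Corner2

/-! The path from one high corner to the other one, passing near a low corner. -/

namespace Pool.Agent.Star77b

open Real Set Filter Topology

noncomputable section

theorem axis1 {h A : ℝ → ℝ} {T : ℝ} (hA : Dat h A T) {θ t0 a : ℝ} (ha : 0 < a) (ha' : a ≤ π) :
    VH A θ t0 < Vin A θ (t0 - a) (-(π / 2) + a) (-(π / 2) + 0) := by
  have hP : Pi θ (-(π / 2) + a) (-(π / 2) + 0) = a := by
    unfold Pi
    rw [u_low]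
    simp only [sin_zero, cos_zero, mul_zero, mul_one, zero_add]
    exact arccos_cos ha.le ha'
  unfold Vin G VH
  rw [hP]
  have e1 : (t0 - a + θ - -a + (π + (-(π / 2) + 0))) / 2 = t0 / 2 + θ / 2 + π / 4 := by ring
  have e2 : (t0 - a + θ - -a - (π + (-(π / 2) + 0))) / 2 = t0 / 2 + θ / 2 - π / 4 := by ring
  have e3 : (t0 - a + (π + (-(π / 2) + a))) / 2 = t0 / 2 + π / 4 := by ring
  have e4 : (t0 - a - (π + (-(π / 2) + a))) / 2 = t0 / 2 - π / 4 - a := by ring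
  rw [e1, e2, e3, e4]
  have := hA.mono (show t0 / 2 - π / 4 - a < t0 / 2 - π / 4 by linarith)
  linarith

theorem axis2 {h A : ℝ → ℝ} {T : ℝ} (hA : Dat h A T) {θ t0 b : ℝ} (hb : 0 < b) (hb' : b ≤ π) :
    VH A θ t0 < Vin A θ (t0 - 0) (-(π / 2) + 0) (-(π / 2) + b) := by
  have hP : Pi θ (-(π / 2) + 0) (-(π / 2) + b) = b := by
    unfold Pi
    rw [u_low]
    simp only [sin_zero, cos_zero, zero_mul, mul_zero, one_mul, zero_add]
    exact arccos_cos hb.le hb'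
  unfold Vin G VH
  rw [hP]
  have e1 : (t0 - 0 + θ - -b + (π + (-(π / 2) + b))) / 2 = t0 / 2 + θ / 2 + π / 4 + b := by ring
  have e2 : (t0 - 0 + θ - -b - (π + (-(π / 2) + b))) / 2 = t0 / 2 + θ / 2 - π / 4 := by ring
  have e3 : (t0 - 0 + (π + (-(π / 2) + 0))) / 2 = t0 / 2 + π / 4 := by ring
  have e4 : (t0 - 0 - (π + (-(π / 2) + 0))) / 2 = t0 / 2 - π / 4 := by ring
  rw [e1, e2, e3, e4]
  have := hA.mono (show t0 / 2 + θ / 2 + π / 4 < t0 / 2 + θ / 2 + π / 4 + b by linarith)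
  linarith

/-- clamp to `[d, π - d]` -/
def cl (d z : ℝ) : ℝ := max d (min z (π - d))

theorem path_zero {h A : ℝ → ℝ} {T : ℝ} (hA : Dat h A T) {θ t0 r : ℝ} (hr : 0 < r)
    (hr1 : r ≤ 1)
    (hcor : ∀ a b : ℝ, 0 ≤ a → 0 ≤ b → a ≤ r → b ≤ r → 0 < a + b →
      VH A θ t0 < Vin A θ (t0 - a) (-(π / 2) + a) (-(π / 2) + b)) (s : ℝ) :
    VH A θ t0 < Vin A θ (t0 - cl 0 (r / 2 + s)) (-(π / 2) + cl 0 (r / 2 + s))
      (-(π / 2) + cl 0 (r / 2 - s)) := by
  have hpi := pi_gt_three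
  rcases le_or_gt s (-(r / 2)) with h | h
  · have e1 : cl 0 (r / 2 + s) = 0 := by
      unfold cl
      rw [min_eq_left (by linarith), max_eq_left (by linarith)]
    rw [e1]
    apply axis2 hA
    · unfold cl
      exact lt_max_of_lt_right (lt_min (by linarith) (by linarith))
    · unfold cl
      exact max_le (by linarith) ((min_le_right _ _).trans (by linarith))
  rcases le_or_gt (r / 2) s with h' | h'
  · have e1 : cl 0 (r / 2 - s) = 0 := by
      unfold cl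
      rw [min_eq_left (by linarith), max_eq_left (by linarith)]
    rw [e1]
    apply axis1 hA
    · unfold cl
      exact lt_max_of_lt_right (lt_min (by linarith) (by linarith))
    · unfold cl
      exact max_le (by linarith) ((min_le_right _ _).trans (by linarith))
  · have e1 : cl 0 (r / 2 + s) = r / 2 + s := by
      unfold cl
      rw [min_eq_left (by linarith), max_eq_right (by linarith)]
    have e2 : cl 0 (r / 2 - s) = r / 2 - s := by
      unfold cl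
      rw [min_eq_left (by linarith), max_eq_right (by linarith)]
    rw [e1, e2]
    exact hcor _ _ (by linarith) (by linarith) (by linarith) (by linarith) (by linarith)

/-- The level `m` and the paths. -/
theorem path_low {h A : ℝ → ℝ} {T : ℝ} (hA : Dat h A T) {θ t0 r : ℝ} (hr : 0 < r)
    (hr1 : r ≤ 1)
    (hcor : ∀ a b : ℝ, 0 ≤ a → 0 ≤ b → a ≤ r → b ≤ r → 0 < a + b →
      VH A θ t0 < Vin A θ (t0 - a) (-(π / 2) + a) (-(π / 2) + b)) :
    ∃ m, VH A θ t0 < m ∧ ∀ᶠ d in 𝓝 (0 : ℝ), ∀ s ∈ Icc (-π) π,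
      m ≤ Vin A θ (t0 - cl d (r / 2 + s)) (-(π / 2) + cl d (r / 2 + s))
        (-(π / 2) + cl d (r / 2 - s)) := by
  have hcont : Continuous fun p : ℝ × ℝ => Vin A θ (t0 - cl p.1 (r / 2 + p.2))
      (-(π / 2) + cl p.1 (r / 2 + p.2)) (-(π / 2) + cl p.1 (r / 2 - p.2)) := by
    have := continuous_Vin hA.continuous θ
    have h2 : Continuous fun p : ℝ × ℝ => ((t0 - cl p.1 (r / 2 + p.2),
      -(π / 2) + cl p.1 (r / 2 + p.2), -(π / 2) + cl p.1 (r / 2 - p.2)) : ℝ × ℝ × ℝ) := by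
      unfold cl; fun_prop
    exact this.comp h2
  have hc0 : Continuous fun s : ℝ => Vin A θ (t0 - cl 0 (r / 2 + s))
      (-(π / 2) + cl 0 (r / 2 + s)) (-(π / 2) + cl 0 (r / 2 - s)) :=
    hcont.comp (f := fun s : ℝ => ((0 : ℝ), s)) (by fun_prop)
  have hpi := pi_pos
  obtain ⟨s0, hs0, hmin⟩ := (isCompact_Icc (a := -π) (b := π)).exists_isMinOn
    ⟨0, by constructor <;> linarith⟩ hc0.continuousOn
  have hs := path_zero hA hr hr1 hcor s0
  set v := Vin A θ (t0 - cl 0 (r / 2 + s0)) (-(π / 2) + cl 0 (r / 2 + s0))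
      (-(π / 2) + cl 0 (r / 2 - s0)) with hv
  refine ⟨(VH A θ t0 + v) / 2, by linarith, ?_⟩
  have hev : ∀ s ∈ Icc (-π) π, ∀ᶠ z : ℝ × ℝ in 𝓝 ((0 : ℝ), s),
      (VH A θ t0 + v) / 2 ≤ Vin A θ (t0 - cl z.1 (r / 2 + z.2))
      (-(π / 2) + cl z.1 (r / 2 + z.2)) (-(π / 2) + cl z.1 (r / 2 - z.2)) := by
    intro s hs
    have h1 := isMinOn_iff.1 hmin s hs
    have h2 : (VH A θ t0 + v) / 2 < Vin A θ (t0 - cl 0 (r / 2 + s))
      (-(π / 2) + cl 0 (r / 2 + s)) (-(π / 2) + cl 0 (r / 2 - s)) := by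
      rw [← hv] at h1; linarith
    have h3 := hcont.continuousAt (x := ((0 : ℝ), s))
    exact (h3.eventually_const_lt h2).mono fun z hz => hz.le
  exact (isCompact_Icc (a := -π) (b := π)).eventually_forall_of_forall_eventually
    (P := fun d s => (VH A θ t0 + v) / 2 ≤ Vin A θ (t0 - cl d (r / 2 + s))
      (-(π / 2) + cl d (r / 2 + s)) (-(π / 2) + cl d (r / 2 - s))) hev

theorem Vin_low (A : ℝ → ℝ) (θ t : ℝ) : Vin A θ t (-(π / 2)) (-(π / 2)) = VH A θ t := by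
  have hP : Pi θ (-(π / 2)) (-(π / 2)) = 0 := by
    rw [Pi_left ⟨le_rfl, by linarith [pi_pos]⟩]; ring
  unfold Vin G VH
  rw [hP]
  congr 1
  · congr 1
    · congr 1
      · congr 1; ring
      · congr 1; ring
    · congr 1; ring
  · congr 1; ring

theorem Vin_low' {h A : ℝ → ℝ} {T : ℝ} (hA : Dat h A T) (θ t : ℝ) :
    Vin A θ t (π / 2) (π / 2) = VH A θ (t + 2 * π) := by
  have hP : Pi θ (π / 2) (π / 2) = 0 := by
    rw [Pi_right ⟨by linarith [pi_pos], le_rfl⟩]; ring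
  unfold Vin G VH
  rw [hP]
  have e1 : (t + 2 * π) / 2 + θ / 2 + π / 4 = (t + θ - -0 - (π + π / 2)) / 2 + 2 * π := by ring
  have e2 : (t + 2 * π) / 2 + π / 4 = (t - (π + π / 2)) / 2 + 2 * π := by ring
  have e3 : (t + 2 * π) / 2 + θ / 2 - π / 4 = (t + θ - -0 + (π + π / 2)) / 2 := by ring
  have e4 : (t + 2 * π) / 2 - π / 4 = (t + (π + π / 2)) / 2 := by ring
  rw [e1, e2, e3, e4, hA.Aper, hA.Aper]
  ring

theorem Vin_per {h A : ℝ → ℝ} {T : ℝ} (hA : Dat h A T) (θ t x y : ℝ) :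
    Vin A θ (t + 4 * π) x y = Vin A θ t x y := G_per hA θ t _ _ _

/-- Below the level near a low corner. -/
theorem low_near {h A : ℝ → ℝ} {T : ℝ} (hA : Dat h A T) {θ m c : ℝ}
    (hc : ∀ t, Vin A θ t c c < m) :
    ∃ δ > 0, ∀ t x y : ℝ, |x - c| ≤ δ → |y - c| ≤ δ → Vin A θ t x y < m := by
  have hcont : Continuous fun p : (ℝ × ℝ) × ℝ => Vin A θ p.2 p.1.1 p.1.2 := by
    have := continuous_Vin hA.continuous θ
    have h2 : Continuous fun p : (ℝ × ℝ) × ℝ => ((p.2, p.1.1, p.1.2) : ℝ × ℝ × ℝ) := by fun_prop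
    exact this.comp h2
  have hev : ∀ t ∈ Icc (0 : ℝ) (4 * π), ∀ᶠ z : (ℝ × ℝ) × ℝ in 𝓝 ((c, c), t),
      Vin A θ z.2 z.1.1 z.1.2 < m := by
    intro t _
    exact (hcont.continuousAt (x := ((c, c), t))).eventually_lt_const (hc t)
  have := (isCompact_Icc (a := (0 : ℝ)) (b := 4 * π)).eventually_forall_of_forall_eventually
    (P := fun (z : ℝ × ℝ) t => Vin A θ t z.1 z.2 < m) hev
  rw [Metric.eventually_nhds_iff] at this
  obtain ⟨δ, hδ, h1⟩ := this
  refine ⟨δ / 2, by positivity, fun t x y hx hy => ?_⟩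
  obtain ⟨t', ht', he⟩ := exists_period (f := fun t => Vin A θ t x y)
    (fun t => Vin_per hA θ t x y) t
  have h2 := h1 (y := (x, y)) (by
    rw [Prod.dist_eq, max_lt_iff]
    simp only [Real.dist_eq]
    constructor <;> linarith) t' ht'
  simp only at h2 he
  rw [← he]; exact h2

end

end Pool.Agent.Star77b
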