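import Pool.Agent.Work.MP_7ec17a_gt_S2.Side
import Pool.Agent.Work.MP_7ec17a_gt_S2.Path

/-! Near the high corners. -/

namespace Pool.Agent.Star77b

open Real Set Filter Topology

noncomputable section

theorem sin_eq_mul_sinc (x : ℝ) : sin x = x * sinc x := by
  by_cases h : x = 0
  · subst h; simp
  · rw [sinc_of_ne_zero h]; field_simp

/-- Blow-up coordinates at the corner `(π/2, -π/2)`. -/
def sa (n φ : ℝ) : ℝ := cos φ * sinc (n * cos φ)
def sb (n φ : ℝ) : ℝ := sin φ * sinc (n * sin φ)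
def nu (θ n φ : ℝ) : ℝ := cos θ * (cos (n * cos φ) * sb n φ) + sa n φ * cos (n * sin φ)
def nu' (θ n φ : ℝ) : ℝ := cos (n * cos φ) * sb n φ + cos θ * (sa n φ * cos (n * sin φ))
def De (θ n φ : ℝ) : ℝ := nu θ n φ ^ 2 + sb n φ ^ 2 * sin θ ^ 2

theorem sa_mul (n φ : ℝ) : sin (n * cos φ) = n * sa n φ := by
  rw [sin_eq_mul_sinc]; unfold sa; ring

theorem sb_mul (n φ : ℝ) : sin (n * sin φ) = n * sb n φ := by
  rw [sin_eq_mul_sinc]; unfold sb; ring

theorem blow_X {θ n φ : ℝ} (hn : 0 < n) :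
    X θ (π / 2 - n * cos φ) (-(π / 2) + n * sin φ) = nu θ n φ / √(De θ n φ) ∧
    Y θ (π / 2 - n * cos φ) (-(π / 2) + n * sin φ) = nu' θ n φ / √(De θ n φ) := by
  have c1 : cos (π / 2 - n * cos φ) = n * sa n φ := by rw [cos_pi_div_two_sub, sa_mul]
  have s1 : sin (π / 2 - n * cos φ) = cos (n * cos φ) := sin_pi_div_two_sub _
  have c2 : cos (-(π / 2) + n * sin φ) = n * sb n φ := by
    rw [cos_add]; simp [sb_mul]
  have s2 : sin (-(π / 2) + n * sin φ) = -cos (n * sin φ) := by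
    rw [sin_add]; simp
  have hu : √(1 - u θ (π / 2 - n * cos φ) (-(π / 2) + n * sin φ) ^ 2) = n * √(De θ n φ) := by
    rw [num_X, c1, s1, c2, s2]
    have : (cos θ * (cos (n * cos φ) * (n * sb n φ)) - n * sa n φ * -cos (n * sin φ)) ^ 2 +
        (n * sb n φ) ^ 2 * sin θ ^ 2 = n ^ 2 * De θ n φ := by
      unfold De nu; ring
    rw [this, sqrt_mul (by positivity), sqrt_sq hn.le]
  constructor
  · unfold X
    rw [hu, c1, s1, c2, s2]
    have : cos θ * (cos (n * cos φ) * (n * sb n φ)) - n * sa n φ * -cos (n * sin φ) =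
        n * nu θ n φ := by unfold nu; ring
    rw [this, mul_div_mul_left _ _ hn.ne']
  · unfold Y
    rw [hu, c1, s1, c2, s2]
    have : cos (n * cos φ) * (n * sb n φ) - cos θ * (n * sa n φ * -cos (n * sin φ)) =
        n * nu' θ n φ := by unfold nu'; ring
    rw [this, mul_div_mul_left _ _ hn.ne']

def Rh (h : ℝ → ℝ) (θ t n φ : ℝ) : ℝ :=
  (((H2 h t (π / 2 - n * cos φ)) * (1 + nu θ n φ / √(De θ n φ)) -
      (H1 h t (π / 2 - n * cos φ)) * (1 - nu θ n φ / √(De θ n φ))) / 2) * cos φ -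
  ((H3 h θ t (π / 2 - n * cos φ) (-(π / 2) + n * sin φ) * (1 - nu' θ n φ / √(De θ n φ)) -
      H4 h θ t (π / 2 - n * cos φ) (-(π / 2) + n * sin φ) * (1 + nu' θ n φ / √(De θ n φ))) / 2) *
    sin φ

theorem Rh_eq (h : ℝ → ℝ) {θ t n φ : ℝ} (hn : 0 < n) :
    F1 h θ t (π / 2 - n * cos φ) (-(π / 2) + n * sin φ) * (n * cos φ) -
      F2 h θ t (π / 2 - n * cos φ) (-(π / 2) + n * sin φ) * (n * sin φ) = n * Rh h θ t n φ := by
  obtain ⟨h1, h2⟩ := blow_X (θ := θ) (φ := φ) hn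
  unfold F1 F2 Rh
  rw [h1, h2]; ring

theorem De_zero {θ φ : ℝ} : De θ 0 φ = 1 + 2 * cos θ * (cos φ * sin φ) := by
  unfold De nu sa sb
  simp only [zero_mul, cos_zero, sinc_zero, mul_one, one_mul]
  have i1 := sin_sq_add_cos_sq θ
  have i2 := sin_sq_add_cos_sq φ
  linear_combination (sin φ ^ 2) * i1 + i2

theorem De_zero_pos {θ φ : ℝ} (hθ : θ ∈ Ioo 0 π) (hφ : φ ∈ Icc 0 (π / 2)) : 0 < De θ 0 φ := by
  rw [De_zero]
  have hs : 0 ≤ sin φ := sin_nonneg_of_nonneg_of_le_pi hφ.1 (by linarith [hφ.2, pi_pos])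
  have hc : 0 ≤ cos φ := cos_nonneg_of_mem_Icc ⟨by linarith [hφ.1, pi_pos], hφ.2⟩
  have h1 : -1 < cos θ := by
    rw [← cos_pi]
    exact cos_lt_cos_of_nonneg_of_le_pi hθ.1.le le_rfl hθ.2
  have i2 := sin_sq_add_cos_sq φ
  rcases (mul_nonneg hc hs).eq_or_lt with h | h
  · rw [← h]; norm_num
  · have h3 : 0 < 2 * (cos θ + 1) * (cos φ * sin φ) := by
      have : 0 < cos θ + 1 := by linarith
      positivity
    nlinarith [sq_nonneg (sin φ - cos φ)]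

theorem Rh_zero {h : ℝ → ℝ} {θ t φ : ℝ} (hθ : θ ∈ Ioo 0 π) (hφ : φ ∈ Icc 0 (π / 2))
    (hF : F0 h θ t (π / 2) (-(π / 2)) = 0) :
    Rh h θ t 0 φ = ((H2 h t (π / 2) - H1 h t (π / 2)) * cos φ +
      (H4 h θ t (π / 2) (-(π / 2)) - H3 h θ t (π / 2) (-(π / 2))) * sin φ +
      (H1 h t (π / 2) + H2 h t (π / 2)) * √(1 + 2 * cos θ * (cos φ * sin φ))) / 2 := by
  have hD := De_zero_pos hθ hφ
  have hq : 0 < √(De θ 0 φ) := sqrt_pos.2 hD
  have hqq := sq_sqrt hD.le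
  unfold Rh
  rw [← De_zero (θ := θ) (φ := φ)]
  simp only [zero_mul, sub_zero, add_zero]
  have hν : nu θ 0 φ = cos θ * sin φ + cos φ := by
    unfold nu sa sb; simp
  have hν' : nu' θ 0 φ = sin φ + cos θ * cos φ := by
    unfold nu' sa sb; simp
  rw [hν, hν']
  set q := √(De θ 0 φ) with hqd
  have key : (cos θ * sin φ + cos φ) / q * cos φ + (sin φ + cos θ * cos φ) / q * sin φ = q := by
    have e1 : (cos θ * sin φ + cos φ) / q * cos φ + (sin φ + cos θ * cos φ) / q * sin φ =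
        ((cos θ * sin φ + cos φ) * cos φ + (sin φ + cos θ * cos φ) * sin φ) / q := by ring
    rw [e1, div_eq_iff hq.ne', ← pow_two, hqq, De_zero]
    have i2 := sin_sq_add_cos_sq φ
    linear_combination i2
  have h34 : H3 h θ t (π / 2) (-(π / 2)) + H4 h θ t (π / 2) (-(π / 2)) =
      H1 h t (π / 2) + H2 h t (π / 2) := by
    unfold F0 at hF; linarith
  linear_combination ((H1 h t (π / 2) + H2 h t (π / 2)) / 2) * key +
    ((sin φ + cos θ * cos φ) / q * sin φ / 2) * h34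

theorem polar0 {a b : ℝ} (ha : 0 ≤ a) (hb : 0 ≤ b) (hab : 0 < a + b) :
    ∃ n φ, 0 < n ∧ n ≤ a + b ∧ φ ∈ Icc 0 (π / 2) ∧ a = n * cos φ ∧ b = n * sin φ := by
  have hpi := pi_pos
  rcases ha.eq_or_lt with h | h
  · refine ⟨b, π / 2, by linarith, by linarith, ⟨by positivity, le_rfl⟩, ?_, ?_⟩
    · rw [cos_pi_div_two, ← h]; ring
    · rw [sin_pi_div_two]; ring
  rcases hb.eq_or_lt with h' | h'
  · refine ⟨a, 0, h, by linarith, ⟨le_rfl, by positivity⟩, ?_, ?_⟩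
    · rw [cos_zero]; ring
    · rw [sin_zero, ← h']; ring
  obtain ⟨φ, p1, p2, p3, p4⟩ := polar h h'
  refine ⟨√(a ^ 2 + b ^ 2), φ, by positivity, ?_, ⟨p1.le, p2.le⟩, p3, p4⟩
  rw [sqrt_le_left (by positivity)]
  nlinarith

/-- The involution. -/
theorem invol {h A : ℝ → ℝ} {T : ℝ} (hA : Dat h A T) (θ t x y : ℝ) :
    F0 h θ (t + 2 * π) (-x) (-y) = F0 h θ t x y ∧
    F1 h θ (t + 2 * π) (-x) (-y) = -F1 h θ t x y ∧
    F2 h θ (t + 2 * π) (-x) (-y) = -F2 h θ t x y ∧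
    Vin A θ (t + 2 * π) (-x) (-y) = Vin A θ t x y := by
  have hPi : Pi θ (-x) (-y) = Pi θ x y := Pi_neg θ x y
  have a1 : (t + 2 * π + (π + -x)) / 2 = (t - (π + x)) / 2 + 2 * π := by ring
  have a2 : (t + 2 * π - (π + -x)) / 2 = (t + (π + x)) / 2 := by ring
  have a3 : (t + 2 * π + θ - -Pi θ x y + (π + -y)) / 2 =
      (t + θ - -Pi θ x y - (π + y)) / 2 + 2 * π := by ring
  have a4 : (t + 2 * π + θ - -Pi θ x y - (π + -y)) / 2 =
      (t + θ - -Pi θ x y + (π + y)) / 2 := by ring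
  have h1 : H1 h (t + 2 * π) (-x) = H2 h t x := by
    unfold H1 H2; rw [a1, hA.per]
  have h2 : H2 h (t + 2 * π) (-x) = H1 h t x := by
    unfold H1 H2; rw [a2]
  have h3 : H3 h θ (t + 2 * π) (-x) (-y) = H4 h θ t x y := by
    unfold H3 H4; rw [hPi, a3, hA.per]
  have h4 : H4 h θ (t + 2 * π) (-x) (-y) = H3 h θ t x y := by
    unfold H3 H4; rw [hPi, a4]
  refine ⟨?_, ?_, ?_, ?_⟩
  · unfold F0; rw [h1, h2, h3, h4]; ring
  · unfold F1; rw [h1, h2, X_neg]; ring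
  · unfold F2; rw [h3, h4, Y_neg]; ring
  · unfold Vin G
    rw [hPi, a1, a2, a3, a4, hA.Aper, hA.Aper]; ring

theorem F_per {h A : ℝ → ℝ} {T : ℝ} (hA : Dat h A T) (θ t x y : ℝ) :
    F0 h θ (t + 4 * π) x y = F0 h θ t x y ∧ F1 h θ (t + 4 * π) x y = F1 h θ t x y ∧
      F2 h θ (t + 4 * π) x y = F2 h θ t x y := by
  obtain ⟨a0, a1, a2, -⟩ := invol hA θ t x y
  obtain ⟨b0, b1, b2, -⟩ := invol hA θ (t + 2 * π) (-x) (-y)
  rw [neg_neg, neg_neg] at b0 b1 b2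
  have e : t + 2 * π + 2 * π = t + 4 * π := by ring
  rw [e] at b0 b1 b2
  refine ⟨by rw [b0, a0], by rw [b1, a1, neg_neg], by rw [b2, a2, neg_neg]⟩

/-- Near the corner `(π/2, -π/2)` the radial push together with `F0 d/dt` increases `V`. -/
theorem near_corner {h A : ℝ → ℝ} {T : ℝ} (hA : Dat h A T) {θ v : ℝ} (hθ : θ ∈ Ioo 0 π)
    (hbal : ∀ t, F0 h θ t (π / 2) (-(π / 2)) = 0 → Vin A θ t (π / 2) (-(π / 2)) ≤ v →
      ∀ φ ∈ Icc 0 (π / 2), 0 < (H2 h t (π / 2) - H1 h t (π / 2)) * cos φ +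
      (H4 h θ t (π / 2) (-(π / 2)) - H3 h θ t (π / 2) (-(π / 2))) * sin φ +
      (H1 h t (π / 2) + H2 h t (π / 2)) * √(1 + 2 * cos θ * (cos φ * sin φ))) :
    ∃ η > 0, ∀ t a b : ℝ, 0 ≤ a → 0 ≤ b → a ≤ η → b ≤ η → 0 < a + b →
      Vin A θ t (π / 2 - a) (-(π / 2) + b) ≤ v →
      0 < F0 h θ t (π / 2 - a) (-(π / 2) + b) ^ 2 +
        (F1 h θ t (π / 2 - a) (-(π / 2) + b) * a - F2 h θ t (π / 2 - a) (-(π / 2) + b) * b) := by
  have hh := hA.cont
  have hK : IsCompact (Icc (0 : ℝ) (4 * π) ×ˢ Icc (0 : ℝ) (π / 2)) :=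
    isCompact_Icc.prod isCompact_Icc
  -- continuity
  have cx : Continuous fun z : ℝ × (ℝ × ℝ) => π / 2 - z.1 * cos z.2.2 := by fun_prop
  have cy : Continuous fun z : ℝ × (ℝ × ℝ) => -(π / 2) + z.1 * sin z.2.2 := by fun_prop
  have cF0 : Continuous fun z : ℝ × (ℝ × ℝ) =>
      F0 h θ z.2.1 (π / 2 - z.1 * cos z.2.2) (-(π / 2) + z.1 * sin z.2.2) := by
    unfold F0 H1 H2 H3 H4 Pi u
    fun_prop
  have cV : Continuous fun z : ℝ × (ℝ × ℝ) =>
      Vin A θ z.2.1 (π / 2 - z.1 * cos z.2.2) (-(π / 2) + z.1 * sin z.2.2) := by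
    have := continuous_Vin hA.continuous θ
    have h2 : Continuous fun z : ℝ × (ℝ × ℝ) => ((z.2.1, π / 2 - z.1 * cos z.2.2,
      -(π / 2) + z.1 * sin z.2.2) : ℝ × ℝ × ℝ) := by fun_prop
    exact this.comp h2
  have csa : Continuous fun z : ℝ × (ℝ × ℝ) => sa z.1 z.2.2 := by
    unfold sa; have := continuous_sinc; fun_prop
  have csb : Continuous fun z : ℝ × (ℝ × ℝ) => sb z.1 z.2.2 := by
    unfold sb; have := continuous_sinc; fun_prop
  have cnu : Continuous fun z : ℝ × (ℝ × ℝ) => nu θ z.1 z.2.2 := by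
    unfold nu; fun_prop
  have cnu' : Continuous fun z : ℝ × (ℝ × ℝ) => nu' θ z.1 z.2.2 := by
    unfold nu'; fun_prop
  have cDe : Continuous fun z : ℝ × (ℝ × ℝ) => De θ z.1 z.2.2 := by
    unfold De; fun_prop
  have cR : ∀ p : ℝ × ℝ, p.2 ∈ Icc 0 (π / 2) →
      ContinuousAt (fun z : ℝ × (ℝ × ℝ) => Rh h θ z.2.1 z.1 z.2.2) ((0 : ℝ), p) := by
    intro p hp
    have hD := De_zero_pos hθ hp
    have hq : √(De θ 0 p.2) ≠ 0 := (sqrt_pos.2 hD).ne'
    have c1 : ContinuousAt (fun z : ℝ × (ℝ × ℝ) => nu θ z.1 z.2.2 / √(De θ z.1 z.2.2))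
        ((0 : ℝ), p) := cnu.continuousAt.div cDe.continuousAt.sqrt hq
    have c2 : ContinuousAt (fun z : ℝ × (ℝ × ℝ) => nu' θ z.1 z.2.2 / √(De θ z.1 z.2.2))
        ((0 : ℝ), p) := cnu'.continuousAt.div cDe.continuousAt.sqrt hq
    have d1 : Continuous fun z : ℝ × (ℝ × ℝ) => H1 h z.2.1 (π / 2 - z.1 * cos z.2.2) := by
      unfold H1; fun_prop
    have d2 : Continuous fun z : ℝ × (ℝ × ℝ) => H2 h z.2.1 (π / 2 - z.1 * cos z.2.2) := by
      unfold H2; fun_prop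
    have d3 : Continuous fun z : ℝ × (ℝ × ℝ) =>
        H3 h θ z.2.1 (π / 2 - z.1 * cos z.2.2) (-(π / 2) + z.1 * sin z.2.2) := by
      unfold H3 Pi u; fun_prop
    have d4 : Continuous fun z : ℝ × (ℝ × ℝ) =>
        H4 h θ z.2.1 (π / 2 - z.1 * cos z.2.2) (-(π / 2) + z.1 * sin z.2.2) := by
      unfold H4 Pi u; fun_prop
    unfold Rh
    have k1 := d1.continuousAt (x := ((0 : ℝ), p))
    have k2 := d2.continuousAt (x := ((0 : ℝ), p))
    have k3 := d3.continuousAt (x := ((0 : ℝ), p))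
    have k4 := d4.continuousAt (x := ((0 : ℝ), p))
    fun_prop
  have hev : ∀ p ∈ Icc (0 : ℝ) (4 * π) ×ˢ Icc (0 : ℝ) (π / 2),
      ∀ᶠ z : ℝ × (ℝ × ℝ) in 𝓝 ((0 : ℝ), p), 0 < z.1 →
        Vin A θ z.2.1 (π / 2 - z.1 * cos z.2.2) (-(π / 2) + z.1 * sin z.2.2) ≤ v →
        0 < F0 h θ z.2.1 (π / 2 - z.1 * cos z.2.2) (-(π / 2) + z.1 * sin z.2.2) ^ 2 +
          z.1 * Rh h θ z.2.1 z.1 z.2.2 := by
    rintro ⟨t, φ⟩ ⟨-, hφ⟩
    simp only at hφ
    by_cases hV : Vin A θ t (π / 2) (-(π / 2)) ≤ v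
    · by_cases hF : F0 h θ t (π / 2) (-(π / 2)) = 0
      · have hR : 0 < Rh h θ t 0 φ := by
          rw [Rh_zero hθ hφ hF]
          have := hbal t hF hV φ hφ
          linarith
        have := (cR (t, φ) hφ).eventually_const_lt hR
        filter_upwards [this] with z hz h1 _
        have : 0 < z.1 * Rh h θ z.2.1 z.1 z.2.2 := mul_pos h1 hz
        have := sq_nonneg (F0 h θ z.2.1 (π / 2 - z.1 * cos z.2.2) (-(π / 2) + z.1 * sin z.2.2))
        linarith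
      · have c1 : ContinuousAt (fun z : ℝ × (ℝ × ℝ) =>
            F0 h θ z.2.1 (π / 2 - z.1 * cos z.2.2) (-(π / 2) + z.1 * sin z.2.2) ^ 2 +
            z.1 * Rh h θ z.2.1 z.1 z.2.2) ((0 : ℝ), (t, φ)) :=
          (cF0.continuousAt.pow 2).add (continuousAt_fst.mul (cR (t, φ) hφ))
        have h0 : (0 : ℝ) < F0 h θ t (π / 2 - 0 * cos φ) (-(π / 2) + 0 * sin φ) ^ 2 +
            0 * Rh h θ t 0 φ := by
          simp only [zero_mul, sub_zero, add_zero]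
          positivity
        filter_upwards [c1.eventually_const_lt h0] with z hz _ _
        exact hz
    · push Not at hV
      have h0 : v < Vin A θ t (π / 2 - 0 * cos φ) (-(π / 2) + 0 * sin φ) := by
        simpa using hV
      filter_upwards [(cV.continuousAt (x := ((0 : ℝ), (t, φ)))).eventually_const_lt h0]
        with z hz _ h2
      exact absurd h2 (not_le.2 hz)
  have hev2 := hK.eventually_forall_of_forall_eventually
    (P := fun (n : ℝ) (p : ℝ × ℝ) => 0 < n →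
        Vin A θ p.1 (π / 2 - n * cos p.2) (-(π / 2) + n * sin p.2) ≤ v →
        0 < F0 h θ p.1 (π / 2 - n * cos p.2) (-(π / 2) + n * sin p.2) ^ 2 +
          n * Rh h θ p.1 n p.2) hev
  rw [Metric.eventually_nhds_iff] at hev2
  obtain ⟨ε, hε, h3⟩ := hev2
  refine ⟨ε / 4, by positivity, fun t a b ha hb haη hbη hab hV => ?_⟩
  obtain ⟨n, φ, hn, hnab, hφ, rfl, rfl⟩ := polar0 ha hb hab
  -- reduce the time
  have hp : Function.Periodic (fun t => ((F0 h θ t (π / 2 - n * cos φ) (-(π / 2) + n * sin φ),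
      F1 h θ t (π / 2 - n * cos φ) (-(π / 2) + n * sin φ),
      F2 h θ t (π / 2 - n * cos φ) (-(π / 2) + n * sin φ),
      Vin A θ t (π / 2 - n * cos φ) (-(π / 2) + n * sin φ)) : ℝ × ℝ × ℝ × ℝ)) (4 * π) := by
    intro t
    obtain ⟨p0, p1, p2⟩ := F_per hA θ t (π / 2 - n * cos φ) (-(π / 2) + n * sin φ)
    simp only [p0, p1, p2, Vin_per hA]
  obtain ⟨t', ht', he⟩ := hp.exists_mem_Ico₀ (by positivity) t
  simp only [Prod.mk.injEq] at he
  obtain ⟨e0, e1, e2, e3⟩ := he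
  rw [e0, e1, e2, Rh_eq h hn]
  rw [e3] at hV
  have hdist : dist n 0 < ε := by
    rw [Real.dist_eq, sub_zero, abs_of_pos hn]; linarith
  exact h3 hdist (t', φ) ⟨⟨ht'.1, ht'.2.le⟩, hφ⟩ hn hV

end

end Pool.Agent.Star77b
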