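import Pool.Agent.Work.MP_7ec17a_gt_S2.Fields

/-! The outer square: without a rectangle the functional is at most the maximum over the
corners. -/

namespace Pool.Agent.Star77b

open Real

noncomputable section

theorem crit_out {ρ A : ℝ → ℝ} (hρ : ∀ x, 0 < ρ x) {θ t x y : ℝ}
    (hθ : θ ∈ Set.Ioo 0 π)
    (hx : x ∈ Set.Ioo (-(π / 2)) (π / 2)) (hy : y ∈ Set.Ioo (-(π / 2)) (π / 2))
    (hV : Vout A θ t x y ≠ 0)
    (h0 : ρ ((t + x) / 2) ^ 2 + ρ ((t - x) / 2) ^ 2 =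
      ρ ((t + θ - Pi θ x y + y) / 2) ^ 2 + ρ ((t + θ - Pi θ x y - y) / 2) ^ 2)
    (h1 : ρ ((t + x) / 2) ^ 2 * (1 + X θ x y) = ρ ((t - x) / 2) ^ 2 * (1 - X θ x y))
    (h2 : ρ ((t + θ - Pi θ x y + y) / 2) ^ 2 * (1 + Y θ x y) =
      ρ ((t + θ - Pi θ x y - y) / 2) ^ 2 * (1 - Y θ x y)) : IsRect ρ θ := by
  have hpi := pi_pos
  have hcx := cos_pos_of_mem_Ioo hx
  have hcy := cos_pos_of_mem_Ioo hy
  have hθ1 : cos θ < 1 := by
    rw [← cos_zero]
    exact cos_lt_cos_of_nonneg_of_le_pi le_rfl hθ.2.le hθ.1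
  have hθ2 : -1 < cos θ := by
    rw [← cos_pi]
    exact cos_lt_cos_of_nonneg_of_le_pi hθ.1.le le_rfl hθ.2
  have u1 := u_lt_one hθ1 hcx hcy
  have u2 := neg_one_lt_u hθ2 hcx hcy
  have b1 := Pi_gt hθ1 hθ2 hx hy
  have b2 := Pi_lt hθ1 hθ2 hx hy
  have b1a := (abs_lt.1 b1).1
  have b1b := (abs_lt.1 b1).2
  have b2a : x + y < π - Pi θ x y := by linarith [le_abs_self (x + y)]
  have b2b : -(x + y) < π - Pi θ x y := by linarith [neg_abs_le (x + y)]
  have hsq : 0 < √(1 - u θ x y ^ 2) := by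
    apply sqrt_pos.2; nlinarith
  have hPp : 0 < Pi θ x y := lt_of_le_of_lt (abs_nonneg _) b1
  have hPs : sin (Pi θ x y) = √(1 - u θ x y ^ 2) := sin_Pi
  have X1 : X θ x y * √(1 - u θ x y ^ 2) = cos θ * (sin x * cos y) - cos x * sin y := by
    unfold X; rw [div_mul_cancel₀]; exact hsq.ne'
  have Y1 : Y θ x y * √(1 - u θ x y ^ 2) = sin x * cos y - cos θ * (cos x * sin y) := by
    unfold Y; rw [div_mul_cancel₀]; exact hsq.ne'
  have pos4 : ∀ z : ℝ, 0 < z → z < π → 0 < sin z := fun z h1 h2 => sin_pos_of_pos_of_lt_pi h1 h2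
  refine isRect_of (t := t) (e := x) (e' := y) (P := Pi θ x y) hρ ?_ ?_ ?_ ?_ ?_ ?_ ?_ ?_ ?_ ?_
    h0 ?_ ?_
  · exact cos_pos_of_mem_Ioo ⟨by linarith [hθ.1], by linarith [hθ.2]⟩
  · exact pos4 _ (by linarith [hθ.1]) (by linarith [hθ.2])
  · rw [cos_Pi u2.le u1.le]; rfl
  · rw [hPs]
    exact mul_pos (pos4 _ (by linarith) (by linarith)) hsq
  · rw [hPs]
    exact mul_pos (pos4 _ (by linarith) (by linarith)) hsq
  · rw [hPs]
    exact mul_pos (cos_pos_of_mem_Ioo ⟨by linarith, by linarith⟩) hsq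
  · rw [hPs]
    exact mul_pos (cos_pos_of_mem_Ioo ⟨by linarith, by linarith⟩) hsq
  · rw [hPs]; exact mul_pos hcx hsq
  · rw [hPs]; exact mul_pos hcy hsq
  · intro hh
    have h3 : Complex.exp (((t + x) / 2 : ℝ) * Complex.I) =
        Complex.exp (((t - x) / 2 : ℝ) * Complex.I) *
          ((cos x : ℝ) + (sin x : ℝ) * Complex.I) := by
      rw [Complex.ofReal_cos, Complex.ofReal_sin, ← Complex.exp_mul_I, ← Complex.exp_add]
      congr 1; push_cast; ring
    rw [h3] at hh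
    have h4 : (ρ ((t + x) / 2) : ℂ) * ((cos x : ℝ) + (sin x : ℝ) * Complex.I) =
        ρ ((t - x) / 2) := by
      have h5 := Complex.exp_ne_zero (((t - x) / 2 : ℝ) * Complex.I)
      apply mul_left_cancel₀ h5
      linear_combination hh
    have h6 := congrArg Complex.im h4
    rw [Complex.im_ofReal_mul] at h6
    simp only [Complex.add_im, Complex.ofReal_im, Complex.mul_im, Complex.I_re, mul_zero,
      Complex.ofReal_re, Complex.I_im, mul_one, add_zero, zero_add] at h6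
    have h7 : sin x = 0 := (mul_eq_zero.1 h6).resolve_left (hρ _).ne'
    have hx0 : x = 0 := by
      have := (sin_eq_zero_iff_of_lt_of_lt (x := x) (by linarith [hx.1]) (by linarith [hx.2])).1 h7
      exact this
    subst hx0
    have h8 : X θ 0 y = 0 := by
      have e1 : (t + 0) / 2 = (t - 0) / 2 := by ring
      rw [e1] at h1
      have h9 := pow_pos (hρ ((t - 0) / 2)) 2
      have h10 : ρ ((t - 0) / 2) ^ 2 * X θ 0 y = 0 := by linarith
      exact (mul_eq_zero.1 h10).resolve_left h9.ne'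
    rw [h8] at X1
    simp only [sin_zero, cos_zero, zero_mul, mul_zero, one_mul, zero_sub] at X1
    have hy0 : y = 0 := by
      have := (sin_eq_zero_iff_of_lt_of_lt (x := y) (by linarith [hy.1])
        (by linarith [hy.2])).1 (by linarith)
      exact this
    subst hy0
    apply hV
    have hP0 : Pi θ 0 0 = θ := by
      unfold Pi u
      simp only [sin_zero, cos_zero, mul_one, mul_zero, add_zero]
      exact arccos_cos hθ.1.le (by linarith [hθ.2])
    unfold Vout G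
    rw [hP0]
    have e1 : (t + θ - θ + 0) / 2 = (t + 0) / 2 := by ring
    have e2 : (t + θ - θ - 0) / 2 = (t - 0) / 2 := by ring
    rw [e1, e2]; ring
  · rw [hPs, ← X1]
    linear_combination √(1 - u θ x y ^ 2) * h1
  · have e1 : cos θ * (cos x * sin y) - sin x * cos y = -(Y θ x y * √(1 - u θ x y ^ 2)) := by
      rw [Y1]; ring
    rw [hPs, e1]
    linear_combination √(1 - u θ x y ^ 2) * h2

/-- The functional at the corners. -/
def VH (A : ℝ → ℝ) (θ t : ℝ) : ℝ :=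
  A (t / 2 + θ / 2 + π / 4) + A (t / 2 + θ / 2 - π / 4) - A (t / 2 + π / 4) - A (t / 2 - π / 4)

theorem Dat.mono {h A : ℝ → ℝ} {T : ℝ} (hA : Dat h A T) : StrictMono A := by
  apply strictMono_of_deriv_pos
  intro x
  rw [(hA.der x).deriv]
  exact hA.pos x

theorem Dat.continuous {h A : ℝ → ℝ} {T : ℝ} (hA : Dat h A T) : Continuous A :=
  continuous_iff_continuousAt.2 fun x => (hA.der x).continuousAt

theorem u_pi_div_two (θ y : ℝ) : u θ (π / 2) y = sin y := by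
  unfold u; simp

theorem u_neg_pi_div_two (θ y : ℝ) : u θ (-(π / 2)) y = -sin y := by
  unfold u; simp

theorem u_comm (θ x y : ℝ) : u θ x y = u θ y x := by
  unfold u; ring

theorem u_neg (θ x y : ℝ) : u θ (-x) (-y) = u θ x y := by
  unfold u; simp

theorem Pi_comm (θ x y : ℝ) : Pi θ x y = Pi θ y x := by
  unfold Pi; rw [u_comm]

theorem Pi_neg (θ x y : ℝ) : Pi θ (-x) (-y) = Pi θ x y := by
  unfold Pi; rw [u_neg]

theorem Pi_right {θ y : ℝ} (hy : y ∈ Set.Icc (-(π / 2)) (π / 2)) : Pi θ (π / 2) y = π / 2 - y := by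
  unfold Pi
  rw [u_pi_div_two, ← cos_pi_div_two_sub]
  exact arccos_cos (by linarith [hy.2]) (by linarith [hy.1])

theorem Pi_left {θ y : ℝ} (hy : y ∈ Set.Icc (-(π / 2)) (π / 2)) :
    Pi θ (-(π / 2)) y = π / 2 + y := by
  have := Pi_right (θ := θ) (y := -y) ⟨by linarith [hy.2], by linarith [hy.1]⟩
  rw [← Pi_neg] at this
  rw [neg_neg] at this
  rw [this]; ring

theorem Vout_side {h A : ℝ → ℝ} {T : ℝ} (hA : Dat h A T) {θ S : ℝ}
    (hS : ∀ t, VH A θ t ≤ S) (t : ℝ) {z : ℝ} (hz : z ∈ Set.Icc (-(π / 2)) (π / 2)) :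
    Vout A θ t (π / 2) z ≤ S ∧ Vout A θ t (-(π / 2)) z ≤ S ∧ Vout A θ t z (π / 2) ≤ S ∧
      Vout A θ t z (-(π / 2)) ≤ S := by
  have hm := hA.mono.monotone
  have hz1 := hz.1
  have hz2 := hz.2
  refine ⟨?_, ?_, ?_, ?_⟩
  · refine le_trans ?_ (hS t)
    unfold Vout G VH
    rw [Pi_right hz]
    have e1 : (t + θ - (π / 2 - z) - z) / 2 = t / 2 + θ / 2 - π / 4 := by ring
    have e2 : (t + π / 2) / 2 = t / 2 + π / 4 := by ring
    have e3 : (t - π / 2) / 2 = t / 2 - π / 4 := by ring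
    rw [e1, e2, e3]
    have := hm (show (t + θ - (π / 2 - z) + z) / 2 ≤ t / 2 + θ / 2 + π / 4 by linarith)
    linarith
  · refine le_trans ?_ (hS t)
    unfold Vout G VH
    rw [Pi_left hz]
    have e1 : (t + θ - (π / 2 + z) + z) / 2 = t / 2 + θ / 2 - π / 4 := by ring
    have e2 : (t + -(π / 2)) / 2 = t / 2 - π / 4 := by ring
    have e3 : (t - -(π / 2)) / 2 = t / 2 + π / 4 := by ring
    rw [e1, e2, e3]
    have := hm (show (t + θ - (π / 2 + z) - z) / 2 ≤ t / 2 + θ / 2 + π / 4 by linarith)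
    linarith
  · refine le_trans ?_ (hS (t + z - π / 2))
    unfold Vout G VH
    rw [Pi_comm, Pi_right hz]
    have e1 : (t + θ - (π / 2 - z) + π / 2) / 2 = (t + z - π / 2) / 2 + θ / 2 + π / 4 := by ring
    have e4 : (t + θ - (π / 2 - z) - π / 2) / 2 = (t + z - π / 2) / 2 + θ / 2 - π / 4 := by ring
    have e2 : (t + z) / 2 = (t + z - π / 2) / 2 + π / 4 := by ring
    rw [e1, e2, e4]
    have := hm (show (t + z - π / 2) / 2 - π / 4 ≤ (t - z) / 2 by linarith)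
    linarith
  · refine le_trans ?_ (hS (t - z - π / 2))
    unfold Vout G VH
    rw [Pi_comm, Pi_left hz]
    have e1 : (t + θ - (π / 2 + z) + -(π / 2)) / 2 = (t - z - π / 2) / 2 + θ / 2 - π / 4 := by ring
    have e4 : (t + θ - (π / 2 + z) - -(π / 2)) / 2 = (t - z - π / 2) / 2 + θ / 2 + π / 4 := by ring
    have e2 : (t - z) / 2 = (t - z - π / 2) / 2 + π / 4 := by ring
    rw [e1, e2, e4]
    have := hm (show (t - z - π / 2) / 2 - π / 4 ≤ (t + z) / 2 by linarith)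
    linarith

theorem continuous_Pi (θ : ℝ) : Continuous fun p : ℝ × ℝ => Pi θ p.1 p.2 := by
  unfold Pi u
  fun_prop

theorem continuous_Vout {A : ℝ → ℝ} (hA : Continuous A) (θ : ℝ) :
    Continuous fun p : ℝ × ℝ × ℝ => Vout A θ p.1 p.2.1 p.2.2 := by
  unfold Vout G Pi u
  fun_prop

theorem continuous_Vin {A : ℝ → ℝ} (hA : Continuous A) (θ : ℝ) :
    Continuous fun p : ℝ × ℝ × ℝ => Vin A θ p.1 p.2.1 p.2.2 := by
  unfold Vin G Pi u
  fun_prop

theorem G_per {h A : ℝ → ℝ} {T : ℝ} (hA : Dat h A T) (θ t e e' P : ℝ) :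
    G A θ (t + 4 * π) e e' P = G A θ t e e' P := by
  unfold G
  have e1 : (t + 4 * π + θ - P + e') / 2 = (t + θ - P + e') / 2 + 2 * π := by ring
  have e2 : (t + 4 * π + θ - P - e') / 2 = (t + θ - P - e') / 2 + 2 * π := by ring
  have e3 : (t + 4 * π + e) / 2 = (t + e) / 2 + 2 * π := by ring
  have e4 : (t + 4 * π - e) / 2 = (t - e) / 2 + 2 * π := by ring
  rw [e1, e2, e3, e4, hA.Aper, hA.Aper, hA.Aper, hA.Aper]
  ring

/-- reduction to a period -/
theorem exists_period {f : ℝ → ℝ} (hf : ∀ t, f (t + 4 * π) = f t) (t : ℝ) :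
    ∃ t' ∈ Set.Icc (0 : ℝ) (4 * π), f t' = f t := by
  have hp : Function.Periodic f (4 * π) := hf
  obtain ⟨y, hy, h⟩ := hp.exists_mem_Ico₀ (by positivity) t
  exact ⟨y, ⟨hy.1, hy.2.le⟩, h.symm⟩

theorem outer_le {ρ A : ℝ → ℝ} {T : ℝ} (hρ : ∀ x, 0 < ρ x)
    (hA : Dat (fun x => ρ x ^ 2 / 2) A T) {θ S : ℝ} (hθ : θ ∈ Set.Ioo 0 π)
    (hno : ¬ IsRect ρ θ) (hS : ∀ t, VH A θ t ≤ S) (hS0 : 0 < S) (t : ℝ) {x y : ℝ}
    (hx : x ∈ Set.Icc (-(π / 2)) (π / 2)) (hy : y ∈ Set.Icc (-(π / 2)) (π / 2)) :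
    Vout A θ t x y ≤ S := by
  have hpi := pi_pos
  by_contra hlt
  push Not at hlt
  have hθ1 : cos θ < 1 := by
    rw [← cos_zero]
    exact cos_lt_cos_of_nonneg_of_le_pi le_rfl hθ.2.le hθ.1
  have hθ2 : -1 < cos θ := by
    rw [← cos_pi]
    exact cos_lt_cos_of_nonneg_of_le_pi hθ.1.le le_rfl hθ.2
  -- the maximum
  have hcomp : IsCompact ((Set.Icc (0 : ℝ) (4 * π)) ×ˢ ((Set.Icc (-(π / 2)) (π / 2)) ×ˢ
      (Set.Icc (-(π / 2)) (π / 2)))) := isCompact_Icc.prod (isCompact_Icc.prod isCompact_Icc)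
  have hne : ((Set.Icc (0 : ℝ) (4 * π)) ×ˢ ((Set.Icc (-(π / 2)) (π / 2)) ×ˢ
      (Set.Icc (-(π / 2)) (π / 2)))).Nonempty :=
    ⟨(0, 0, 0), ⟨⟨le_rfl, by positivity⟩, ⟨⟨by simp; positivity, by positivity⟩,
      ⟨by simp; positivity, by positivity⟩⟩⟩⟩
  obtain ⟨⟨t0, x0, y0⟩, hm0, hmax⟩ := hcomp.exists_isMaxOn hne
    (continuous_Vout hA.continuous θ).continuousOn
  have hmx : ∀ t x y : ℝ, x ∈ Set.Icc (-(π / 2)) (π / 2) → y ∈ Set.Icc (-(π / 2)) (π / 2) →
      Vout A θ t x y ≤ Vout A θ t0 x0 y0 := by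
    intro t x y hx hy
    obtain ⟨t', ht', he⟩ := exists_period (f := fun t => Vout A θ t x y)
      (fun t => G_per hA θ t x y _) t
    have := isMaxOn_iff.1 hmax ((t', x, y) : ℝ × ℝ × ℝ) ⟨ht', hx, hy⟩
    rw [← he]; exact this
  have hbig : S < Vout A θ t0 x0 y0 := lt_of_lt_of_le hlt (hmx t x y hx hy)
  obtain ⟨-, hx0, hy0⟩ := hm0
  simp only at hx0 hy0
  have sd := fun z hz => Vout_side hA hS t0 (z := z) hz
  have hx1 : x0 ∈ Set.Ioo (-(π / 2)) (π / 2) := by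
    constructor
    · rcases hx0.1.eq_or_lt with h | h
      · exfalso; rw [← h] at hbig; linarith [(sd y0 hy0).2.1]
      · exact h
    · rcases hx0.2.eq_or_lt with h | h
      · exfalso; rw [h] at hbig; linarith [(sd y0 hy0).1]
      · exact h
  have hy1 : y0 ∈ Set.Ioo (-(π / 2)) (π / 2) := by
    constructor
    · rcases hy0.1.eq_or_lt with h | h
      · exfalso; rw [← h] at hbig; linarith [(sd x0 hx0).2.2.2]
      · exact h
    · rcases hy0.2.eq_or_lt with h | h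
      · exfalso; rw [h] at hbig; linarith [(sd x0 hx0).2.2.1]
      · exact h
  have hcx := cos_pos_of_mem_Ioo hx1
  have hcy := cos_pos_of_mem_Ioo hy1
  have hu1 : u θ x0 y0 ≠ 1 := (u_lt_one hθ1 hcx hcy).ne
  have hu2 : u θ x0 y0 ≠ -1 := (neg_one_lt_u hθ2 hcx hcy).ne'
  -- derivatives
  have d0 : ∀ a b c : ℝ, HasDerivAt (fun s => Vout A θ (t0 + s * a) (x0 + s * b) (y0 + s * c))
      (ρ ((t0 + θ - Pi θ x0 y0 + y0) / 2) ^ 2 / 2 *
          ((a - (b * X θ x0 y0 - c * Y θ x0 y0) + c) / 2) +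
        ρ ((t0 + θ - Pi θ x0 y0 - y0) / 2) ^ 2 / 2 *
          ((a - (b * X θ x0 y0 - c * Y θ x0 y0) - c) / 2) -
        ρ ((t0 + x0) / 2) ^ 2 / 2 * ((a + b) / 2) - ρ ((t0 - x0) / 2) ^ 2 / 2 * ((a - b) / 2))
      0 := by
    intro a b c
    have lin : ∀ z w : ℝ, HasDerivAt (fun s : ℝ => z + s * w) w 0 := by
      intro z w
      simpa using ((hasDerivAt_id (0 : ℝ)).mul_const w).const_add z
    have hP := der_Pi θ (lin x0 b) (lin y0 c) (by simpa using hu2) (by simpa using hu1)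
    have := der_G hA θ (lin t0 a) (lin x0 b) (lin y0 c) hP
    simpa [Vout] using this
  have crit : ∀ a b c : ℝ, (ρ ((t0 + θ - Pi θ x0 y0 + y0) / 2) ^ 2 / 2 *
          ((a - (b * X θ x0 y0 - c * Y θ x0 y0) + c) / 2) +
        ρ ((t0 + θ - Pi θ x0 y0 - y0) / 2) ^ 2 / 2 *
          ((a - (b * X θ x0 y0 - c * Y θ x0 y0) - c) / 2) -
        ρ ((t0 + x0) / 2) ^ 2 / 2 * ((a + b) / 2) - ρ ((t0 - x0) / 2) ^ 2 / 2 * ((a - b) / 2))
      = 0 := by
    intro a b c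
    refine IsLocalMax.hasDerivAt_eq_zero ?_ (d0 a b c)
    have cx : ContinuousAt (fun s : ℝ => x0 + s * b) 0 := by fun_prop
    have cy : ContinuousAt (fun s : ℝ => y0 + s * c) 0 := by fun_prop
    have ex := cx.eventually_mem (s := Set.Ioo (-(π / 2)) (π / 2))
      (by simpa using isOpen_Ioo.mem_nhds hx1)
    have ey := cy.eventually_mem (s := Set.Ioo (-(π / 2)) (π / 2))
      (by simpa using isOpen_Ioo.mem_nhds hy1)
    filter_upwards [ex, ey] with s h1 h2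
    simp only [zero_mul, add_zero]
    exact hmx _ _ _ (Set.Ioo_subset_Icc_self h1) (Set.Ioo_subset_Icc_self h2)
  have c1 := crit 1 0 0
  have c2 := crit 0 1 0
  have c3 := crit 0 0 1
  refine hno (crit_out (A := A) hρ hθ hx1 hy1 (by linarith) (by linarith) ?_ ?_)
  · linear_combination (-4 : ℝ) * c2 - (4 * X θ x0 y0) * c1
  · linear_combination (4 : ℝ) * c3

end

end Pool.Agent.Star77b
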