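import Pool.Agent.Work.MP_7ec17a_gt_S2.Fields

/-! The push map. -/

namespace Pool.Agent.Star77b

open Real Set

noncomputable section

/-- Abstract mountain pass by iteration. -/
theorem iterate_push {E : Type*} [TopologicalSpace E] {Tm : E → E} (hT : Continuous Tm)
    {V g : E → ℝ} (hg : Continuous g) {S Zp Zm : Set E} {m M δ : ℝ} (hδ : 0 < δ)
    (hS : ∀ p ∈ S, Tm p ∈ S) (hZp : ∀ p ∈ S, p ∈ Zp → Tm p ∈ Zp)
    (hZm : ∀ p ∈ S, p ∈ Zm → Tm p ∈ Zm) (hgp : ∀ p ∈ Zp, 0 < g p) (hgm : ∀ p ∈ Zm, g p < 0)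
    (hM : ∀ p ∈ S, V p ≤ M)
    (hup : ∀ p ∈ S, m ≤ V p → p ∉ Zp → p ∉ Zm → V p + δ ≤ V (Tm p))
    {γ : ℝ → E} (hγ : Continuous γ) {a b : ℝ} (hab : a ≤ b) (hγS : ∀ s ∈ Icc a b, γ s ∈ S)
    (hγV : ∀ s ∈ Icc a b, m ≤ V (γ s)) (ha : γ a ∈ Zm) (hb : γ b ∈ Zp) : False := by
  have hSn : ∀ n : ℕ, ∀ p ∈ S, Tm^[n] p ∈ S := by
    intro n
    induction n with
    | zero => intro p hp; simpa using hp
    | succ n ih => intro p hp; rw [Function.iterate_succ_apply']; exact hS _ (ih p hp)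
  have hZpn : ∀ n : ℕ, ∀ p ∈ S, p ∈ Zp → Tm^[n] p ∈ Zp := by
    intro n
    induction n with
    | zero => intro p hp hz; simpa using hz
    | succ n ih => intro p hp hz; rw [Function.iterate_succ_apply']; exact hZp _ (hSn n p hp) (ih p hp hz)
  have hZmn : ∀ n : ℕ, ∀ p ∈ S, p ∈ Zm → Tm^[n] p ∈ Zm := by
    intro n
    induction n with
    | zero => intro p hp hz; simpa using hz
    | succ n ih => intro p hp hz; rw [Function.iterate_succ_apply']; exact hZm _ (hSn n p hp) (ih p hp hz)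
  obtain ⟨n, hn⟩ := exists_nat_gt ((M - m) / δ)
  have hn' : M < m + n * δ := by
    rw [div_lt_iff₀ hδ] at hn; linarith
  have hc : Continuous fun s => g (Tm^[n] (γ s)) := hg.comp ((hT.iterate n).comp hγ)
  have h0 : (0 : ℝ) ∈ Icc (g (Tm^[n] (γ a))) (g (Tm^[n] (γ b))) :=
    ⟨(hgm _ (hZmn n _ (hγS a ⟨le_rfl, hab⟩) ha)).le,
      (hgp _ (hZpn n _ (hγS b ⟨hab, le_rfl⟩) hb)).le⟩
  obtain ⟨s, hs, hs0⟩ := intermediate_value_Icc hab hc.continuousOn h0
  have key : ∀ k : ℕ, k ≤ n → m + k * δ ≤ V (Tm^[k] (γ s)) := by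
    intro k
    induction k with
    | zero => intro _; simpa using hγV s hs
    | succ k ih =>
      intro hk
      have h1 := ih (by omega)
      have h2 : Tm^[n] (γ s) = Tm^[n - k] (Tm^[k] (γ s)) := by
        rw [← Function.iterate_add_apply]; congr 2; omega
      have h3 : Tm^[k] (γ s) ∉ Zp := by
        intro hz
        have := hgp _ (hZpn (n - k) _ (hSn k _ (hγS s hs)) hz)
        rw [← h2] at this
        simp only at hs0
        linarith
      have h4 : Tm^[k] (γ s) ∉ Zm := by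
        intro hz
        have := hgm _ (hZmn (n - k) _ (hSn k _ (hγS s hs)) hz)
        rw [← h2] at this
        simp only at hs0
        linarith
      have h5 : 0 ≤ (k : ℝ) * δ := by positivity
      have h6 := hup _ (hSn k _ (hγS s hs)) (by linarith) h3 h4
      rw [Function.iterate_succ_apply']
      push_cast
      linarith
  have h7 := key n le_rfl
  have h8 := hM _ (hSn n _ (hγS s hs))
  linarith

variable {W : Type*} [TopologicalSpace W]

theorem cA_u {θ : ℝ} {x y : W → ℝ} {w : W} (hx : ContinuousAt x w) (hy : ContinuousAt y w) :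
    ContinuousAt (fun w => u θ (x w) (y w)) w := by
  unfold u
  fun_prop

theorem cA_X {θ : ℝ} {x y : W → ℝ} {w : W} (hx : ContinuousAt x w) (hy : ContinuousAt y w)
    (h : 0 < √(1 - u θ (x w) (y w) ^ 2)) : ContinuousAt (fun w => X θ (x w) (y w)) w := by
  unfold X
  have hu := cA_u (θ := θ) hx hy
  refine ContinuousAt.div (by fun_prop) ?_ h.ne'
  exact (continuousAt_const.sub (hu.pow 2)).sqrt

theorem cA_Y {θ : ℝ} {x y : W → ℝ} {w : W} (hx : ContinuousAt x w) (hy : ContinuousAt y w)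
    (h : 0 < √(1 - u θ (x w) (y w) ^ 2)) : ContinuousAt (fun w => Y θ (x w) (y w)) w := by
  unfold Y
  have hu := cA_u (θ := θ) hx hy
  refine ContinuousAt.div (by fun_prop) ?_ h.ne'
  exact (continuousAt_const.sub (hu.pow 2)).sqrt

theorem cA_Pi {θ : ℝ} {x y : W → ℝ} {w : W} (hx : ContinuousAt x w) (hy : ContinuousAt y w) :
    ContinuousAt (fun w => Pi θ (x w) (y w)) w := by
  unfold Pi
  exact continuous_arccos.continuousAt.comp (cA_u hx hy)

theorem cA_H {h : ℝ → ℝ} (hh : Continuous h) {θ : ℝ} {t x y : W → ℝ} {w : W}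
    (ht : ContinuousAt t w) (hx : ContinuousAt x w) (hy : ContinuousAt y w) :
    ContinuousAt (fun w => H1 h (t w) (x w)) w ∧ ContinuousAt (fun w => H2 h (t w) (x w)) w ∧
    ContinuousAt (fun w => H3 h θ (t w) (x w) (y w)) w ∧
    ContinuousAt (fun w => H4 h θ (t w) (x w) (y w)) w := by
  unfold H1 H2 H3 H4
  have hP := cA_Pi (θ := θ) hx hy
  refine ⟨hh.continuousAt.comp (by fun_prop), hh.continuousAt.comp (by fun_prop),
    hh.continuousAt.comp (by fun_prop), hh.continuousAt.comp (by fun_prop)⟩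

theorem cA_F {h : ℝ → ℝ} (hh : Continuous h) {θ : ℝ} {t x y : W → ℝ} {w : W}
    (ht : ContinuousAt t w) (hx : ContinuousAt x w) (hy : ContinuousAt y w)
    (hu : 0 < √(1 - u θ (x w) (y w) ^ 2)) :
    ContinuousAt (fun w => F0 h θ (t w) (x w) (y w)) w ∧
    ContinuousAt (fun w => F1 h θ (t w) (x w) (y w)) w ∧
    ContinuousAt (fun w => F2 h θ (t w) (x w) (y w)) w := by
  obtain ⟨a1, a2, a3, a4⟩ := cA_H (θ := θ) hh ht hx hy
  have hX := cA_X hx hy hu
  have hY := cA_Y hx hy hu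
  unfold F0 F1 F2
  refine ⟨by fun_prop, by fun_prop, by fun_prop⟩

theorem cA_DV {h : ℝ → ℝ} (hh : Continuous h) {θ : ℝ} {t x y a b c : W → ℝ} {w : W}
    (ht : ContinuousAt t w) (hx : ContinuousAt x w) (hy : ContinuousAt y w)
    (ha : ContinuousAt a w) (hb : ContinuousAt b w) (hc : ContinuousAt c w)
    (hu : 0 < √(1 - u θ (x w) (y w) ^ 2)) :
    ContinuousAt (fun w => DV h θ (t w) (x w) (y w) (a w) (b w) (c w)) w := by
  obtain ⟨f0, f1, f2⟩ := cA_F hh ht hx hy hu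
  have hX := cA_X hx hy hu
  unfold DV
  fun_prop

def vb (h : ℝ → ℝ) (θ e t x y : ℝ) : ℝ :=
  (e - x) * max (F1 h θ t x y) 0 - (e + x) * max (-(F1 h θ t x y)) 0
def vc (h : ℝ → ℝ) (θ e t x y : ℝ) : ℝ :=
  (e - y) * max (F2 h θ t x y) 0 - (e + y) * max (-(F2 h θ t x y)) 0
def va (h : ℝ → ℝ) (θ e t x y : ℝ) : ℝ := F0 h θ t x y - X θ x y * vb h θ e t x y

def clp (e x : ℝ) : ℝ := max (-e) (min x e)

theorem clp_of_mem {e x : ℝ} (hx : x ∈ Icc (-e) e) : clp e x = x := by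
  unfold clp; rw [min_eq_left hx.2, max_eq_right hx.1]

theorem clp_mem {e : ℝ} (he : 0 < e) (x : ℝ) : clp e x ∈ Icc (-e) e := by
  unfold clp
  exact ⟨le_max_left _ _, max_le (by linarith) (min_le_right _ _)⟩

theorem continuous_clp (e : ℝ) : Continuous (clp e) := by
  unfold clp; fun_prop

def Tm (h : ℝ → ℝ) (θ e τ : ℝ) (p : ℝ × ℝ × ℝ) : ℝ × ℝ × ℝ :=
  (p.1 + τ * va h θ e p.1 (clp e p.2.1) (clp e p.2.2),
    clp e p.2.1 + τ * vb h θ e p.1 (clp e p.2.1) (clp e p.2.2),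
    clp e p.2.2 + τ * vc h θ e p.1 (clp e p.2.1) (clp e p.2.2))

theorem cA_v {h : ℝ → ℝ} (hh : Continuous h) {θ e : ℝ} {t x y : W → ℝ} {w : W}
    (ht : ContinuousAt t w) (hx : ContinuousAt x w) (hy : ContinuousAt y w)
    (hu : 0 < √(1 - u θ (x w) (y w) ^ 2)) :
    ContinuousAt (fun w => va h θ e (t w) (x w) (y w)) w ∧
    ContinuousAt (fun w => vb h θ e (t w) (x w) (y w)) w ∧
    ContinuousAt (fun w => vc h θ e (t w) (x w) (y w)) w := by
  obtain ⟨f0, f1, f2⟩ := cA_F hh ht hx hy hu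
  have hX := cA_X hx hy hu
  unfold va vb vc
  refine ⟨by fun_prop, by fun_prop, by fun_prop⟩

/-- positivity of the square root in the open square -/
theorem sqrt_pos_of {θ x y : ℝ} (hθ : θ ∈ Ioo 0 π) (hx : x ∈ Ioo (-(π / 2)) (π / 2))
    (hy : y ∈ Ioo (-(π / 2)) (π / 2)) : 0 < √(1 - u θ x y ^ 2) := by
  have hpi := pi_pos
  have hcx := cos_pos_of_mem_Ioo hx
  have hcy := cos_pos_of_mem_Ioo hy
  have hθ1 : cos θ < 1 := by
    rw [← cos_zero]
    exact cos_lt_cos_of_nonneg_of_le_pi le_rfl hθ.2.le hθ.1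
  have hθ2 : -1 < cos θ := by
    rw [← cos_pi]
    exact cos_lt_cos_of_nonneg_of_le_pi hθ.1.le le_rfl hθ.2
  have u1 := u_lt_one hθ1 hcx hcy
  have u2 := neg_one_lt_u hθ2 hcx hcy
  apply sqrt_pos.2; nlinarith

theorem Icc_sub_Ioo {e x : ℝ} (he : e < π / 2) (hx : x ∈ Icc (-e) e) :
    x ∈ Ioo (-(π / 2)) (π / 2) := ⟨by linarith [hx.1], by linarith [hx.2]⟩

theorem continuous_Tm {h : ℝ → ℝ} (hh : Continuous h) {θ e : ℝ} (hθ : θ ∈ Ioo 0 π)
    (he0 : 0 < e) (he : e < π / 2) (τ : ℝ) : Continuous (Tm h θ e τ) := by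
  rw [continuous_iff_continuousAt]
  intro p
  have hc := continuous_clp e
  obtain ⟨a1, a2, a3⟩ := cA_v (e := e) hh (θ := θ) (t := fun p : ℝ × ℝ × ℝ => p.1)
    (x := fun p : ℝ × ℝ × ℝ => clp e p.2.1) (y := fun p : ℝ × ℝ × ℝ => clp e p.2.2) (w := p)
    (by fun_prop) (by fun_prop) (by fun_prop)
    (sqrt_pos_of hθ (Icc_sub_Ioo he (clp_mem he0 _)) (Icc_sub_Ioo he (clp_mem he0 _)))
  unfold Tm
  have b1 : Continuous fun p : ℝ × ℝ × ℝ => clp e p.2.1 := by fun_prop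
  have b2 : Continuous fun p : ℝ × ℝ × ℝ => clp e p.2.2 := by fun_prop
  exact ((continuousAt_fst).add (continuousAt_const.mul a1)).prodMk
    ((b1.continuousAt.add (continuousAt_const.mul a2)).prodMk
      (b2.continuousAt.add (continuousAt_const.mul a3)))

/-- the field pushes up -/
theorem DV_v (h : ℝ → ℝ) (θ e t x y : ℝ) :
    DV h θ t x y (va h θ e t x y) (vb h θ e t x y) (vc h θ e t x y) =
      F0 h θ t x y ^ 2 + F1 h θ t x y * vb h θ e t x y + F2 h θ t x y * vc h θ e t x y := by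
  unfold DV va; ring

theorem mul_push {e x F : ℝ} (he : 0 < e) (hx : x ∈ Icc (-e) e) :
    0 ≤ F * ((e - x) * max F 0 - (e + x) * max (-F) 0) ∧
      (F * ((e - x) * max F 0 - (e + x) * max (-F) 0) = 0 →
        F = 0 ∨ (0 < F ∧ x = e) ∨ (F < 0 ∧ x = -e)) := by
  have h1 : 0 ≤ e - x := by linarith [hx.2]
  have h2 : 0 ≤ e + x := by linarith [hx.1]
  rcases lt_trichotomy F 0 with h | h | h
  · rw [max_eq_right h.le, max_eq_left (by linarith)]
    have e1 : F * ((e - x) * 0 - (e + x) * -F) = (e + x) * F ^ 2 := by ring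
    rw [e1]
    refine ⟨by positivity, fun h0 => Or.inr (Or.inr ⟨h, ?_⟩)⟩
    have : F ^ 2 ≠ 0 := pow_ne_zero 2 h.ne
    have := (mul_eq_zero.1 h0).resolve_right this
    linarith
  · subst h
    simp
  · rw [max_eq_left h.le, max_eq_right (by linarith)]
    have e1 : F * ((e - x) * F - (e + x) * 0) = (e - x) * F ^ 2 := by ring
    rw [e1]
    refine ⟨by positivity, fun h0 => Or.inr (Or.inl ⟨h, ?_⟩)⟩
    have : F ^ 2 ≠ 0 := by positivity
    have := (mul_eq_zero.1 h0).resolve_right this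
    linarith

/-- the push stays in the square -/
theorem push_mem {e x F τ B : ℝ} (hx : x ∈ Icc (-e) e) (hτ : 0 ≤ τ) (hB : |F| ≤ B)
    (hτB : τ * B ≤ 1) :
    x + τ * ((e - x) * max F 0 - (e + x) * max (-F) 0) ∈ Icc (-e) e := by
  have h1 : 0 ≤ e - x := by linarith [hx.2]
  have h2 : 0 ≤ e + x := by linarith [hx.1]
  have h3 : max F 0 ≤ B := max_le ((le_abs_self F).trans hB) ((abs_nonneg F).trans hB)
  have h4 : max (-F) 0 ≤ B := max_le ((neg_le_abs F).trans hB) ((abs_nonneg F).trans hB)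
  have h5 : 0 ≤ max F 0 := le_max_right _ _
  have h6 : 0 ≤ max (-F) 0 := le_max_right _ _
  have h7 : τ * max F 0 ≤ 1 := (mul_le_mul_of_nonneg_left h3 hτ).trans hτB
  have h8 : τ * max (-F) 0 ≤ 1 := (mul_le_mul_of_nonneg_left h4 hτ).trans hτB
  have h9 : (e - x) * (τ * max F 0) ≤ (e - x) * 1 := mul_le_mul_of_nonneg_left h7 h1
  have h10 : (e + x) * (τ * max (-F) 0) ≤ (e + x) * 1 := mul_le_mul_of_nonneg_left h8 h2
  have h11 : 0 ≤ (e - x) * (τ * max F 0) := by positivity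
  have h12 : 0 ≤ (e + x) * (τ * max (-F) 0) := by positivity
  constructor <;> linarith

theorem push_ge {e x F τ : ℝ} (hx : x ∈ Icc (-e) e) (hτ : 0 ≤ τ) (hF : 0 < F) :
    x ≤ x + τ * ((e - x) * max F 0 - (e + x) * max (-F) 0) := by
  rw [max_eq_left hF.le, max_eq_right (by linarith)]
  have h1 : 0 ≤ e - x := by linarith [hx.2]
  have : 0 ≤ τ * ((e - x) * F) := by positivity
  linarith

theorem push_le {e x F τ : ℝ} (hx : x ∈ Icc (-e) e) (hτ : 0 ≤ τ) (hF : F < 0) :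
    x + τ * ((e - x) * max F 0 - (e + x) * max (-F) 0) ≤ x := by
  rw [max_eq_right hF.le, max_eq_left (by linarith)]
  have h1 : 0 ≤ e + x := by linarith [hx.1]
  have : 0 ≤ τ * ((e + x) * -F) := mul_nonneg hτ (mul_nonneg h1 (by linarith))
  linarith

end

end Pool.Agent.Star77b
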