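import Mathlib

/-! Directions of rectangles: the critical point equations of the area functional give a
rectangle. -/

namespace Pool.Agent.Star77b

open Real

/-- The algebra: `c ρ1 S2 = s ρ2 C1` and `c ρ1 cos e = ρ3 C1`. -/
theorem alg_side {c s ce ce' sP S1 S2 C1 C2 r1 r2 r3 r4 : ℝ}
    (hc : 0 < c) (hs : 0 < s) (hr1 : 0 < r1) (hr2 : 0 < r2) (hr3 : 0 < r3) (_hr4 : 0 < r4)
    (hS12 : S1 * S2 = s ^ 2 * (ce * ce')) (hC12 : C1 * C2 = c ^ 2 * (ce * ce'))
    (hsum : S1 * C1 + S2 * C2 = sP * ce) (hsum' : S1 * C2 + S2 * C1 = sP * ce')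
    (hS1 : 0 < S1 * sP) (hS2 : 0 < S2 * sP) (hC1 : 0 < C1 * sP) (hC2 : 0 < C2 * sP)
    (hce : 0 < ce * sP) (hce' : 0 < ce' * sP)
    (hH : r1 ^ 2 + r2 ^ 2 = r3 ^ 2 + r4 ^ 2)
    (h12 : r1 ^ 2 * (S2 * C2) = r2 ^ 2 * (S1 * C1))
    (h34 : r3 ^ 2 * (S2 * C1) = r4 ^ 2 * (S1 * C2)) :
    c * r1 * S2 = s * r2 * C1 ∧ c * r1 * ce = r3 * C1 := by
  have hsP : sP ≠ 0 := by
    rintro rfl; simp at hce
  have hS1' : S1 ≠ 0 := by rintro rfl; simp at hS1
  have hS2' : S2 ≠ 0 := by rintro rfl; simp at hS2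
  have hC1' : C1 ≠ 0 := by rintro rfl; simp at hC1
  have hC2' : C2 ≠ 0 := by rintro rfl; simp at hC2
  have hce0 : ce ≠ 0 := by rintro rfl; simp at hce
  have hce0' : ce' ≠ 0 := by rintro rfl; simp at hce'
  have key : ∀ a b : ℝ, 0 < a * sP → 0 < b * sP → a ^ 2 = b ^ 2 → a = b := by
    intro a b ha hb hab
    rcases eq_or_eq_neg_of_sq_eq_sq a b hab with h | h
    · exact h
    · subst h
      have : -b * sP = -(b * sP) := by ring
      rw [this] at ha
      linarith
  constructor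
  · apply key
    · have : c * r1 * S2 * sP = (c * r1) * (S2 * sP) := by ring
      rw [this]; positivity
    · have : s * r2 * C1 * sP = (s * r2) * (C1 * sP) := by ring
      rw [this]; positivity
    · have h : C2 * ((c * r1 * S2) ^ 2 - (s * r2 * C1) ^ 2) = 0 := by
        have e1 : C2 * (c * r1 * S2) ^ 2 = c ^ 2 * S2 * (r1 ^ 2 * (S2 * C2)) := by ring
        have e2 : c ^ 2 * S2 * (r2 ^ 2 * (S1 * C1)) = c ^ 2 * r2 ^ 2 * C1 * (S1 * S2) := by ring
        have e3 : C2 * (s * r2 * C1) ^ 2 = s ^ 2 * r2 ^ 2 * C1 * (C1 * C2) := by ring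
        rw [mul_sub, e1, h12, e2, hS12, e3, hC12]; ring
      have := (mul_eq_zero.1 h).resolve_left hC2'
      linarith
  · apply key
    · have : c * r1 * ce * sP = (c * r1) * (ce * sP) := by ring
      rw [this]; positivity
    · have : r3 * C1 * sP = r3 * (C1 * sP) := by ring
      rw [this]; positivity
    · -- r1 ^ 2 * ce * C2 = r3 ^ 2 * ce' * C1
      have h5 : r1 ^ 2 * (ce * C2) = r3 ^ 2 * (ce' * C1) := by
        have hA : (r1 ^ 2 + r2 ^ 2) * (S1 * C1) = r1 ^ 2 * (sP * ce) := by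
          rw [← hsum]; linear_combination (-1 : ℝ) * h12
        have hB : (r3 ^ 2 + r4 ^ 2) * (S1 * C2) = r3 ^ 2 * (sP * ce') := by
          rw [← hsum']; linear_combination (-1 : ℝ) * h34
        have hAB : S1 * sP * (r1 ^ 2 * (ce * C2) - r3 ^ 2 * (ce' * C1)) = 0 := by
          linear_combination (-(S1 * C2)) * hA + S1 * C1 * hB + (S1 * C2) * (S1 * C1) * hH
        have := (mul_eq_zero.1 hAB).resolve_left (by positivity)
        linarith
      have h6 : ce' * ((c * r1 * ce) ^ 2 - (r3 * C1) ^ 2) = 0 := by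
        linear_combination (-(r1 ^ 2 * ce)) * hC12 + C1 * h5
      have := (mul_eq_zero.1 h6).resolve_left hce0'
      linarith

/-- Trigonometric facts about the four half angles. -/
theorem trig_S12 {P e e' θ : ℝ} (hP : cos P = cos θ * (cos e * cos e') + sin e * sin e') :
    sin ((P - e + e') / 2) * sin ((P + e - e') / 2) = sin (θ / 2) ^ 2 * (cos e * cos e') := by
  have h1 : (P - e + e') / 2 = P / 2 - (e - e') / 2 := by ring
  have h2 : (P + e - e') / 2 = P / 2 + (e - e') / 2 := by ring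
  have h3 : sin (P / 2 - (e - e') / 2) * sin (P / 2 + (e - e') / 2) =
      (cos (e - e') - cos P) / 2 := by
    have e1 : cos (e - e') = 2 * cos ((e - e') / 2) ^ 2 - 1 := by
      rw [← cos_two_mul]; ring_nf
    have e2 : cos P = 2 * cos (P / 2) ^ 2 - 1 := by
      rw [← cos_two_mul]; ring_nf
    rw [sin_sub, sin_add, e1, e2]
    have e3 := sin_sq_add_cos_sq (P / 2)
    have e4 := sin_sq_add_cos_sq ((e - e') / 2)
    nlinarith
  rw [h1, h2, h3, hP, cos_sub]
  have h4 : cos θ = 1 - 2 * sin (θ / 2) ^ 2 := by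
    have := cos_two_mul (θ / 2)
    have e3 := sin_sq_add_cos_sq (θ / 2)
    have e5 : 2 * (θ / 2) = θ := by ring
    rw [e5] at this
    linarith
  rw [h4]; ring

theorem trig_C12 {P e e' θ : ℝ} (hP : cos P = cos θ * (cos e * cos e') + sin e * sin e') :
    cos ((P - e - e') / 2) * cos ((P + e + e') / 2) = cos (θ / 2) ^ 2 * (cos e * cos e') := by
  have h1 : (P - e - e') / 2 = P / 2 - (e + e') / 2 := by ring
  have h2 : (P + e + e') / 2 = P / 2 + (e + e') / 2 := by ring
  have h3 : cos (P / 2 - (e + e') / 2) * cos (P / 2 + (e + e') / 2) =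
      (cos (e + e') + cos P) / 2 := by
    have e1 : cos (e + e') = 2 * cos ((e + e') / 2) ^ 2 - 1 := by
      rw [← cos_two_mul]; ring_nf
    have e2 : cos P = 2 * cos (P / 2) ^ 2 - 1 := by
      rw [← cos_two_mul]; ring_nf
    rw [cos_sub, cos_add, e1, e2]
    have e3 := sin_sq_add_cos_sq (P / 2)
    have e4 := sin_sq_add_cos_sq ((e + e') / 2)
    nlinarith
  rw [h1, h2, h3, hP, cos_add]
  have h4 : cos θ = 2 * cos (θ / 2) ^ 2 - 1 := by
    have := cos_two_mul (θ / 2)
    have e5 : 2 * (θ / 2) = θ := by ring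
    rw [e5] at this
    linarith
  rw [h4]; ring

theorem two_sin_cos (a b : ℝ) : 2 * (sin a * cos b) = sin (a + b) + sin (a - b) := by
  rw [sin_add, sin_sub]; ring

/-- One of the two vertices. -/
theorem vertex {θ t e e' P r1 r2 r3 r4 : ℝ}
    (hc : 0 < cos (θ / 2)) (hs : 0 < sin (θ / 2))
    (hP : cos P = cos θ * (cos e * cos e') + sin e * sin e')
    (hr1 : 0 < r1) (hr2 : 0 < r2) (hr3 : 0 < r3) (hr4 : 0 < r4)
    (hS1 : 0 < sin ((P - e + e') / 2) * sin P) (hS2 : 0 < sin ((P + e - e') / 2) * sin P)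
    (hC1 : 0 < cos ((P - e - e') / 2) * sin P) (hC2 : 0 < cos ((P + e + e') / 2) * sin P)
    (hce : 0 < cos e * sin P) (hce' : 0 < cos e' * sin P)
    (hH : r1 ^ 2 + r2 ^ 2 = r3 ^ 2 + r4 ^ 2)
    (h12 : r1 ^ 2 * (sin P + (cos θ * (sin e * cos e') - cos e * sin e')) =
      r2 ^ 2 * (sin P - (cos θ * (sin e * cos e') - cos e * sin e')))
    (h34 : r3 ^ 2 * (sin P - (cos θ * (cos e * sin e') - sin e * cos e')) =
      r4 ^ 2 * (sin P + (cos θ * (cos e * sin e') - sin e * cos e'))) :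
    (r3 : ℂ) * Complex.exp (((t + θ - P + e') / 2 : ℝ) * Complex.I) =
      Complex.exp ((θ / 2 : ℝ) * Complex.I) *
        ((cos (θ / 2) : ℝ) * (r1 * Complex.exp (((t + e) / 2 : ℝ) * Complex.I)) -
          Complex.I * (sin (θ / 2) : ℝ) * (r2 * Complex.exp (((t - e) / 2 : ℝ) * Complex.I))) := by
  set S1 := sin ((P - e + e') / 2) with hS1d
  set S2 := sin ((P + e - e') / 2) with hS2d
  set C1 := cos ((P - e - e') / 2) with hC1d
  set C2 := cos ((P + e + e') / 2) with hC2d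
  have pe := sin_sq_add_cos_sq e
  have pe' := sin_sq_add_cos_sq e'
  -- the four products
  have f1 : 2 * (S1 * C1) = cos e *
      (sin P - (cos θ * (sin e * cos e') - cos e * sin e')) := by
    rw [hS1d, hC1d, two_sin_cos]
    have a1 : (P - e + e') / 2 + (P - e - e') / 2 = P - e := by ring
    have a2 : (P - e + e') / 2 - (P - e - e') / 2 = e' := by ring
    rw [a1, a2, sin_sub, hP]
    linear_combination (-(sin e')) * pe
  have f2 : 2 * (S2 * C2) = cos e *
      (sin P + (cos θ * (sin e * cos e') - cos e * sin e')) := by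
    rw [hS2d, hC2d, two_sin_cos]
    have a1 : (P + e - e') / 2 + (P + e + e') / 2 = P + e := by ring
    have a2 : (P + e - e') / 2 - (P + e + e') / 2 = -e' := by ring
    rw [a1, a2, sin_add, sin_neg, hP]
    linear_combination (sin e') * pe
  have f3 : 2 * (S1 * C2) = cos e' *
      (sin P + (cos θ * (cos e * sin e') - sin e * cos e')) := by
    rw [hS1d, hC2d, two_sin_cos]
    have a1 : (P - e + e') / 2 + (P + e + e') / 2 = P + e' := by ring
    have a2 : (P - e + e') / 2 - (P + e + e') / 2 = -e := by ring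
    rw [a1, a2, sin_add, sin_neg, hP]
    linear_combination (sin e) * pe'
  have f4 : 2 * (S2 * C1) = cos e' *
      (sin P - (cos θ * (cos e * sin e') - sin e * cos e')) := by
    rw [hS2d, hC1d, two_sin_cos]
    have a1 : (P + e - e') / 2 + (P - e - e') / 2 = P - e' := by ring
    have a2 : (P + e - e') / 2 - (P - e - e') / 2 = e := by ring
    rw [a1, a2, sin_sub, hP]
    linear_combination (-(sin e)) * pe'
  have hA := alg_side (c := cos (θ / 2)) (s := sin (θ / 2)) (ce := cos e) (ce' := cos e')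
    (sP := sin P) (S1 := S1) (S2 := S2) (C1 := C1) (C2 := C2) (r1 := r1) (r2 := r2) (r3 := r3)
    (r4 := r4) hc hs hr1 hr2 hr3 hr4 (trig_S12 hP) (trig_C12 hP) (by linarith) (by linarith)
    hS1 hS2 hC1 hC2 hce hce' hH
    (by linear_combination (r1 ^ 2 / 2) * f2 - (r2 ^ 2 / 2) * f1 + cos e / 2 * h12)
    (by linear_combination (r3 ^ 2 / 2) * f4 - (r4 ^ 2 / 2) * f3 + cos e' / 2 * h34)
  obtain ⟨g1, g2⟩ := hA
  -- real part
  have hC1n : C1 ≠ 0 := by
    intro h; rw [h] at hC1; simp at hC1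
  have g3 : cos (θ / 2) * r1 * cos ((P + e - e') / 2) + sin (θ / 2) * r2 *
      sin ((P - e - e') / 2) = r3 := by
    have a1 : cos ((P + e - e') / 2) * C1 + S2 * sin ((P - e - e') / 2) = cos e := by
      rw [hC1d, hS2d, ← cos_sub]; ring_nf
    have : C1 * (cos (θ / 2) * r1 * cos ((P + e - e') / 2) + sin (θ / 2) * r2 *
      sin ((P - e - e') / 2) - r3) = 0 := by
      linear_combination (-(sin ((P - e - e') / 2))) * g1 + g2 + cos (θ / 2) * r1 * a1
    have := (mul_eq_zero.1 this).resolve_left hC1n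
    linarith
  -- rewrite the exponentials
  have x1 : Complex.exp ((θ / 2 : ℝ) * Complex.I) * Complex.exp (((t + e) / 2 : ℝ) * Complex.I)
      = Complex.exp (((t + θ - P + e') / 2 : ℝ) * Complex.I) *
        Complex.exp (((P + e - e') / 2 : ℝ) * Complex.I) := by
    rw [← Complex.exp_add, ← Complex.exp_add]; congr 1; push_cast; ring
  have x2 : Complex.exp ((θ / 2 : ℝ) * Complex.I) * Complex.exp (((t - e) / 2 : ℝ) * Complex.I)
      = Complex.exp (((t + θ - P + e') / 2 : ℝ) * Complex.I) *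
        Complex.exp (((P - e - e') / 2 : ℝ) * Complex.I) := by
    rw [← Complex.exp_add, ← Complex.exp_add]; congr 1; push_cast; ring
  have x3 : Complex.exp (((P + e - e') / 2 : ℝ) * Complex.I) =
      (cos ((P + e - e') / 2) : ℝ) + (S2 : ℝ) * Complex.I := by
    rw [Complex.exp_mul_I, hS2d, Complex.ofReal_cos, Complex.ofReal_sin]
  have x4 : Complex.exp (((P - e - e') / 2 : ℝ) * Complex.I) =
      (C1 : ℝ) + (sin ((P - e - e') / 2) : ℝ) * Complex.I := by
    rw [Complex.exp_mul_I, hC1d, Complex.ofReal_cos, Complex.ofReal_sin]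
  have x5 : Complex.exp ((θ / 2 : ℝ) * Complex.I) *
        ((cos (θ / 2) : ℝ) * (r1 * Complex.exp (((t + e) / 2 : ℝ) * Complex.I)) -
          Complex.I * (sin (θ / 2) : ℝ) * (r2 * Complex.exp (((t - e) / 2 : ℝ) * Complex.I))) =
      (cos (θ / 2) : ℝ) * r1 * (Complex.exp ((θ / 2 : ℝ) * Complex.I) *
        Complex.exp (((t + e) / 2 : ℝ) * Complex.I)) -
      Complex.I * (sin (θ / 2) : ℝ) * r2 * (Complex.exp ((θ / 2 : ℝ) * Complex.I) *
        Complex.exp (((t - e) / 2 : ℝ) * Complex.I)) := by ring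
  rw [x5, x1, x2, x3, x4]
  have g1' : (cos (θ / 2) : ℂ) * r1 * S2 = sin (θ / 2) * r2 * C1 := by exact_mod_cast g1
  have g3' : (cos (θ / 2) : ℂ) * r1 * (cos ((P + e - e') / 2) : ℝ) + (sin (θ / 2) : ℝ) * r2 *
      (sin ((P - e - e') / 2) : ℝ) = r3 := by exact_mod_cast g3
  linear_combination (-(Complex.exp (((t + θ - P + e') / 2 : ℝ) * Complex.I))) * g3' -
    (Complex.exp (((t + θ - P + e') / 2 : ℝ) * Complex.I) * Complex.I) * g1' +
    (Complex.exp (((t + θ - P + e') / 2 : ℝ) * Complex.I) * (sin (θ / 2) : ℝ) * r2 *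
      (sin ((P - e - e') / 2) : ℝ)) * Complex.I_sq

/-- The rectangle. -/
theorem rect_final {c s : ℝ} (hc : 0 < c) {w z1 z2 z3 z4 : ℂ} (hw : w = c + s * Complex.I)
    (hcs : c ^ 2 + s ^ 2 = 1) (hz3 : z3 = w * (c * z1 - Complex.I * s * z2))
    (hz4 : z4 = w * (c * z2 - Complex.I * s * z1)) (hne : z1 ≠ z2) :
    z1 - z4 ≠ 0 ∧ z4 + (z1 - z4) = z1 ∧
      z4 + (z1 - z4) + Complex.I * ((s / c : ℝ) : ℂ) * (z1 - z4) = z3 ∧
      z4 + Complex.I * ((s / c : ℝ) : ℂ) * (z1 - z4) = z2 := by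
  have hc' : (c : ℂ) ≠ 0 := by exact_mod_cast hc.ne'
  have hcs' : (c : ℂ) ^ 2 + (s : ℂ) ^ 2 = 1 := by exact_mod_cast hcs
  have h1 : z1 - z4 = c * w * (z1 - z2) := by
    rw [hz4, hw]
    linear_combination (-z1) * hcs' + (z1 * s ^ 2) * Complex.I_sq
  have hw0 : w ≠ 0 := by
    intro h
    rw [hw] at h
    have := congrArg Complex.re h
    simp at this
    exact hc.ne' this
  refine ⟨?_, by ring, ?_, ?_⟩
  · rw [h1]
    exact mul_ne_zero (mul_ne_zero hc' hw0) (sub_ne_zero.2 hne)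
  · have h2 : z4 + (z1 - z4) + Complex.I * ((s / c : ℝ) : ℂ) * (z1 - z4) =
        z1 + Complex.I * s * w * (z1 - z2) := by
      have e1 : z4 + (z1 - z4) = z1 := by ring
      rw [e1, h1]; push_cast; field_simp
    rw [h2, hz3, hw]
    linear_combination (-z1) * hcs' + (z1 * s ^ 2) * Complex.I_sq
  · have h2 : z4 + Complex.I * ((s / c : ℝ) : ℂ) * (z1 - z4) =
        z4 + Complex.I * s * w * (z1 - z2) := by
      rw [h1]; push_cast; field_simp
    rw [h2, hz4, hw]
    linear_combination (z2) * hcs' + (-(z2 * s ^ 2)) * Complex.I_sq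

end Pool.Agent.Star77b
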