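import Pool.Agent.Work.MP_7ec17a_gt_S2.Push

/-! The sides of the square. -/

namespace Pool.Agent.Star77b

open Real Set

noncomputable section

theorem num_X (θ x y : ℝ) : 1 - u θ x y ^ 2 =
    (cos θ * (sin x * cos y) - cos x * sin y) ^ 2 + cos y ^ 2 * sin θ ^ 2 := by
  unfold u
  have i1 := sin_sq_add_cos_sq x
  have i2 := sin_sq_add_cos_sq y
  have i3 := sin_sq_add_cos_sq θ
  have j1 : sin x ^ 2 = 1 - cos x ^ 2 := by linarith
  have j2 : sin y ^ 2 = 1 - cos y ^ 2 := by linarith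
  have j3 : sin θ ^ 2 = 1 - cos θ ^ 2 := by linarith
  rw [j3]
  have e1 : (cos θ * (cos x * cos y) + sin x * sin y) ^ 2 +
      (cos θ * (sin x * cos y) - cos x * sin y) ^ 2 =
      (cos θ ^ 2 * cos y ^ 2 + sin y ^ 2) * (sin x ^ 2 + cos x ^ 2) := by ring
  rw [i1, mul_one, j2] at e1
  linarith

theorem num_Y (θ x y : ℝ) : 1 - u θ x y ^ 2 =
    (sin x * cos y - cos θ * (cos x * sin y)) ^ 2 + cos x ^ 2 * sin θ ^ 2 := by
  have := num_X θ y x
  rw [u_comm'] at this
  rw [this]; ring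
where
  u_comm' : u θ y x = u θ x y := by unfold u; ring

theorem abs_X_le {θ x y : ℝ} (h : 0 < √(1 - u θ x y ^ 2)) : |X θ x y| ≤ 1 := by
  unfold X
  rw [abs_div, abs_of_pos h, div_le_one h]
  apply abs_le_of_sq_le_sq' _ h.le |> abs_le.2
  rw [sq_sqrt (sqrt_pos.1 h).le, num_X]
  have : 0 ≤ cos y ^ 2 * sin θ ^ 2 := by positivity
  linarith

theorem abs_Y_le {θ x y : ℝ} (h : 0 < √(1 - u θ x y ^ 2)) : |Y θ x y| ≤ 1 := by
  unfold Y
  rw [abs_div, abs_of_pos h, div_le_one h]
  apply abs_le_of_sq_le_sq' _ h.le |> abs_le.2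
  rw [sq_sqrt (sqrt_pos.1 h).le, num_Y]
  have : 0 ≤ cos x ^ 2 * sin θ ^ 2 := by positivity
  linarith

theorem X_neg (θ x y : ℝ) : X θ (-x) (-y) = -X θ x y := by
  unfold X u
  simp only [sin_neg, cos_neg]
  have e1 : cos θ * (cos x * cos y) + -sin x * -sin y =
    cos θ * (cos x * cos y) + sin x * sin y := by ring
  rw [e1, ← neg_div]
  congr 1; ring

theorem Y_eq (θ x y : ℝ) : Y θ x y = X θ (-y) (-x) := by
  unfold X Y u
  simp only [sin_neg, cos_neg]
  have e1 : cos θ * (cos y * cos x) + -sin y * -sin x =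
    cos θ * (cos x * cos y) + sin x * sin y := by ring
  rw [e1]
  congr 1; ring

theorem Y_neg (θ x y : ℝ) : Y θ (-x) (-y) = -Y θ x y := by
  rw [Y_eq, Y_eq, X_neg]

/-- a point of the closed square which is not a corner -/
theorem sqrt_pos_closed {θ x y : ℝ} (hθ : θ ∈ Ioo 0 π) (hx : x ∈ Icc (-(π / 2)) (π / 2))
    (hy : y ∈ Icc (-(π / 2)) (π / 2)) (hc : ¬ (|x| = π / 2 ∧ |y| = π / 2)) :
    0 < √(1 - u θ x y ^ 2) := by
  have hpi := pi_pos
  have side : ∀ z w : ℝ, z ∈ Icc (-(π / 2)) (π / 2) → w ∈ Icc (-(π / 2)) (π / 2) →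
      |z| = π / 2 → ¬ (|w| = π / 2) → 0 < √(1 - u θ z w ^ 2) := by
    intro z w hz hw h1 h2
    have hw' : w ∈ Ioo (-(π / 2)) (π / 2) := by
      constructor
      · rcases hw.1.eq_or_lt with h | h
        · exfalso; apply h2; rw [← h, abs_neg, abs_of_pos (by positivity)]
        · exact h
      · rcases hw.2.eq_or_lt with h | h
        · exfalso; apply h2; rw [h, abs_of_pos (by positivity)]
        · exact h
    have hcw := cos_pos_of_mem_Ioo hw'
    have hs := sin_sq_add_cos_sq w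
    have key : u θ z w ^ 2 = sin w ^ 2 := by
      rcases abs_eq (by positivity) |>.1 h1 with h | h
      · rw [h, u_pi_div_two']
      · rw [h, u_neg_pi_div_two', neg_sq]
    rw [key]
    apply sqrt_pos.2
    have : 0 < cos w ^ 2 := by positivity
    linarith
  by_cases h1 : |x| = π / 2
  · exact side x y hx hy h1 (fun h2 => hc ⟨h1, h2⟩)
  · by_cases h2 : |y| = π / 2
    · have := side y x hy hx h2 h1
      have e1 : u θ y x = u θ x y := by unfold u; ring
      rwa [e1] at this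
    · have inn : ∀ z : ℝ, z ∈ Icc (-(π / 2)) (π / 2) → ¬ (|z| = π / 2) →
          z ∈ Ioo (-(π / 2)) (π / 2) := by
        intro w hw h2
        constructor
        · rcases hw.1.eq_or_lt with h | h
          · exfalso; apply h2; rw [← h, abs_neg, abs_of_pos (by positivity)]
          · exact h
        · rcases hw.2.eq_or_lt with h | h
          · exfalso; apply h2; rw [h, abs_of_pos (by positivity)]
          · exact h
      exact sqrt_pos_of hθ (inn x hx h1) (inn y hy h2)
where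
  u_pi_div_two' {w : ℝ} : u θ (π / 2) w = sin w := by unfold u; simp
  u_neg_pi_div_two' {w : ℝ} : u θ (-(π / 2)) w = -sin w := by unfold u; simp

theorem abs_X_le' (θ x y : ℝ) : |X θ x y| ≤ 1 := by
  rcases (sqrt_nonneg (1 - u θ x y ^ 2)).eq_or_lt with h | h
  · unfold X; rw [← h, div_zero, abs_zero]; exact zero_le_one
  · exact abs_X_le h

end

end Pool.Agent.Star77b
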